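import Pool.Agent.P8H75.RP.FA2

/-!
# Package FA of the project RP: classes
-/

set_option autoImplicit false

namespace Pool.Agent.P8H75.RP

open Finset Pool.Agent.P8H73.RP

/-- Markov's inequality for the classes with small primes -/
theorem markov {k z : ℕ} (hk : 1 ≤ k) (T : ℝ) (B : Finset ℕ)
    (hB : ∀ l ∈ B, l < k ∧ T ≤ ext k z l) : (B.card : ℝ) * T ≤ z := by
  have h1 : (B.card : ℝ) * T ≤ ∑ l ∈ B, (ext k z l : ℝ) := by
    rw [← nsmul_eq_mul]
    exact card_nsmul_le_sum _ _ _ fun l hl => (hB l hl).2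
  have h2 : ∑ l ∈ B, (ext k z l : ℝ) ≤ ∑ l ∈ range k, (ext k z l : ℝ) :=
    sum_le_sum_of_subset_of_nonneg (fun l hl => mem_range.mpr (hB l hl).1)
      fun _ _ _ => Nat.cast_nonneg _
  have h3 : ∑ l ∈ range k, (ext k z l : ℝ) = z := by
    exact_mod_cast ext_sum k z hk
  linarith

/-- the bound for the classes without many small primes, from CORE -/
theorem main_classes {m : ℕ} {ε C : ℝ}
    (hC : ∀ (k₁ k₂ W H z : ℕ) (l X : ℤ) (τ : ℝ), 1 ≤ k₁ → 1 ≤ k₂ → 2 ≤ z → 0 < τ →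
      (((range W).filter (fun M : ℕ => (((k₁ * k₂ : ℕ) : ℝ) / Nat.totient (k₁ * k₂)) *
        (H / Real.log z) + τ ≤ (pc (l + k₁ * (X + M)) (k₁ * k₂) H z : ℝ))).card : ℝ) ≤
        C * (W + (z : ℝ) ^ (4 * m)) * ((H : ℝ) ^ m * (z : ℝ) ^ ε) / τ ^ (2 * m))
    {x y : ℝ} {k₁ k₂ J H' z : ℕ} {l₁ : ℤ} (hk₁ : 1 ≤ k₁) (hk₂ : 1 ≤ k₂) (hz : 2 ≤ z)
    (hH : y / (k₁ * k₂ : ℕ) ≤ (H' : ℝ) - J - 1) (τ : ℝ) (hτ : 0 < τ) (B : Finset ℕ)
    (hB : ∀ l ∈ B, l < k₁ * k₂ ∧ (l : ℤ) ≡ l₁ [ZMOD (k₁ : ℤ)] ∧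
      ((((k₁ * k₂ : ℕ) : ℝ) / Nat.totient (k₁ * k₂)) * (H' / Real.log z) + τ) +
        ext (k₁ * k₂) z l ≤ cnt x y (k₁ * k₂) l) :
    (B.card : ℝ) * (J + 1) ≤ C * ((k₂ : ℝ) * (J + 1) + (z : ℝ) ^ (4 * m)) *
      ((H' : ℝ) ^ m * (z : ℝ) ^ ε) / τ ^ (2 * m) := by
  classical
  obtain ⟨X, hX⟩ := positions hk₁ hk₂ hH _ B hB
  have h1 := hC k₁ k₂ (k₂ * (J + 1)) H' z l₁ X τ hk₁ hk₂ hz hτ
  push_cast at h1 hX
  refine le_trans ?_ h1
  have h2 : ((B.card * (J + 1) : ℕ) : ℝ) ≤ _ := Nat.cast_le.mpr hX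
  push_cast at h2
  convert h2 using 3

theorem final_calc {m : ℕ} {C₁ η H Q a b V L K : ℝ} (hC : 0 < C₁) (hη : 0 < η) (hH : 0 < H)
    (hQ : 0 < Q) (ha : 0 < a) (hV : 0 < V) (hL : 0 ≤ L)
    (h1 : K ≤ 1 / η * V * H ^ m) (h2 : L ≤ b ^ (2 * m) * Q) :
    C₁ * K * ((2 * H) ^ m * Q) * (a ^ (2 * m) * L / (H ^ m * H ^ m)) ≤
      C₁ * 2 ^ m * a ^ (2 * m) * b ^ (2 * m) / η * (Q * Q) * V := by
  have hHm : 0 < H ^ m := by positivity
  calc C₁ * K * ((2 * H) ^ m * Q) * (a ^ (2 * m) * L / (H ^ m * H ^ m))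
      ≤ C₁ * (1 / η * V * H ^ m) * ((2 * H) ^ m * Q) *
        (a ^ (2 * m) * (b ^ (2 * m) * Q) / (H ^ m * H ^ m)) := by
        apply mul_le_mul
        · apply mul_le_mul_of_nonneg_right _ (by positivity)
          exact mul_le_mul_of_nonneg_left h1 hC.le
        · apply div_le_div_of_nonneg_right _ (by positivity)
          exact mul_le_mul_of_nonneg_left h2 (by positivity)
        · positivity
        · positivity
    _ = _ := by
        rw [mul_pow]
        generalize H ^ m = h at *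
        generalize (2 : ℝ) ^ m = t
        generalize a ^ (2 * m) = a'
        generalize b ^ (2 * m) = b'
        field_simp

/-- the number of the bad classes, for any finite set of bad classes -/
theorem fa_aux (hcore : S_CORE) (m : ℕ) (ε : ℝ) (hm : 1 ≤ m) (hε : 0 < ε) :
    ∃ C : ℝ, 0 < C ∧ ∀ (k₁ k₂ : ℕ) (l₁ : ℤ) (x y s : ℝ), 1 ≤ k₁ → 1 ≤ k₂ →
      ((k₁ * k₂ : ℕ) : ℝ) < y → 1 ≤ s → ∀ B : Finset ℕ,
      (∀ l ∈ B, l < k₁ * k₂ ∧ (l : ℤ) ≡ l₁ [ZMOD (k₁ : ℤ)] ∧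
        (2 / s + ε) * y / (Nat.totient (k₁ * k₂) * Real.log (y / (k₁ * k₂ : ℕ))) ≤
          (cnt x y (k₁ * k₂) l : ℝ)) →
      (B.card : ℝ) ≤ C * (y / k₁) ^ ε * (k₂ / (y / (k₁ * k₂ : ℕ)) ^ m +
        (y / (k₁ * k₂ : ℕ)) ^ (m * (2 * s - 1) - 1)) := by
  classical
  obtain ⟨C₁, hC₁, hcore'⟩ := hcore m (ε / 2) hm (by positivity)
  obtain ⟨η, H₀, hη0, hη1, hH₀, hsizes⟩ := sizes ε hε
  set Ca : ℝ := H₀ ^ m with hCa
  set Cb : ℝ := 4 / ε ^ 2 with hCb
  set Cc : ℝ := C₁ * 2 ^ m * (4 / ε) ^ (2 * m) * (4 * m / ε) ^ (2 * m) / η with hCc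
  have hmr : (1 : ℝ) ≤ m := by exact_mod_cast hm
  have hCa0 : 0 < Ca := by positivity
  have hCb0 : 0 < Cb := by positivity
  have hCc0 : 0 < Cc := by positivity
  refine ⟨Ca + 1 + Cb + Cc, by positivity, ?_⟩
  intro k₁ k₂ l₁ x y s hk₁ hk₂ hky hs B hB
  have hk₁r : (1 : ℝ) ≤ k₁ := by exact_mod_cast hk₁
  have hk₂r : (1 : ℝ) ≤ k₂ := by exact_mod_cast hk₂
  have hkpos : (0 : ℝ) < ((k₁ * k₂ : ℕ) : ℝ) := by
    push_cast
    positivity
  set H : ℝ := y / (k₁ * k₂ : ℕ) with hH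
  set Y : ℝ := y / k₁ with hY
  have hYH : Y = H * k₂ := by
    rw [hY, hH]
    push_cast
    field_simp
  have hH1 : 1 < H := by
    rw [hH, lt_div_iff₀ hkpos]
    linarith
  have hH0 : 0 < H := by linarith
  have hHY : H ≤ Y := by
    rw [hYH]
    nlinarith
  have hY1 : 1 ≤ Y := by linarith
  have hYε : 1 ≤ Y ^ ε := Real.one_le_rpow hY1 hε.le
  clear_value H Y
  set V1 : ℝ := k₂ / H ^ m with hV1
  set V2 : ℝ := H ^ (m * (2 * s - 1) - 1) with hV2
  have hV10 : 0 < V1 := by positivity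
  have hV20 : 0 < V2 := by positivity
  have hk₂card : (B.card : ℝ) ≤ k₂ := by
    exact_mod_cast classes_card k₁ k₂ l₁ B fun l hl => ⟨(hB l hl).1, (hB l hl).2.1⟩
  rcases lt_or_ge H H₀ with hsmall | hlarge
  · -- bounded `H`
    have h1 : (k₂ : ℝ) = H ^ m * V1 := by
      rw [hV1]
      field_simp
    have h2 : H ^ m ≤ Ca := pow_le_pow_left₀ hH0.le hsmall.le m
    calc (B.card : ℝ) ≤ k₂ := hk₂card
      _ = H ^ m * V1 := h1
      _ ≤ Ca * V1 := mul_le_mul_of_nonneg_right h2 hV10.le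
      _ ≤ Ca * Y ^ ε * V1 := by
          apply mul_le_mul_of_nonneg_right _ hV10.le
          nlinarith
      _ ≤ (Ca + 1 + Cb + Cc) * Y ^ ε * (V1 + V2) := by
          apply mul_le_mul _ (by linarith) hV10.le (by positivity)
          apply mul_le_mul_of_nonneg_right _ (by positivity)
          linarith
  rcases le_or_gt (k₂ : ℝ) V2 with htriv | hnt
  · calc (B.card : ℝ) ≤ k₂ := hk₂card
      _ ≤ V2 := htriv
      _ ≤ 1 * 1 * (V1 + V2) := by linarith
      _ ≤ (Ca + 1 + Cb + Cc) * Y ^ ε * (V1 + V2) := by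
          apply mul_le_mul_of_nonneg_right _ (by positivity)
          apply mul_le_mul (by linarith) hYε (by norm_num) (by positivity)
  -- the main case
  obtain ⟨hz2, hH'2, hH'log⟩ := hsizes H s hlarge hs
  set z : ℕ := ⌊H ^ (s / 2)⌋₊ with hz
  set J : ℕ := ⌊η * H⌋₊ with hJ
  set H' : ℕ := ⌈H⌉₊ + J + 1 with hH'
  set L : ℝ := Real.log H with hL
  have hL0 : 0 < L := Real.log_pos hH1
  set T : ℝ := ε / 4 * (H / L) with hT
  have hT0 : 0 < T := by positivity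
  have hzP : (z : ℝ) ≤ H ^ (s / 2) := Nat.floor_le (by positivity)
  have hV2H : H ^ (m * (2 * s - 1)) = H * V2 := by
    rw [hV2, Real.rpow_sub_one hH0.ne']
    field_simp
  have hPle : H ^ (s / 2) ≤ H * V2 := by
    rw [← hV2H]
    apply Real.rpow_le_rpow_of_exponent_le hH1.le
    nlinarith
  have hzY : (z : ℝ) ≤ Y := by
    rw [hYH]
    have : H * V2 ≤ H * k₂ := mul_le_mul_of_nonneg_left hnt.le hH0.le
    linarith
  set B₁ := B.filter (fun l => T ≤ (ext (k₁ * k₂) z l : ℝ)) with hB₁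
  set B₂ := B.filter (fun l => ¬ T ≤ (ext (k₁ * k₂) z l : ℝ)) with hB₂
  have hcards : (B.card : ℝ) = B₁.card + B₂.card := by
    rw [hB₁, hB₂]
    exact_mod_cast (card_filter_add_card_filter_not _).symm
  -- the first part
  have hpart1 : (B₁.card : ℝ) ≤ Cb * Y ^ ε * V2 := by
    have h1 := markov (k := k₁ * k₂) (z := z) (Nat.mul_pos hk₁ hk₂) T B₁ (by
      intro l hl
      rw [hB₁, mem_filter] at hl
      exact ⟨(hB l hl.1).1, hl.2⟩)
    have h2 : L ≤ Y ^ ε / ε := by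
      refine (Real.log_le_rpow_div hH0.le hε).trans ?_
      apply div_le_div_of_nonneg_right _ hε.le
      exact Real.rpow_le_rpow hH0.le hHY hε.le
    have h3 : (B₁.card : ℝ) * T ≤ H * V2 := h1.trans (hzP.trans hPle)
    have h4 : (B₁.card : ℝ) = (B₁.card * T) * (4 / ε * (L / H)) := by
      rw [hT]
      field_simp
    rw [h4]
    calc (B₁.card * T) * (4 / ε * (L / H)) ≤ (H * V2) * (4 / ε * (L / H)) :=
          mul_le_mul_of_nonneg_right h3 (by positivity)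
      _ = 4 / ε * V2 * L := by field_simp
      _ ≤ 4 / ε * V2 * (Y ^ ε / ε) := mul_le_mul_of_nonneg_left h2 (by positivity)
      _ = Cb * Y ^ ε * V2 := by
          rw [hCb]
          field_simp
  -- the second part
  have hpart2 : (B₂.card : ℝ) ≤ Cc * Y ^ ε * (V1 + V2) := by
    have hφ : (0 : ℝ) < Nat.totient (k₁ * k₂) := by
      exact_mod_cast Nat.totient_pos.mpr (Nat.mul_pos hk₁ hk₂)
    have hφ1 : (1 : ℝ) ≤ ((k₁ * k₂ : ℕ) : ℝ) / Nat.totient (k₁ * k₂) := by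
      rw [one_le_div hφ]
      exact_mod_cast Nat.totient_le _
    have hyk : y / (k₁ * k₂ : ℕ) ≤ (H' : ℝ) - J - 1 := by
      rw [← hH, hH']
      push_cast
      have := Nat.le_ceil H
      linarith
    have h1 := main_classes (x := x) (y := y) (J := J) (l₁ := l₁) hcore' hk₁ hk₂ hz2 hyk T hT0 B₂ (by
      intro l hl
      rw [hB₂, mem_filter, not_le] at hl
      obtain ⟨hlB, hlt⟩ := hl
      obtain ⟨hl1, hl2, hl3⟩ := hB l hlB
      refine ⟨hl1, hl2, ?_⟩
      have e1 : (2 / s + ε) * y / (Nat.totient (k₁ * k₂) * L) =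
          ((k₁ * k₂ : ℕ) : ℝ) / Nat.totient (k₁ * k₂) * ((2 / s + ε) * (H / L)) := by
        rw [hH]
        field_simp
      rw [e1] at hl3
      have e2 : (H' : ℝ) / Real.log z + T + T ≤ (2 / s + ε) * (H / L) := by
        have e3 : (2 / s + ε / 4) * (H / L) + T + T = (2 / s + ε) * (H / L) - ε / 4 * (H / L) := by
          rw [hT]
          ring
        have e4 : 0 ≤ ε / 4 * (H / L) := by positivity
        linarith
      have e5 := mul_le_mul_of_nonneg_left e2 (zero_le_one.trans hφ1)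
      have e6 : T + T ≤ ((k₁ * k₂ : ℕ) : ℝ) / Nat.totient (k₁ * k₂) * (T + T) :=
        le_mul_of_one_le_left (by positivity) hφ1
      rw [add_assoc, mul_add] at e5
      linarith)
    have hJ1 : η * H ≤ (J : ℝ) + 1 := (Nat.lt_floor_add_one _).le
    have hJpos : (0 : ℝ) < (J : ℝ) + 1 := by positivity
    have hz4 : (z : ℝ) ^ (4 * m) ≤ H * V2 * H ^ m := by
      calc (z : ℝ) ^ (4 * m) ≤ (H ^ (s / 2)) ^ (4 * m) :=
            pow_le_pow_left₀ (Nat.cast_nonneg _) hzP _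
        _ = H ^ (m * (2 * s - 1) + m) := by
            rw [← Real.rpow_natCast, ← Real.rpow_mul hH0.le]
            congr 1
            push_cast
            ring
        _ = H * V2 * H ^ m := by
            rw [Real.rpow_add hH0, Real.rpow_natCast, hV2H]
    have hzε : (z : ℝ) ^ (ε / 2) ≤ Y ^ (ε / 2) :=
      Real.rpow_le_rpow (Nat.cast_nonneg _) hzY (by positivity)
    have hH'm : (H' : ℝ) ^ m ≤ (2 * H) ^ m := pow_le_pow_left₀ (Nat.cast_nonneg _) hH'2 _
    have hLm : L ^ (2 * m) ≤ (4 * m / ε) ^ (2 * m) * Y ^ (ε / 2) := by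
      have h2 : L ≤ (4 * m / ε) * Y ^ (ε / (4 * m)) := by
        refine (Real.log_le_rpow_div hH0.le (show 0 < ε / (4 * m) by positivity)).trans ?_
        have h3 : H ^ (ε / (4 * m)) / (ε / (4 * m)) = (4 * m / ε) * H ^ (ε / (4 * m)) := by
          field_simp
        rw [h3]
        apply mul_le_mul_of_nonneg_left _ (by positivity)
        exact Real.rpow_le_rpow hH0.le hHY (by positivity)
      calc L ^ (2 * m) ≤ ((4 * m / ε) * Y ^ (ε / (4 * m))) ^ (2 * m) :=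
            pow_le_pow_left₀ hL0.le h2 _
        _ = (4 * m / ε) ^ (2 * m) * Y ^ (ε / 2) := by
            rw [mul_pow, ← Real.rpow_natCast (Y ^ (ε / (4 * m))), ← Real.rpow_mul (by linarith)]
            congr 2
            push_cast
            field_simp
            norm_num
    have hTm : 1 / T ^ (2 * m) = (4 / ε) ^ (2 * m) * L ^ (2 * m) / (H ^ m * H ^ m) := by
      have e1 : 1 / T = 4 / ε * (L / H) := by
        rw [hT]
        field_simp
      rw [← one_div_pow, e1, ← pow_add, ← two_mul, mul_pow, div_pow L H, mul_div_assoc]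
    have h2 : (B₂.card : ℝ) ≤ C₁ * (k₂ + H * V2 * H ^ m / (η * H)) *
        ((2 * H) ^ m * Y ^ (ε / 2)) * (1 / T ^ (2 * m)) := by
      have h3 : (B₂.card : ℝ) * (J + 1) ≤ (C₁ * (k₂ + H * V2 * H ^ m / (η * H)) *
          ((2 * H) ^ m * Y ^ (ε / 2)) * (1 / T ^ (2 * m))) * (J + 1) := by
        refine h1.trans ?_
        rw [div_eq_mul_one_div]
        have h4 : (k₂ : ℝ) * (J + 1) + (z : ℝ) ^ (4 * m) ≤
            (k₂ + H * V2 * H ^ m / (η * H)) * (J + 1) := by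
          have h5 : H * V2 * H ^ m ≤ H * V2 * H ^ m / (η * H) * (J + 1) := by
            rw [div_mul_eq_mul_div, le_div_iff₀ (by positivity)]
            exact mul_le_mul_of_nonneg_left hJ1 (by positivity)
          linarith
        calc C₁ * (k₂ * (J + 1) + (z : ℝ) ^ (4 * m)) * ((H' : ℝ) ^ m * (z : ℝ) ^ (ε / 2)) *
              (1 / T ^ (2 * m))
            ≤ C₁ * ((k₂ + H * V2 * H ^ m / (η * H)) * (J + 1)) *
              ((2 * H) ^ m * Y ^ (ε / 2)) * (1 / T ^ (2 * m)) := by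
              apply mul_le_mul_of_nonneg_right _ (by positivity)
              apply mul_le_mul (mul_le_mul_of_nonneg_left h4 hC₁.le)
                (mul_le_mul hH'm hzε (by positivity) (by positivity)) (by positivity)
                (by positivity)
          _ = _ := by ring
      exact le_of_mul_le_mul_right h3 hJpos
    have h3 : (k₂ : ℝ) + H * V2 * H ^ m / (η * H) ≤ 1 / η * (V1 + V2) * H ^ m := by
      have e1 : H * V2 * H ^ m / (η * H) = 1 / η * V2 * H ^ m := by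
        field_simp
      have e2 : (k₂ : ℝ) = V1 * H ^ m := by
        rw [hV1]
        field_simp
      have e3 : (1 : ℝ) ≤ 1 / η := by
        rw [le_div_iff₀ hη0]
        linarith
      have e4 : V1 * H ^ m ≤ 1 / η * (V1 * H ^ m) := le_mul_of_one_le_left (by positivity) e3
      rw [e1, e2]
      linarith
    have hYY : Y ^ (ε / 2) * Y ^ (ε / 2) = Y ^ ε := by
      rw [← Real.rpow_add (by linarith)]
      congr 1
      ring
    have h4 := final_calc (m := m) hC₁ hη0 hH0 (show 0 < Y ^ (ε / 2) by positivity)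
      (show 0 < 4 / ε by positivity)
      (show 0 < V1 + V2 by positivity) (show 0 ≤ L ^ (2 * m) by positivity) h3 hLm
    rw [← hTm, hYY] at h4
    exact h2.trans h4
  calc (B.card : ℝ) = B₁.card + B₂.card := hcards
    _ ≤ Cb * Y ^ ε * (V1 + V2) + Cc * Y ^ ε * (V1 + V2) := by
        have : Cb * Y ^ ε * V2 ≤ Cb * Y ^ ε * (V1 + V2) :=
          mul_le_mul_of_nonneg_left (by linarith) (by positivity)
        linarith
    _ ≤ (Ca + 1 + Cb + Cc) * Y ^ ε * (V1 + V2) := by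
        have : 0 ≤ (Ca + 1) * Y ^ ε * (V1 + V2) := by positivity
        linarith

theorem fa : S_CORE → S_FA := by
  classical
  intro hcore m ε hm hε
  obtain ⟨C, hC, h⟩ := fa_aux hcore m ε hm hε
  refine ⟨C, hC, ?_⟩
  intro k₁ k₂ l₁ x y s hk₁ hk₂ hky _ hs
  apply h k₁ k₂ l₁ x y s hk₁ hk₂ hky hs
  intro l hl
  rw [mem_filter, mem_range] at hl
  exact ⟨hl.1, hl.2.1, hl.2.2⟩

end Pool.Agent.P8H75.RP
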