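import Pool.Agent.P8H75.RP.FA1

/-!
# Package FB of the project RP: the choice of `m`
-/

set_option autoImplicit false

namespace Pool.Agent.P8H75.RP

open Finset Pool.Agent.P8H73.RP

theorem fb : S_FA → S_FB := by
  classical
  intro hfa ε hε
  have hfa' : ∀ m : ℕ, ∃ C : ℝ, 0 < C ∧ (1 ≤ m → ∀ (k₁ k₂ : ℕ) (l₁ : ℤ) (x y s : ℝ), 1 ≤ k₁ →
      1 ≤ k₂ → ((k₁ * k₂ : ℕ) : ℝ) < y → y ≤ x → 1 ≤ s →
      (((range (k₁ * k₂)).filter (fun l : ℕ => (l : ℤ) ≡ l₁ [ZMOD (k₁ : ℤ)] ∧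
          (2 / s + ε) * y / (Nat.totient (k₁ * k₂) * Real.log (y / (k₁ * k₂ : ℕ))) ≤
            (cnt x y (k₁ * k₂) l : ℝ))).card : ℝ) ≤
        C * (y / k₁) ^ ε * (k₂ / (y / (k₁ * k₂ : ℕ)) ^ m +
          (y / (k₁ * k₂ : ℕ)) ^ (m * (2 * s - 1) - 1))) := by
    intro m
    rcases Nat.eq_zero_or_pos m with rfl | hm
    · exact ⟨1, one_pos, fun h => absurd h (by omega)⟩
    · obtain ⟨C, hC, h⟩ := hfa m ε hm hε
      refine ⟨C, hC, fun _ k₁ k₂ l₁ x y s h1 h2 h3 h4 h5 => ?_⟩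
      have := h k₁ k₂ l₁ x y s h1 h2 h3 h4 h5
      convert this using 4
  choose D hD0 hD using hfa'
  set M : ℕ := ⌊1 / (2 * ε)⌋₊ with hM
  have hsum0 : 0 ≤ ∑ m ∈ range (M + 1), D m := sum_nonneg fun m _ => (hD0 m).le
  refine ⟨1 + 2 * ∑ m ∈ range (M + 1), D m, by positivity, ?_⟩
  intro k₁ k₂ l₁ x y δ hk₁ hk₂ hky hyx hδ0 hδ2 hYH'
  have hk₁r : (1 : ℝ) ≤ k₁ := by exact_mod_cast hk₁
  have hk₂r : (1 : ℝ) ≤ k₂ := by exact_mod_cast hk₂
  have hkpos : (0 : ℝ) < ((k₁ * k₂ : ℕ) : ℝ) := by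
    push_cast
    positivity
  set B := (range (k₁ * k₂)).filter (fun l : ℕ => (l : ℤ) ≡ l₁ [ZMOD (k₁ : ℤ)] ∧
      (2 - δ + ε) * y / (Nat.totient (k₁ * k₂) * Real.log (y / (k₁ * k₂ : ℕ))) ≤
        (cnt x y (k₁ * k₂) l : ℝ)) with hB
  have hk₂card : (B.card : ℝ) ≤ k₂ := by
    exact_mod_cast classes_card k₁ k₂ l₁ B fun l hl => by
      rw [hB, mem_filter, mem_range] at hl
      exact ⟨hl.1, hl.2.1⟩
  have hFA : ∀ m : ℕ, 1 ≤ m → (B.card : ℝ) ≤ D m * (y / k₁) ^ ε *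
      (k₂ / (y / (k₁ * k₂ : ℕ)) ^ m +
        (y / (k₁ * k₂ : ℕ)) ^ (m * (2 * (2 / (2 - δ)) - 1) - 1)) := by
    intro m hm
    have h1 : (1 : ℝ) ≤ 2 / (2 - δ) := by
      rw [le_div_iff₀ (by linarith)]
      linarith
    have h2 := hD m hm k₁ k₂ l₁ x y (2 / (2 - δ)) hk₁ hk₂ hky hyx h1
    have h3 : (2 : ℝ) / (2 / (2 - δ)) = 2 - δ := by
      field_simp
    rw [h3] at h2
    rw [hB]
    convert h2 using 4
  clear_value B
  have hYHk : y / k₁ = y / (k₁ * k₂ : ℕ) * k₂ := by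
    push_cast
    field_simp
  have hH1 : 1 < y / (k₁ * k₂ : ℕ) := by
    rw [lt_div_iff₀ hkpos]
    linarith
  generalize y / (k₁ * k₂ : ℕ) = H at *
  generalize y / (k₁ : ℝ) = Y at *
  have hH0 : 0 < H := by linarith
  have hHY : H ≤ Y := by
    rw [hYHk]
    nlinarith
  have hY1 : 1 ≤ Y := by linarith
  have hY0 : 0 < Y := by linarith
  set LY := Real.log Y with hLY
  set LH := Real.log H with hLH
  have hLH0 : 0 < LH := Real.log_pos hH1
  have hLY0 : 0 ≤ LY := Real.log_nonneg hY1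
  have hεL : ε * LY ≤ LH := by
    have h1 := Real.log_le_log (by positivity) hYH'
    rwa [Real.log_rpow hY0] at h1
  set m : ℕ := ⌊LY * ((2 - δ) / 4) / LH⌋₊ with hm
  have hm1 : (m : ℝ) * LH ≤ LY * ((2 - δ) / 4) := by
    rw [← le_div_iff₀ hLH0]
    apply Nat.floor_le
    apply div_nonneg _ hLH0.le
    apply mul_nonneg hLY0
    linarith
  have hm2 : LY * ((2 - δ) / 4) ≤ ((m : ℝ) + 1) * LH := by
    rw [← div_le_iff₀ hLH0]
    exact (Nat.lt_floor_add_one _).le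
  have hk₂Y : (k₂ : ℝ) / H ^ m ≤ Y ^ (1 / 2 + δ / 4) := by
    have h1 : (k₂ : ℝ) / H ^ m = Y / (H ^ ((m : ℝ) + 1)) := by
      rw [Real.rpow_add_one hH0.ne', Real.rpow_natCast, hYHk]
      field_simp
    rw [h1, div_le_iff₀ (by positivity), Real.rpow_def_of_pos hY0, Real.rpow_def_of_pos hH0,
      ← Real.exp_add]
    conv_lhs => rw [← Real.exp_log hY0]
    apply Real.exp_le_exp.mpr
    rw [← hLY, ← hLH]
    linarith
  have hYe : Y ^ (1 / 2 + δ / 4) ≤ Y ^ (1 / 2 + δ / 4 + ε) :=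
    Real.rpow_le_rpow_of_exponent_le hY1 (by linarith)
  have hpos : 0 < Y ^ (1 / 2 + δ / 4 + ε) := by positivity
  rcases Nat.eq_zero_or_pos m with h0 | hm0
  · rw [h0, pow_zero, div_one] at hk₂Y
    calc (B.card : ℝ) ≤ Y ^ (1 / 2 + δ / 4 + ε) := hk₂card.trans (hk₂Y.trans hYe)
      _ ≤ (1 + 2 * ∑ m ∈ range (M + 1), D m) * Y ^ (1 / 2 + δ / 4 + ε) :=
        le_mul_of_one_le_left hpos.le (by linarith)
  · have hmM : m ∈ range (M + 1) := by
      rw [mem_range, Nat.lt_succ_iff]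
      apply Nat.le_floor
      rw [le_div_iff₀ (by positivity)]
      have h1 : (m : ℝ) * LH ≤ LY / 2 := by nlinarith
      have hLY1 : 0 < LY := by
        by_contra hneg
        push Not at hneg
        have : (1 : ℝ) ≤ m := by exact_mod_cast hm0
        nlinarith
      have h2 : (m : ℝ) * (ε * LY) ≤ LY / 2 :=
        (mul_le_mul_of_nonneg_left hεL (Nat.cast_nonneg _)).trans h1
      nlinarith
    have hDm : D m ≤ ∑ m ∈ range (M + 1), D m :=
      single_le_sum (f := D) (fun m _ => (hD0 m).le) hmM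
    have h2 : H ^ ((m : ℝ) * (2 * (2 / (2 - δ)) - 1) - 1) ≤ Y ^ (1 / 2 + δ / 4) := by
      refine (Real.rpow_le_rpow_of_exponent_le hH1.le (show (m : ℝ) * (2 * (2 / (2 - δ)) - 1) - 1 ≤
        (m : ℝ) * (2 * (2 / (2 - δ)) - 1) by linarith)).trans ?_
      rw [Real.rpow_def_of_pos hY0, Real.rpow_def_of_pos hH0]
      apply Real.exp_le_exp.mpr
      rw [← hLY, ← hLH]
      have h2δ : (2 - δ) ≠ 0 := by
        intro h
        linarith
      have h3 : 2 * (2 / (2 - δ)) - 1 = (2 + δ) / (2 - δ) := by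
        field_simp
        ring
      rw [h3]
      have h4 : 0 < (2 + δ) / (2 - δ) := div_pos (by linarith) (by linarith)
      calc LH * (m * ((2 + δ) / (2 - δ))) = (m * LH) * ((2 + δ) / (2 - δ)) := by ring
        _ ≤ (LY * ((2 - δ) / 4)) * ((2 + δ) / (2 - δ)) := mul_le_mul_of_nonneg_right hm1 h4.le
        _ = LY * (1 / 2 + δ / 4) := by
            field_simp
            ring
    have h3 : Y ^ ε * Y ^ (1 / 2 + δ / 4) = Y ^ (1 / 2 + δ / 4 + ε) := by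
      rw [← Real.rpow_add hY0]
      congr 1
      ring
    calc (B.card : ℝ) ≤ D m * Y ^ ε * (k₂ / H ^ m +
        H ^ (m * (2 * (2 / (2 - δ)) - 1) - 1)) := hFA m hm0
      _ ≤ (∑ m ∈ range (M + 1), D m) * Y ^ ε *
          (Y ^ (1 / 2 + δ / 4) + Y ^ (1 / 2 + δ / 4)) := by
          apply mul_le_mul _ (add_le_add hk₂Y h2) (by positivity) (by positivity)
          exact mul_le_mul_of_nonneg_right hDm (by positivity)
      _ = (2 * ∑ m ∈ range (M + 1), D m) * (Y ^ ε * Y ^ (1 / 2 + δ / 4)) := by ring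
      _ = (2 * ∑ m ∈ range (M + 1), D m) * Y ^ (1 / 2 + δ / 4 + ε) := by rw [h3]
      _ ≤ (1 + 2 * ∑ m ∈ range (M + 1), D m) * Y ^ (1 / 2 + δ / 4 + ε) :=
        mul_le_mul_of_nonneg_right (by linarith) hpos.le

end Pool.Agent.P8H75.RP
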