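import Pool.Agent.P8H75.RP.One

set_option autoImplicit false
set_option linter.unusedSectionVars false

/-!
# Random sets of cells sample all functions `Ef`
-/

namespace Pool.Agent.P8H75.RP

open MeasureTheory Set Pool.Agent.N248.RC

variable {n : ℕ}

/-- the two-sided comparison -/
def Gd (n : ℕ) (C R κ τ B : ℝ) (S Ω : Set (EuclideanSpace ℝ (Fin (n + 1)))) : Prop :=
  ∀ f : EuclideanSpace ℝ (Fin n) → ℂ, Measurable f → (∀ ξ, ‖f ξ‖ ≤ 1) →
    (∀ l : ℝ, R ^ (-B) ≤ l →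
      volume.real (S ∩ {x | l < ‖Eo (mc n) (ker (Pa n)) f x‖}) ≤
          C * (τ * volume.real (Ω ∩ {x | l / 4 < ‖Eo (mc n) (ker (Pa n)) f x‖}) +
            κ * Real.log R ^ 2 / l ^ 2) ∧
        τ * volume.real (Ω ∩ {x | l < ‖Eo (mc n) (ker (Pa n)) f x‖}) ≤
          C * (volume.real (S ∩ {x | l / 4 < ‖Eo (mc n) (ker (Pa n)) f x‖}) +
            κ * Real.log R ^ 2 / l ^ 2)) ∧
    (∀ p : ℝ, 2 ≤ p →
      ∫ x in S, ‖Eo (mc n) (ker (Pa n)) f x‖ ^ p ≤
          C ^ p * (τ * (∫ x in Ω, ‖Eo (mc n) (ker (Pa n)) f x‖ ^ p) + κ * Real.log R ^ 3) ∧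
        τ * ∫ x in Ω, ‖Eo (mc n) (ker (Pa n)) f x‖ ^ p ≤
          C ^ p * ((∫ x in S, ‖Eo (mc n) (ker (Pa n)) f x‖ ^ p) + κ * Real.log R ^ 3))

theorem gd_of_cmp (C₀ D E τ κ l₀ C R B : ℝ) (hC₀ : 1 ≤ C₀) (hτ : 0 ≤ τ) (hκ : 0 ≤ κ)
    (hR : 2 ≤ R) (S Ω : Set (EuclideanSpace ℝ (Fin (n + 1)))) (h : Cmp n C₀ D E τ κ l₀ S Ω)
    (hl : l₀ < R ^ (-B)) (hC16 : 16 ≤ C) (hD : 2 * D ≤ C * Real.log R ^ 2) (hD0 : 0 ≤ D)
    (e : ℝ) (he : 1 ≤ e) (hE : E ≤ e * Real.log R ^ 3) (hCe : C₀ * e ≤ C) :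
    Gd n C R κ τ B S Ω := by
  have hℓ := log_half R hR
  intro f hf hf1
  obtain ⟨h1, h2⟩ := h f hf hf1
  refine ⟨fun l hll => ?_, fun p hp => ?_⟩
  · obtain ⟨u, v⟩ := h1 l (lt_of_lt_of_le hl hll)
    have hR0 : (0 : ℝ) < R := by linarith
    have hl0 : 0 < l := (Real.rpow_pos_of_pos hR0 _).trans_le hll
    have m1 : 0 ≤ τ * volume.real (Ω ∩ {x | l / 4 < ‖Eo (mc n) (ker (Pa n)) f x‖}) := by positivity
    have m2 : 0 ≤ volume.real (S ∩ {x | l / 4 < ‖Eo (mc n) (ker (Pa n)) f x‖}) := by positivity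
    have hκl : 0 ≤ κ / l ^ 2 := by positivity
    have hD' : D ≤ C * Real.log R ^ 2 := by linarith
    have k1 : κ * D / l ^ 2 ≤ C * (κ * Real.log R ^ 2 / l ^ 2) := by
      have := mul_le_mul_of_nonneg_left hD' hκl
      calc κ * D / l ^ 2 = κ / l ^ 2 * D := by ring
        _ ≤ κ / l ^ 2 * (C * Real.log R ^ 2) := this
        _ = _ := by ring
    have k2 : κ * (2 * D) / l ^ 2 ≤ C * (κ * Real.log R ^ 2 / l ^ 2) := by
      have := mul_le_mul_of_nonneg_left hD hκl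
      calc κ * (2 * D) / l ^ 2 = κ / l ^ 2 * (2 * D) := by ring
        _ ≤ κ / l ^ 2 * (C * Real.log R ^ 2) := this
        _ = _ := by ring
    have n1 := mul_le_mul_of_nonneg_right (show (2 : ℝ) ≤ C by linarith) m1
    have n2 := mul_le_mul_of_nonneg_right (show (2 : ℝ) ≤ C by linarith) m2
    constructor
    · rw [mul_add]; linarith
    · rw [mul_add]; linarith
  · obtain ⟨u, v⟩ := h2 p hp
    have hC0 : 0 < C := by linarith
    have k1 : (4 : ℝ) * 4 ^ p ≤ C ^ p := by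
      have e1 : (4 : ℝ) ≤ 4 ^ p := by
        have := Real.rpow_le_rpow_of_exponent_le (show (1 : ℝ) ≤ 4 by norm_num)
          (show 1 ≤ p by linarith)
        rwa [Real.rpow_one] at this
      calc (4 : ℝ) * 4 ^ p ≤ 4 ^ p * 4 ^ p := mul_le_mul_of_nonneg_right e1 (by positivity)
        _ = 16 ^ p := by
            rw [← Real.mul_rpow (by norm_num) (by norm_num)]
            norm_num
        _ ≤ C ^ p := Real.rpow_le_rpow (by norm_num) hC16 (by linarith)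
    have k2 : C₀ ^ p * (κ * E) ≤ C ^ p * (κ * Real.log R ^ 3) := by
      have e1 : e ≤ e ^ p := by
        have := Real.rpow_le_rpow_of_exponent_le he (show 1 ≤ p by linarith)
        rwa [Real.rpow_one] at this
      have hℓ3 : 0 ≤ κ * Real.log R ^ 3 := by positivity
      calc C₀ ^ p * (κ * E) ≤ C₀ ^ p * (κ * (e * Real.log R ^ 3)) := by gcongr
        _ = C₀ ^ p * e * (κ * Real.log R ^ 3) := by ring
        _ ≤ C₀ ^ p * e ^ p * (κ * Real.log R ^ 3) := by gcongr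
        _ = (C₀ * e) ^ p * (κ * Real.log R ^ 3) := by
            rw [Real.mul_rpow (by linarith) (by linarith)]
        _ ≤ _ := by
            refine mul_le_mul_of_nonneg_right ?_ hℓ3
            exact Real.rpow_le_rpow (by positivity) hCe (by linarith)
    have i1 : 0 ≤ ∫ x in S, ‖Eo (mc n) (ker (Pa n)) f x‖ ^ p :=
      integral_nonneg fun x => by positivity
    have i2 : 0 ≤ τ * ∫ x in Ω, ‖Eo (mc n) (ker (Pa n)) f x‖ ^ p :=
      mul_nonneg hτ (integral_nonneg fun x => by positivity)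
    constructor
    · have := mul_le_mul_of_nonneg_right k1 i2
      rw [mul_add]; linarith
    · have := mul_le_mul_of_nonneg_right k1 i1
      rw [mul_add]; linarith

theorem LL_one (n : ℕ) : 1 ≤ LL n := by
  have h3 := Real.pi_gt_three
  have hn0 : (0 : ℝ) ≤ n := Nat.cast_nonneg n
  have : (1 : ℝ) ≤ (n + 1) ^ 2 := by nlinarith
  unfold LL
  nlinarith

theorem dbl (x ℓ : ℝ) (hx : 0 ≤ x) (hℓ : 1 / 2 ≤ ℓ) : x ≤ 2 * x * ℓ := by nlinarith

theorem sq1 (ℓ : ℝ) (hℓ : 1 / 2 ≤ ℓ) : 1 ≤ 4 * ℓ ^ 2 ∧ ℓ ≤ 2 * ℓ ^ 2 ∧ 1 ≤ 8 * ℓ ^ 3 := by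
  refine ⟨by nlinarith, by nlinarith, ?_⟩
  have : (1 / 2 : ℝ) ^ 3 ≤ ℓ ^ 3 := pow_le_pow_left₀ (by norm_num) hℓ 3
  norm_num at this
  linarith

open Classical in
/-- **Random sets of cells.** -/
theorem main (n : ℕ) (A B : ℝ) (hA : 0 ≤ A) (hB : 0 ≤ B) :
    ∃ C : ℝ, 1 ≤ C ∧ ∀ R : ℝ, 2 ≤ R → ∀ κ : ℝ, R ^ (-B) ≤ κ →
      ∀ (α : Type) (J : Finset α) (θ : α → Set (EuclideanSpace ℝ (Fin (n + 1)))),
      (∀ i ∈ J, MeasurableSet (θ i)) → (∀ i ∈ J, θ i ⊆ Metric.ball 0 R) →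
      (∀ i ∈ J, volume.real (θ i) ≤ κ) → (J : Set α).PairwiseDisjoint θ →
      ∀ k : ℕ, 1 ≤ k → k ≤ J.card →
      (((Finset.powersetCard k J).filter
        (fun I => ¬ Gd n C R κ (k / J.card) B (un θ I) (un θ J))).card : ℝ) ≤
        R ^ (-A) * ((J.card.choose k : ℕ) : ℝ) := by
  have hv := V0_pos n
  set d : ℝ := (n : ℝ) + 1 with hd
  have hd0 : 0 ≤ d := by positivity
  set Vd : ℝ := volume.real (Metric.ball (0 : EuclideanSpace ℝ (Fin (n + 1))) 1) with hVd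
  have hVd0 : 0 ≤ Vd := measureReal_nonneg
  set c0 : ℝ := Real.log (V0 n + Vd + 1) with hc0
  have hc00 : 0 ≤ c0 := Real.log_nonneg (by linarith)
  set CK : ℝ := 4 * c0 + 2 * (B + d) + 2 with hCK
  have hCK0 : 0 ≤ CK := by positivity
  set lL : ℝ := Real.log (32 * LL n) with hlL
  have hLL1 : 1 ≤ 32 * LL n := by linarith [LL_one n]
  have hlL0 : 0 ≤ lL := Real.log_nonneg hLL1
  have hl5 : 0 ≤ Real.log 5 := Real.log_nonneg (by norm_num)
  set CL : ℝ := 2 * Real.log 5 + n * (2 * lL + 1 + CK) with hCL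
  have hCL0 : 0 ≤ CL := by positivity
  have hl4 : 0 ≤ Real.log (4 * Vd + 1) := Real.log_nonneg (by linarith)
  set CG : ℝ := 2 + 2 * Real.log (4 * Vd + 1) + d + B with hCG
  have hCG0 : 0 ≤ CG := by positivity
  set CQ : ℝ := 17412 * (CG * CL) + 2 * (A + 2 * CK) + 12 with hCQ
  have hCQ0 : 0 ≤ CQ := by positivity
  set e : ℝ := 2 * (CK * CQ) + 8 with he
  have he1 : 1 ≤ e := by
    have : 0 ≤ CK * CQ := by positivity
    linarith
  refine ⟨16 + 2 * CQ * V0 n ^ 2 + V0 n * e, by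
    have : 0 ≤ 2 * CQ * V0 n ^ 2 := by positivity
    have : 0 ≤ V0 n * e := by positivity
    linarith, ?_⟩
  intro R hR κ hκB α J θ hθ hsub hθκ hdisj k hk hkJ
  have hℓ := log_half R hR
  set ℓ : ℝ := Real.log R with hℓd
  have hR0 : (0 : ℝ) < R := by linarith
  have hκ : 0 < κ := (Real.rpow_pos_of_pos hR0 _).trans_le hκB
  have hJne : J.Nonempty := Finset.card_pos.1 (by omega)
  have hl2 := Real.log_two_gt_d9
  have hl2' := Real.log_two_lt_d9
  have hl20 : 0 < Real.log 2 := by linarith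
  have hBℓ : 0 ≤ (B + d) * ℓ := by positivity
  -- the number of levels
  set K : ℕ := ⌈(c0 + (B + d) * ℓ) / Real.log 2⌉₊ with hK
  have hK1 : (c0 + (B + d) * ℓ) / Real.log 2 ≤ K := Nat.le_ceil _
  have hK2 : (K : ℝ) ≤ CK * ℓ := by
    have h1 : (K : ℝ) ≤ (c0 + (B + d) * ℓ) / Real.log 2 + 1 :=
      (Nat.ceil_lt_add_one (by positivity)).le
    have h0 : 0 ≤ c0 + (B + d) * ℓ := by linarith
    have h2 : (c0 + (B + d) * ℓ) / Real.log 2 ≤ 2 * (c0 + (B + d) * ℓ) := by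
      rw [div_le_iff₀ hl20]
      have h4 := mul_le_mul_of_nonneg_left (show (1 : ℝ) / 2 ≤ Real.log 2 by linarith) h0
      linarith
    have h3 := dbl c0 ℓ hc00 hℓ
    have e1 : CK * ℓ = 2 * (2 * c0 * ℓ) + 2 * ((B + d) * ℓ) + 2 * ℓ := by rw [hCK]; ring
    rw [e1]
    linarith
  have hK0 : (0 : ℝ) ≤ K := Nat.cast_nonneg K
  have h2K : (V0 n + Vd + 1) * R ^ (B + d) ≤ 2 ^ K := by
    have h1 : c0 + (B + d) * ℓ ≤ K * Real.log 2 := by
      rwa [div_le_iff₀ hl20] at hK1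
    have h2 := Real.exp_le_exp.2 h1
    rw [Real.exp_add, hc0, Real.exp_log (by linarith), ← Real.log_pow, Real.exp_log (by positivity),
      mul_comm (B + d) ℓ, hℓd, ← Real.rpow_def_of_pos hR0] at h2
    exact h2
  have hRBd : R ^ (B + d) = R ^ B * R ^ d := Real.rpow_add hR0 _ _
  have hRd1 : 1 ≤ R ^ d := Real.one_le_rpow (by linarith) hd0
  have hRB0 : 0 < R ^ B := Real.rpow_pos_of_pos hR0 _
  have hRBn : R ^ (-B) = (R ^ B)⁻¹ := Real.rpow_neg hR0.le _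
  have h2K0 : (0 : ℝ) < 2 ^ K := by positivity
  have hhalf : (1 / 2 : ℝ) ^ K = ((2 : ℝ) ^ K)⁻¹ := by rw [one_div, inv_pow]
  have hl₀ : (1 / 2 : ℝ) ^ K * V0 n < R ^ (-B) := by
    rw [hhalf, hRBn, inv_mul_lt_iff₀ h2K0, ← div_eq_mul_inv, lt_div_iff₀ hRB0]
    refine lt_of_lt_of_le ?_ h2K
    rw [hRBd]
    have h1 : V0 n * R ^ B * 1 ≤ V0 n * R ^ B * R ^ d :=
      mul_le_mul_of_nonneg_left hRd1 (by positivity)
    have h2 : 0 < (Vd + 1) * (R ^ B * R ^ d) := by positivity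
    have e1 : (V0 n + Vd + 1) * (R ^ B * R ^ d) = V0 n * R ^ B * R ^ d +
      (Vd + 1) * (R ^ B * R ^ d) := by ring
    rw [e1]
    linarith
  -- the total measure
  have hΩsub : un θ J ⊆ Metric.ball 0 R := iUnion₂_subset fun i hi => hsub i hi
  have hΩm : MeasurableSet (un θ J) := Finset.measurableSet_biUnion _ fun i hi => hθ i hi
  haveI : IsFiniteMeasure (volume.restrict (un θ J)) :=
    ⟨by rw [Measure.restrict_apply_univ]
        exact (measure_mono hΩsub).trans_lt measure_ball_lt_top⟩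
  set m : ℝ := (volume.restrict (un θ J)).real Set.univ with hm
  have hm0 : 0 ≤ m := measureReal_nonneg
  have hmV : m ≤ Vd * R ^ d := by
    rw [hm, measureReal_restrict_apply MeasurableSet.univ, univ_inter]
    refine (measureReal_mono hΩsub measure_ball_lt_top.ne).trans (le_of_eq ?_)
    rw [ball_real R hR0, mul_comm, hVd, hd]
    congr 1
    rw [← Real.rpow_natCast]
    push_cast
    rfl
  have hKm : (1 / 4 : ℝ) ^ K * m ≤ κ := by
    refine le_trans ?_ hκB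
    have h4 : (1 / 4 : ℝ) ^ K ≤ ((2 : ℝ) ^ K)⁻¹ := by
      rw [← hhalf]
      exact pow_le_pow_left₀ (by norm_num) (by norm_num) K
    calc (1 / 4 : ℝ) ^ K * m ≤ ((2 : ℝ) ^ K)⁻¹ * (Vd * R ^ d) :=
          mul_le_mul h4 hmV hm0 (by positivity)
      _ ≤ R ^ (-B) := by
          rw [hRBn, inv_mul_le_iff₀ h2K0, ← div_eq_mul_inv, le_div_iff₀ hRB0]
          refine le_trans ?_ h2K
          rw [hRBd]
          have h5 : 0 ≤ (V0 n + 1) * (R ^ B * R ^ d) := by positivity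
          have e1 : (V0 n + Vd + 1) * (R ^ B * R ^ d) = Vd * R ^ d * R ^ B +
            (V0 n + 1) * (R ^ B * R ^ d) := by ring
          rw [e1]
          linarith
  -- the discretisation
  have hLp := LL_pos n
  set M : ℕ := ⌈8 * LL n * R * 2 ^ K⌉₊ with hM
  have hM1 : 8 * LL n * R * 2 ^ K ≤ M := Nat.le_ceil _
  have h8 : 1 ≤ 8 * LL n * R * 2 ^ K := by
    have h1 : 1 ≤ 8 * LL n * R := by
      have h3 : 32 * LL n ≤ 8 * LL n * R * 2 := by
        have := mul_le_mul_of_nonneg_left hR hLp.le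
        linarith
      have h4 := LL_one n
      have h5 := mul_le_mul_of_nonneg_left hR hLp.le
      linarith
    have h2 : (1 : ℝ) ≤ 2 ^ K := one_le_pow₀ (by norm_num)
    exact one_le_mul_of_one_le_of_one_le h1 h2
  have hM2 : (M : ℝ) ≤ 16 * LL n * R * 2 ^ K := by
    have h1 : (M : ℝ) ≤ 8 * LL n * R * 2 ^ K + 1 :=
      (Nat.ceil_lt_add_one (by positivity)).le
    linarith
  have hMpos : (0 : ℝ) < M := (zero_lt_one.trans_le h8).trans_le hM1
  have hMn : 1 ≤ M := by exact_mod_cast hMpos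
  have hMK : LL n / M * R ≤ (1 / 2 : ℝ) ^ K / 8 := by
    rw [hhalf, div_mul_eq_mul_div, div_le_iff₀ hMpos]
    have h1 : ((2 : ℝ) ^ K)⁻¹ / 8 * (8 * LL n * R * 2 ^ K) = LL n * R := by
      field_simp
    rw [← h1]
    exact mul_le_mul_of_nonneg_left hM1 (by positivity)
  set Li : ℝ := Real.log ((2 * (M : ℝ)) ^ n * 4 + 1) with hLi
  have h2M1 : (1 : ℝ) ≤ 2 * M := by
    have : (1 : ℝ) ≤ M := by exact_mod_cast hMn
    linarith
  have h2Mn : (1 : ℝ) ≤ (2 * (M : ℝ)) ^ n := one_le_pow₀ h2M1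
  have hLi0 : 0 ≤ Li := Real.log_nonneg (by linarith)
  have hcard : ((Fintype.card (Option ((Fin n → Fin (2 * M)) × Fin 4)) : ℕ) : ℝ) ≤
      Real.exp Li := by
    rw [hLi, Real.exp_log (by positivity), Fintype.card_option, Fintype.card_prod,
      Fintype.card_fin, Fintype.card_fun, Fintype.card_fin, Fintype.card_fin]
    push_cast
    exact le_rfl
  have hLile : Li ≤ CL * ℓ := by
    have h1 : Li ≤ Real.log 5 + n * Real.log (2 * M) := by
      have h2 : (2 * (M : ℝ)) ^ n * 4 + 1 ≤ 5 * (2 * (M : ℝ)) ^ n := by linarith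
      refine (Real.log_le_log (by positivity) h2).trans (le_of_eq ?_)
      rw [Real.log_mul (by norm_num) (by positivity), Real.log_pow]
    have h3 : Real.log (2 * M) ≤ (2 * lL + 1 + CK) * ℓ := by
      have h4 : 2 * (M : ℝ) ≤ 32 * LL n * (R * 2 ^ K) := by linarith
      refine (Real.log_le_log (by linarith) h4).trans ?_
      rw [Real.log_mul (by positivity) (by positivity), Real.log_mul hR0.ne' (by positivity),
        Real.log_pow, ← hlL, ← hℓd]
      have h5 : (K : ℝ) * Real.log 2 ≤ K := mul_le_of_le_one_right hK0 (by linarith)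
      have h6 := dbl lL ℓ hlL0 hℓ
      linarith
    have h7 := mul_le_mul_of_nonneg_left h3 (Nat.cast_nonneg (α := ℝ) n)
    have h8 := dbl (Real.log 5) ℓ hl5 hℓ
    rw [hCL]
    linarith
  -- the other parameters
  set Lg : ℝ := 1 + Real.log (4 * m + 1) + B * ℓ with hLg
  have hl4m : 0 ≤ Real.log (4 * m + 1) := Real.log_nonneg (by linarith)
  have hBℓ' : 0 ≤ B * ℓ := by positivity
  have hLg1 : 1 ≤ Lg := by linarith
  have hLgle : Lg ≤ CG * ℓ := by
    have h1 : Real.log (4 * m + 1) ≤ Real.log (4 * Vd + 1) + d * ℓ := by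
      have h2 : 4 * m + 1 ≤ (4 * Vd + 1) * R ^ d := by
        have e1 : (4 * Vd + 1) * R ^ d = 4 * (Vd * R ^ d) + R ^ d := by ring
        rw [e1]
        linarith
      refine (Real.log_le_log (by linarith) h2).trans (le_of_eq ?_)
      rw [Real.log_mul (by positivity) (by positivity), Real.log_rpow hR0]
    have h3 := dbl (Real.log (4 * Vd + 1)) ℓ hl4 hℓ
    rw [hCG]
    linarith
  have hexc : 4 * m * Real.exp (-Lg) ≤ κ := by
    have e1 : Real.exp (-Lg) = Real.exp (-1) * (4 * m + 1)⁻¹ * R ^ (-B) := by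
      rw [hLg, neg_add, neg_add, Real.exp_add, Real.exp_add, Real.exp_neg (Real.log _),
        Real.exp_log (by linarith), Real.rpow_def_of_pos hR0]
      congr 2
      ring
    rw [e1]
    refine le_trans ?_ hκB
    have hκ' : 0 < R ^ (-B) := Real.rpow_pos_of_pos hR0 _
    have h1 : Real.exp (-1) ≤ 1 := Real.exp_le_one_iff.2 (by norm_num)
    have h2 : 4 * m * (4 * m + 1)⁻¹ ≤ 1 := by
      rw [← div_eq_mul_inv, div_le_one (by linarith)]
      linarith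
    calc 4 * m * (Real.exp (-1) * (4 * m + 1)⁻¹ * R ^ (-B))
        = Real.exp (-1) * (4 * m * (4 * m + 1)⁻¹) * R ^ (-B) := by ring
      _ ≤ 1 * R ^ (-B) := by
          refine mul_le_mul_of_nonneg_right ?_ hκ'.le
          exact mul_le_one₀ h1 (by positivity) h2
      _ = R ^ (-B) := one_mul _
  set a : ℝ := A * ℓ + 2 * K with ha
  have ha0 : 0 ≤ a := by positivity
  have hale : a ≤ (A + 2 * CK) * ℓ := by rw [ha]; linarith
  have hgc := goodT_count (volume.restrict (un θ J)) J hJne k hkJ θ hθ hdisj (by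
      rw [Measure.restrict_apply hΩm.compl]
      simp) κ hκ (fun i hi => by
        refine le_trans ?_ (hθκ i hi)
        exact ENNReal.toReal_mono
          ((measure_mono (hsub i hi)).trans_lt measure_ball_lt_top).ne
          (Measure.restrict_apply_le _ _))
      (Ab n R M) (Ab_meas R M) Lg Li a hcard K
  have hbad : 2 * (K : ℝ) * Real.exp (-a) ≤ R ^ (-A) := by
    have h1 : 2 * (K : ℝ) ≤ Real.exp (2 * K) := by
      have := Real.add_one_le_exp (2 * (K : ℝ))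
      linarith
    calc 2 * (K : ℝ) * Real.exp (-a) ≤ Real.exp (2 * K) * Real.exp (-a) :=
          mul_le_mul_of_nonneg_right h1 (Real.exp_pos _).le
      _ = R ^ (-A) := by
          rw [← Real.exp_add, Real.rpow_def_of_pos hR0, ha, hℓd]
          congr 1
          ring
  refine le_trans ?_ (hgc.trans (mul_le_mul_of_nonneg_right hbad (Nat.cast_nonneg _)))
  refine Nat.cast_le.2 (Finset.card_le_card ?_)
  intro I hI
  rw [Finset.mem_filter] at hI ⊢
  refine ⟨hI.1, fun hgood => hI.2 ?_⟩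
  have hIJ := (Finset.mem_powersetCard.1 hI.1).1
  have hcmp := cmp_of_good R hR0 J k hkJ θ hθ hΩsub κ hκ M hMn K hMK Lg Li a hLg1 hLi0 ha0 hexc hKm
    I hIJ hgood
  set Q : ℝ := 17412 * Lg * Li + a + 3 with hQ
  have hQ0 : 0 ≤ Q := by positivity
  have hQle : Q ≤ CQ * ℓ ^ 2 := by
    have h1 : Lg * Li ≤ (CG * ℓ) * (CL * ℓ) := mul_le_mul hLgle hLile hLi0 (by positivity)
    have h2 : a ≤ 2 * (A + 2 * CK) * ℓ ^ 2 := by
      have h3 := (sq1 ℓ hℓ).2.1
      calc a ≤ (A + 2 * CK) * ℓ := hale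
        _ ≤ (A + 2 * CK) * (2 * ℓ ^ 2) := mul_le_mul_of_nonneg_left h3 (by positivity)
        _ = _ := by ring
    have h4 := (sq1 ℓ hℓ).1
    have e1 : CQ * ℓ ^ 2 = 17412 * ((CG * ℓ) * (CL * ℓ)) + 2 * (A + 2 * CK) * ℓ ^ 2 +
      12 * ℓ ^ 2 := by rw [hCQ]; ring
    rw [hQ, e1]
    linarith
  have hV2 : 0 ≤ V0 n ^ 2 := by positivity
  have hD1 : 2 * (Q * V0 n ^ 2) ≤ (16 + 2 * CQ * V0 n ^ 2 + V0 n * e) * ℓ ^ 2 := by
    have h1 := mul_le_mul_of_nonneg_right hQle hV2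
    have h2 : 0 ≤ (16 + V0 n * e) * ℓ ^ 2 := by positivity
    have e1 : (16 + 2 * CQ * V0 n ^ 2 + V0 n * e) * ℓ ^ 2 = 2 * (CQ * ℓ ^ 2 * V0 n ^ 2) +
      (16 + V0 n * e) * ℓ ^ 2 := by ring
    rw [e1]
    linarith
  have hE1 : 2 * (K * Q) + 1 ≤ e * ℓ ^ 3 := by
    have h1 : (K : ℝ) * Q ≤ (CK * ℓ) * (CQ * ℓ ^ 2) := mul_le_mul hK2 hQle hQ0 (by positivity)
    have h2 := (sq1 ℓ hℓ).2.2
    have e1 : e * ℓ ^ 3 = 2 * ((CK * ℓ) * (CQ * ℓ ^ 2)) + 8 * ℓ ^ 3 := by rw [he]; ring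
    rw [e1]
    linarith
  refine gd_of_cmp (V0 n) _ _ _ κ _ _ R B hv (by positivity) hκ.le hR _ _ hcmp hl₀ ?_ hD1
    (by positivity) e he1 hE1 ?_
  · have h1 : 0 ≤ 2 * CQ * V0 n ^ 2 := by positivity
    have h2 : 0 ≤ V0 n * e := by positivity
    linarith
  · have h1 : 0 ≤ 2 * CQ * V0 n ^ 2 := by positivity
    linarith

end Pool.Agent.P8H75.RP
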