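import Pool.Agent.P8H75.RP.Main

set_option autoImplicit false
set_option linter.unusedSectionVars false

/-!
# The unit cubes of a window
-/

namespace Pool.Agent.P8H75.RP

open MeasureTheory Set Pool.Agent.N248.RC
open scoped ENNReal

variable {d : ℕ}

/-- the unit cubes which tile the window -/
def bx (R : ℕ) (j : Fin d → Fin (2 * R)) : Set (EuclideanSpace ℝ (Fin d)) :=
  {x | ∀ i, ((j i : ℕ) : ℝ) ≤ x i + R ∧ x i + R < (j i : ℕ) + 1}

/-- the window -/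
def wn (d R : ℕ) : Set (EuclideanSpace ℝ (Fin d)) := {x | ∀ i, -(R : ℝ) ≤ x i ∧ x i < R}

theorem bx_meas (R : ℕ) (j : Fin d → Fin (2 * R)) : MeasurableSet (bx R j) := by
  have : bx R j = ⋂ i, {x : EuclideanSpace ℝ (Fin d) |
      ((j i : ℕ) : ℝ) ≤ x i + R ∧ x i + R < (j i : ℕ) + 1} := by
    ext x; simp [bx]
  rw [this]
  refine MeasurableSet.iInter fun i => ?_
  have hm : Measurable fun x : EuclideanSpace ℝ (Fin d) => x i + R := by fun_prop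
  exact (measurableSet_le measurable_const hm).inter (measurableSet_lt hm measurable_const)

theorem bx_vol (R : ℕ) (j : Fin d → Fin (2 * R)) : volume (bx R j) = 1 := by
  have h := (PiLp.volume_preserving_ofLp (Fin d)).measure_preimage
    (s := Set.univ.pi fun i => Ico (((j i : ℕ) : ℝ) - R) (((j i : ℕ) + 1 : ℝ) - R))
    (MeasurableSet.univ_pi fun i => measurableSet_Ico).nullMeasurableSet
  have h2 : WithLp.ofLp ⁻¹' (Set.univ.pi fun i => Ico (((j i : ℕ) : ℝ) - R)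
      (((j i : ℕ) + 1 : ℝ) - R)) = bx R j := by
    ext x
    simp only [bx, mem_preimage, Set.mem_pi, mem_univ, true_implies, mem_Ico, mem_ofPred_eq]
    refine forall_congr' fun i => ?_
    rw [sub_le_iff_le_add, lt_sub_iff_add_lt]
  rw [h2] at h
  rw [h, volume_pi_pi]
  simp only [Real.volume_Ico]
  have : ∀ i : Fin d, ENNReal.ofReal (((j i : ℕ) + 1 : ℝ) - R - (((j i : ℕ) : ℝ) - R)) = 1 := by
    intro i
    rw [show ((j i : ℕ) + 1 : ℝ) - R - (((j i : ℕ) : ℝ) - R) = 1 by ring, ENNReal.ofReal_one]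
  simp_rw [this]
  simp

theorem bx_disj (R : ℕ) (j k : Fin d → Fin (2 * R)) (hjk : j ≠ k) : Disjoint (bx R j) (bx R k) := by
  rw [Set.disjoint_left]
  intro x hj hk
  apply hjk
  ext i
  obtain ⟨h1, h2⟩ := hj i
  obtain ⟨h3, h4⟩ := hk i
  have h5 : ((j i : ℕ) : ℝ) < (k i : ℕ) + 1 := by linarith
  have h6 : ((k i : ℕ) : ℝ) < (j i : ℕ) + 1 := by linarith
  have h7 : (j i : ℕ) < (k i : ℕ) + 1 := by exact_mod_cast h5
  have h8 : (k i : ℕ) < (j i : ℕ) + 1 := by exact_mod_cast h6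
  omega

theorem bx_un (R : ℕ) : un (bx (d := d) R) Finset.univ = wn d R := by
  ext x
  unfold un
  simp only [Finset.mem_univ, iUnion_true, mem_iUnion]
  constructor
  · rintro ⟨j, hj⟩ i
    obtain ⟨h1, h2⟩ := hj i
    have h3 : (0 : ℝ) ≤ (j i : ℕ) := Nat.cast_nonneg _
    have h4 : ((j i : ℕ) : ℝ) + 1 ≤ 2 * R := by
      have := (j i).2
      exact_mod_cast this
    constructor <;> linarith
  · intro hx
    have h2 : ∀ i, 0 ≤ x i + R ∧ x i + R < 2 * R := by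
      intro i
      obtain ⟨h3, h4⟩ := hx i
      constructor <;> linarith
    refine ⟨fun i => ⟨⌊x i + R⌋₊, ?_⟩, fun i => ?_⟩
    · rw [Nat.floor_lt (h2 i).1]
      push_cast
      exact (h2 i).2
    · exact ⟨Nat.floor_le (h2 i).1, Nat.lt_floor_add_one _⟩

theorem wn_sub (R : ℕ) (hR : 1 ≤ R) : wn d R ⊆ Metric.ball 0 (((d : ℝ) + 1) * R) := by
  have hR0 : (1 : ℝ) ≤ R := by exact_mod_cast hR
  intro x hx
  rw [mem_ball_zero_iff, EuclideanSpace.norm_eq]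
  have h1 : ∑ i, ‖x i‖ ^ 2 ≤ (d : ℝ) * (R : ℝ) ^ 2 := by
    have h2 : ∑ i, ‖x i‖ ^ 2 ≤ ∑ _i : Fin d, (R : ℝ) ^ 2 := by
      refine Finset.sum_le_sum fun i _ => ?_
      obtain ⟨h3, h4⟩ := hx i
      rw [Real.norm_eq_abs]
      exact pow_le_pow_left₀ (abs_nonneg _) (abs_le.2 ⟨h3, h4.le⟩) 2
    rwa [Finset.sum_const, Finset.card_univ, Fintype.card_fin, nsmul_eq_mul] at h2
  have hd : (0 : ℝ) ≤ d := Nat.cast_nonneg d
  rw [Real.sqrt_lt' (by positivity)]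
  refine h1.trans_lt ?_
  have : (d : ℝ) < ((d : ℝ) + 1) ^ 2 := by nlinarith
  rw [mul_pow]
  exact mul_lt_mul_of_pos_right this (by positivity)

theorem card_bx (R : ℕ) : (Finset.univ : Finset (Fin d → Fin (2 * R))).card = (2 * R) ^ d := by
  rw [Finset.card_univ, Fintype.card_fun, Fintype.card_fin, Fintype.card_fin]

/-- the powers of the norms of the extension operator -/
noncomputable def opP {n : ℕ} (p : ℝ) (S : Set (EuclideanSpace ℝ (Fin (n + 1)))) : ℝ≥0∞ :=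
  ⨆ (f : EuclideanSpace ℝ (Fin n) → ℂ) (_ : Measurable f ∧ ∀ ξ, ‖f ξ‖ ≤ 1),
    ∫⁻ x in S, ‖Eo (mc n) (ker (Pa n)) f x‖ₑ ^ p

variable {n : ℕ}

theorem F_meas (f : EuclideanSpace ℝ (Fin n) → ℂ) (hf : Measurable f) :
    Measurable (Eo (mc n) (ker (Pa n)) f) :=
  Eo_meas (mc n) (ker (Pa n)) (ker_meas (Pa n) Pa_meas) f hf

theorem F_bound (f : EuclideanSpace ℝ (Fin n) → ℂ) (hf1 : ∀ ξ, ‖f ξ‖ ≤ 1)
    (x : EuclideanSpace ℝ (Fin (n + 1))) :
    ‖Eo (mc n) (ker (Pa n)) f x‖ ≤ (mc n).real Set.univ :=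
  Eo_bound (mc n) (ker (Pa n)) (ker_norm (Pa n)) Set.univ MeasurableSet.univ f hf1
    (fun y hy => absurd (Set.mem_univ y) hy) x

theorem F_int (f : EuclideanSpace ℝ (Fin n) → ℂ) (hf : Measurable f) (hf1 : ∀ ξ, ‖f ξ‖ ≤ 1)
    (p : ℝ) (hp : 0 ≤ p) (S : Set (EuclideanSpace ℝ (Fin (n + 1)))) (hS : volume S ≠ ⊤) :
    Integrable (fun x => ‖Eo (mc n) (ker (Pa n)) f x‖ ^ p) (volume.restrict S) := by
  haveI : IsFiniteMeasure (volume.restrict S) :=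
    ⟨by rw [Measure.restrict_apply_univ]; exact hS.lt_top⟩
  refine Integrable.of_bound ((F_meas f hf).norm.pow_const p).aestronglyMeasurable
    ((mc n).real Set.univ ^ p) (Filter.Eventually.of_forall fun x => ?_)
  rw [Real.norm_of_nonneg (by positivity)]
  exact Real.rpow_le_rpow (norm_nonneg _) (F_bound f hf1 x) hp

theorem li_eq (f : EuclideanSpace ℝ (Fin n) → ℂ) (hf : Measurable f) (hf1 : ∀ ξ, ‖f ξ‖ ≤ 1)
    (p : ℝ) (hp : 0 ≤ p) (S : Set (EuclideanSpace ℝ (Fin (n + 1)))) (hS : volume S ≠ ⊤) :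
    ∫⁻ x in S, ‖Eo (mc n) (ker (Pa n)) f x‖ₑ ^ p =
      ENNReal.ofReal (∫ x in S, ‖Eo (mc n) (ker (Pa n)) f x‖ ^ p) := by
  rw [ofReal_integral_eq_lintegral_ofReal (F_int f hf hf1 p hp S hS)
    (Filter.Eventually.of_forall fun x => by positivity)]
  refine lintegral_congr fun x => ?_
  rw [← ofReal_norm_eq_enorm, ENNReal.ofReal_rpow_of_nonneg (norm_nonneg _) hp]

theorem le_opP (p : ℝ) (S : Set (EuclideanSpace ℝ (Fin (n + 1))))
    (f : EuclideanSpace ℝ (Fin n) → ℂ) (hf : Measurable f) (hf1 : ∀ ξ, ‖f ξ‖ ≤ 1) :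
    ∫⁻ x in S, ‖Eo (mc n) (ker (Pa n)) f x‖ₑ ^ p ≤ opP p S :=
  le_iSup₂ (f := fun (f : EuclideanSpace ℝ (Fin n) → ℂ) (_ : Measurable f ∧ ∀ ξ, ‖f ξ‖ ≤ 1) =>
    ∫⁻ x in S, ‖Eo (mc n) (ker (Pa n)) f x‖ₑ ^ p) f ⟨hf, hf1⟩

/-- the comparison of the norms -/
theorem opP_of_gd (C R κ τ B : ℝ) (hC : 0 ≤ C) (hτ : 0 ≤ τ) (hκ : 0 ≤ κ) (hR : 2 ≤ R)
    (S Ω : Set (EuclideanSpace ℝ (Fin (n + 1)))) (hS : volume S ≠ ⊤) (hΩ : volume Ω ≠ ⊤)
    (h : Gd n C R κ τ B S Ω) (p : ℝ) (hp : 2 ≤ p) :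
    opP p S ≤ ENNReal.ofReal (C ^ p) * (ENNReal.ofReal τ * opP p Ω +
        ENNReal.ofReal (κ * Real.log R ^ 3)) ∧
      ENNReal.ofReal τ * opP p Ω ≤ ENNReal.ofReal (C ^ p) * (opP p S +
        ENNReal.ofReal (κ * Real.log R ^ 3)) := by
  have hℓ := log_half R hR
  have hp0 : 0 ≤ p := by linarith
  have hCp : 0 ≤ C ^ p := by positivity
  have hκℓ : 0 ≤ κ * Real.log R ^ 3 := by positivity
  constructor
  · refine iSup₂_le fun f hf => ?_
    obtain ⟨-, h2⟩ := h f hf.1 hf.2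
    have h3 := (h2 p hp).1
    rw [li_eq f hf.1 hf.2 p hp0 S hS]
    have i2 : 0 ≤ ∫ x in Ω, ‖Eo (mc n) (ker (Pa n)) f x‖ ^ p :=
      integral_nonneg fun x => by positivity
    refine (ENNReal.ofReal_le_ofReal h3).trans ?_
    rw [ENNReal.ofReal_mul hCp, ENNReal.ofReal_add (by positivity) hκℓ, ENNReal.ofReal_mul hτ,
      ← li_eq f hf.1 hf.2 p hp0 Ω hΩ]
    gcongr
    exact le_opP p Ω f hf.1 hf.2
  · unfold opP
    rw [ENNReal.mul_iSup]
    refine iSup_le fun f => ?_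
    rw [ENNReal.mul_iSup]
    refine iSup_le fun hf => ?_
    obtain ⟨-, h2⟩ := h f hf.1 hf.2
    have h3 := (h2 p hp).2
    rw [li_eq f hf.1 hf.2 p hp0 Ω hΩ, ← ENNReal.ofReal_mul hτ]
    have i2 : 0 ≤ ∫ x in S, ‖Eo (mc n) (ker (Pa n)) f x‖ ^ p :=
      integral_nonneg fun x => by positivity
    refine (ENNReal.ofReal_le_ofReal h3).trans ?_
    rw [ENNReal.ofReal_mul hCp, ENNReal.ofReal_add i2 hκℓ, ← li_eq f hf.1 hf.2 p hp0 S hS]
    gcongr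
    exact le_opP p S f hf.1 hf.2

theorem phase_diff (x y : EuclideanSpace ℝ (Fin (n + 1))) :
    ‖Eo (mc n) (ker (Pa n)) (fun ξ => (starRingEnd ℂ) (ker (Pa n) y ξ)) x‖ =
      ‖∫ ξ, Pool.Agent.N248.RR.ex (inner ℝ (Pa n ξ) (x - y)) ∂(mc n)‖ := by
  unfold Eo ker
  congr 1
  refine integral_congr_ae (Filter.Eventually.of_forall fun ξ => ?_)
  simp only
  rw [Pool.Agent.N248.RR.ex_conj, ← Pool.Agent.N248.RR.ex_add, inner_sub_right]
  congr 1
  ring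

end Pool.Agent.P8H75.RP
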