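import Pool.Agent.N248.RC.Cnt

set_option autoImplicit false

/-!
# Random subsets of fixed size: the lower tail of a weighted count
-/

namespace Pool.Agent.P8H75.RP

open Finset Pool.Agent.N248.RC

variable {α : Type*} [DecidableEq α]

theorem compl_sum (J : Finset α) (k : ℕ) (hk : k ≤ J.card) (F : Finset α → ℝ) :
    ∑ I ∈ powersetCard k J, F (J \ I) = ∑ I ∈ powersetCard (J.card - k) J, F I := by
  refine sum_nbij' (fun I => J \ I) (fun I => J \ I) ?_ ?_ ?_ ?_ ?_
  · intro I hI
    rw [mem_powersetCard] at hI ⊢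
    exact ⟨sdiff_subset, by rw [card_sdiff_of_subset hI.1, hI.2]⟩
  · intro I hI
    rw [mem_powersetCard] at hI ⊢
    refine ⟨sdiff_subset, ?_⟩
    rw [card_sdiff_of_subset hI.1, hI.2]
    omega
  · intro I hI
    rw [mem_powersetCard] at hI
    exact Finset.sdiff_sdiff_eq_self hI.1
  · intro I hI
    rw [mem_powersetCard] at hI
    exact Finset.sdiff_sdiff_eq_self hI.1
  · intro I _
    rfl

/-- the exponential moment of minus a weighted count -/
theorem mgf_low (J : Finset α) (hJ : J.Nonempty) (k : ℕ) (hk : k ≤ J.card) (w : α → ℝ)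
    (h0 : ∀ i ∈ J, 0 ≤ w i) :
    ∑ I ∈ powersetCard k J, Real.exp (-∑ i ∈ I, w i) ≤
      ((J.card.choose k : ℕ) : ℝ) * ∏ i ∈ J, (1 - (k : ℝ) / J.card * (1 - Real.exp (-w i))) := by
  have hN : (0 : ℝ) < J.card := by exact_mod_cast hJ.card_pos
  have e1 : ∀ I ∈ powersetCard k J, Real.exp (-∑ i ∈ I, w i) =
      Real.exp (-∑ i ∈ J, w i) * ∏ i ∈ J \ I, (1 + (Real.exp (w i) - 1)) := by
    intro I hI
    have hI1 := (mem_powersetCard.1 hI).1
    have e2 : ∏ i ∈ J \ I, (1 + (Real.exp (w i) - 1)) = Real.exp (∑ i ∈ J \ I, w i) := by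
      rw [Real.exp_sum]
      exact prod_congr rfl fun i _ => by ring
    rw [e2, ← Real.exp_add]
    congr 1
    rw [← sum_sdiff hI1]
    ring
  rw [sum_congr rfl e1, ← mul_sum,
    compl_sum J k hk (fun I => ∏ i ∈ I, (1 + (Real.exp (w i) - 1)))]
  have h1 := mgf J hJ (J.card - k) (fun i => Real.exp (w i) - 1)
    (fun i hi => by have := Real.add_one_le_exp (w i); have := h0 i hi; linarith)
  have hch : (J.card.choose (J.card - k) : ℕ) = J.card.choose k := Nat.choose_symm hk
  rw [hch] at h1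
  refine (mul_le_mul_of_nonneg_left h1 (Real.exp_pos _).le).trans (le_of_eq ?_)
  rw [← mul_assoc, mul_comm (Real.exp _), mul_assoc]
  congr 1
  rw [← sum_neg_distrib, Real.exp_sum, ← prod_mul_distrib]
  refine prod_congr rfl fun i _ => ?_
  have hexp : Real.exp (-w i) * Real.exp (w i) = 1 := by rw [← Real.exp_add]; simp
  have hc : ((J.card - k : ℕ) : ℝ) / J.card = 1 - (k : ℝ) / J.card := by
    rw [Nat.cast_sub hk]
    field_simp
  rw [hc]
  calc Real.exp (-w i) * (1 + (1 - (k : ℝ) / J.card) * (Real.exp (w i) - 1)) =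
        Real.exp (-w i) + (1 - (k : ℝ) / J.card) *
          (Real.exp (-w i) * Real.exp (w i) - Real.exp (-w i)) := by ring
    _ = _ := by rw [hexp]; ring

/-- few sets carry much less than the expected weight -/
theorem tail_low (J : Finset α) (hJ : J.Nonempty) (k : ℕ) (hk : k ≤ J.card) (w : α → ℝ)
    (h0 : ∀ i ∈ J, 0 ≤ w i) (h1 : ∀ i ∈ J, w i ≤ 1) (t : ℝ) :
    (((powersetCard k J).filter (fun I => ∑ i ∈ I, w i + t <
      1 / 2 * ((k : ℝ) / J.card) * ∑ i ∈ J, w i)).card : ℝ) ≤
        Real.exp (-t) * ((J.card.choose k : ℕ) : ℝ) := by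
  have hN : (0 : ℝ) < J.card := by exact_mod_cast hJ.card_pos
  have hkN : (k : ℝ) / J.card ≤ 1 := by
    rw [div_le_one hN]
    exact_mod_cast hk
  have hk0 : 0 ≤ (k : ℝ) / J.card := by positivity
  set m : ℝ := 1 / 2 * ((k : ℝ) / J.card) * ∑ i ∈ J, w i with hm
  have hexp : ∀ i ∈ J, w i / 2 ≤ 1 - Real.exp (-w i) := by
    intro i hi
    have hc := convexOn_exp.2 (Set.mem_univ (0 : ℝ)) (Set.mem_univ (-1 : ℝ))
      (show 0 ≤ 1 - w i by linarith [h1 i hi]) (h0 i hi) (by ring)
    simp only [smul_eq_mul, mul_zero, zero_add, Real.exp_zero, mul_neg, mul_one] at hc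
    have he : Real.exp (-1) ≤ 1 / 2 := by
      have h2 := Real.exp_one_gt_d9
      rw [Real.exp_neg, inv_le_comm₀ (Real.exp_pos 1) (by norm_num)]
      norm_num
      linarith
    have := h0 i hi
    nlinarith
  have hprod : ∏ i ∈ J, (1 - (k : ℝ) / J.card * (1 - Real.exp (-w i))) ≤ Real.exp (-m) := by
    have e : -m = ∑ i ∈ J, -((k : ℝ) / J.card * (w i / 2)) := by
      rw [hm, sum_neg_distrib, mul_sum]
      congr 1
      exact sum_congr rfl fun i _ => by ring
    rw [e, Real.exp_sum]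
    refine prod_le_prod (fun i hi => ?_) fun i hi => ?_
    · have h2 : 0 < Real.exp (-w i) := Real.exp_pos _
      have h3 : (k : ℝ) / J.card * (1 - Real.exp (-w i)) ≤ 1 * 1 := by
        refine mul_le_mul hkN (by linarith) ?_ (by norm_num)
        have := hexp i hi
        have := h0 i hi
        linarith
      linarith
    · have h2 := Real.add_one_le_exp (-((k : ℝ) / J.card * (w i / 2)))
      have h3 := mul_le_mul_of_nonneg_left (hexp i hi) hk0
      linarith
  have h2 : ∑ I ∈ powersetCard k J, Real.exp (-∑ i ∈ I, w i) ≤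
      ((J.card.choose k : ℕ) : ℝ) * Real.exp (-m) :=
    (mgf_low J hJ k hk w h0).trans (mul_le_mul_of_nonneg_left hprod (Nat.cast_nonneg _))
  have h3 : (((powersetCard k J).filter (fun I => ∑ i ∈ I, w i + t < m)).card : ℝ) *
      Real.exp (t - m) ≤ ∑ I ∈ powersetCard k J, Real.exp (-∑ i ∈ I, w i) := by
    rw [← nsmul_eq_mul, ← sum_const]
    refine le_trans (sum_le_sum fun I hI => ?_)
      (sum_le_sum_of_subset_of_nonneg (filter_subset (fun I => ∑ i ∈ I, w i + t < m) _)
        fun _ _ _ => (Real.exp_pos _).le)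
    have := (mem_filter.1 hI).2
    exact Real.exp_le_exp.2 (by linarith)
  have h4 := h3.trans h2
  have h6 := mul_le_mul_of_nonneg_right h4 (Real.exp_pos (m - t)).le
  rw [mul_assoc, ← Real.exp_add, mul_assoc, ← Real.exp_add] at h6
  have e1 : t - m + (m - t) = 0 := by ring
  have e2 : -m + (m - t) = -t := by ring
  rw [e1, e2, Real.exp_zero, mul_one] at h6
  linarith

end Pool.Agent.P8H75.RP
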