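import Pool.Agent.P8H75.RP.Sum
import Pool.Agent.N248.RC.Par

set_option autoImplicit false
set_option linter.unusedSectionVars false

/-!
# Extension operators in a ball as short averages
-/

namespace Pool.Agent.P8H75.RP

open MeasureTheory Set Pool.Agent.N248.RC
open Pool.Agent.N248.RR (ex ex_norm ex_cont ex_sub_one ex_add cub cub_meas)
open scoped RealInnerProductSpace ENNReal

variable {n : ℕ}

/-- the kernel, cut off outside the ball -/
noncomputable def kr (n : ℕ) (R : ℝ) (ξ : EuclideanSpace ℝ (Fin n))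
    (y : EuclideanSpace ℝ (Fin (n + 1))) : ℂ :=
  (Metric.ball (0 : EuclideanSpace ℝ (Fin (n + 1))) R).indicator (fun y => ker (Pa n) y ξ) y

theorem kr_meas (R : ℝ) : Measurable (Function.uncurry (kr n R)) := by
  have h1 : Measurable fun q : EuclideanSpace ℝ (Fin n) × EuclideanSpace ℝ (Fin (n + 1)) =>
      ker (Pa n) q.2 q.1 := by
    unfold ker
    exact ex_cont.measurable.comp ((Pa_meas.comp measurable_fst).inner measurable_snd)
  have e : Function.uncurry (kr n R) =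
      (Prod.snd ⁻¹' (Metric.ball (0 : EuclideanSpace ℝ (Fin (n + 1))) R)).indicator
        (fun q : EuclideanSpace ℝ (Fin n) × EuclideanSpace ℝ (Fin (n + 1)) =>
          ker (Pa n) q.2 q.1) := by
    ext q
    unfold Function.uncurry kr
    by_cases h : q.2 ∈ Metric.ball (0 : EuclideanSpace ℝ (Fin (n + 1))) R
    · rw [indicator_of_mem h, indicator_of_mem (by exact h)]
    · rw [indicator_of_notMem h, indicator_of_notMem (by exact h)]
  rw [e]
  exact h1.indicator (measurable_snd Metric.isOpen_ball.measurableSet)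

theorem kr_norm (R : ℝ) (ξ : EuclideanSpace ℝ (Fin n)) (y : EuclideanSpace ℝ (Fin (n + 1))) :
    ‖kr n R ξ y‖ ≤ 1 := by
  unfold kr
  by_cases h : y ∈ Metric.ball (0 : EuclideanSpace ℝ (Fin (n + 1))) R
  · rw [indicator_of_mem h]; exact ker_norm _ _ _
  · rw [indicator_of_notMem h]; simp

theorem kr_close (R : ℝ) (hR : 0 ≤ R) (ξ η : EuclideanSpace ℝ (Fin n))
    (y : EuclideanSpace ℝ (Fin (n + 1))) :
    ‖kr n R ξ y - kr n R η y‖ ≤ ‖Pa n ξ - Pa n η‖ * R := by
  unfold kr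
  by_cases h : y ∈ Metric.ball (0 : EuclideanSpace ℝ (Fin (n + 1))) R
  · rw [indicator_of_mem h, indicator_of_mem h]
    unfold ker
    have e : ex ⟪Pa n ξ, y⟫ - ex ⟪Pa n η, y⟫ = ex ⟪Pa n η, y⟫ * (ex ⟪Pa n ξ - Pa n η, y⟫ - 1) := by
      rw [mul_sub, ← ex_add, inner_sub_left, mul_one]
      congr 2
      ring
    rw [e, norm_mul, ex_norm, one_mul]
    refine (ex_sub_one _).trans ((abs_real_inner_le_norm _ _).trans ?_)
    exact mul_le_mul_of_nonneg_left (mem_ball_zero_iff.1 h).le (norm_nonneg _)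
  · rw [indicator_of_notMem h, indicator_of_notMem h, sub_self, norm_zero]
    positivity

/-- the corner of a cell -/
noncomputable def cor (M : ℕ) (b : Fin n → Fin (2 * M)) : EuclideanSpace ℝ (Fin n) :=
  WithLp.toLp 2 fun i => ((b i : ℕ) : ℝ) / M - 1

theorem cor_mem (M : ℕ) (hM : 1 ≤ M) (b : Fin n → Fin (2 * M)) : cor M b ∈ cell M b := by
  have hM0 : (0 : ℝ) < M := by exact_mod_cast hM
  intro i
  have e : (M : ℝ) * (cor M b i + 1) = (b i : ℕ) := by
    simp only [cor]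
    field_simp
    ring
  rw [e]
  exact ⟨le_rfl, by linarith⟩

/-- the index of the cell of a point -/
noncomputable def ix (M : ℕ) (hM : 1 ≤ M) (ξ : EuclideanSpace ℝ (Fin n)) : Fin n → Fin (2 * M) :=
  fun i => ⟨⌊(M : ℝ) * (ξ i + 1)⌋₊ % (2 * M), Nat.mod_lt _ (by omega)⟩

theorem ix_meas (M : ℕ) (hM : 1 ≤ M) : Measurable (ix (n := n) M hM) := by
  unfold ix
  refine measurable_pi_lambda _ fun i => ?_
  have h1 : Measurable fun ξ : EuclideanSpace ℝ (Fin n) => ⌊(M : ℝ) * (ξ i + 1)⌋₊ := by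
    refine Nat.measurable_floor.comp ?_
    fun_prop
  have h2 : Measurable fun z : ℕ => (⟨z % (2 * M), Nat.mod_lt _ (by omega)⟩ : Fin (2 * M)) :=
    Measurable.of_discrete
  exact h2.comp h1

theorem ix_cell (M : ℕ) (hM : 1 ≤ M) (j : Fin n → Fin (2 * M)) (ξ : EuclideanSpace ℝ (Fin n))
    (hξ : ξ ∈ cell M j) : ix M hM ξ = j := by
  ext i
  obtain ⟨h1, h2⟩ := hξ i
  have h3 : ⌊(M : ℝ) * (ξ i + 1)⌋₊ = (j i : ℕ) := by
    rw [Nat.floor_eq_iff ((Nat.cast_nonneg _).trans h1)]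
    exact ⟨h1, h2⟩
  simp only [ix, h3]
  exact Nat.mod_eq_of_lt (j i).2

/-- the Lipschitz constant -/
noncomputable def LL (n : ℕ) : ℝ := 2 * Real.pi * (2 * (n + 1) ^ 2)

theorem LL_pos (n : ℕ) : 0 < LL n := by unfold LL; positivity

/-- the normalisation -/
noncomputable def V0 (n : ℕ) : ℝ := (mc n).real Set.univ + 1

theorem V0_pos (n : ℕ) : 1 ≤ V0 n := by
  unfold V0
  have : 0 ≤ (mc n).real Set.univ := measureReal_nonneg
  linarith

/-- the normalised function -/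
noncomputable def gg (M : ℕ) (f : EuclideanSpace ℝ (Fin n) → ℂ) : EuclideanSpace ℝ (Fin n) → ℂ :=
  (un (cell (n := n) M) Finset.univ).indicator fun ξ => f ξ / (V0 n : ℂ)

theorem un_meas (M : ℕ) : MeasurableSet (un (cell (n := n) M) Finset.univ) :=
  Finset.measurableSet_biUnion _ fun j _ => cell_meas M j

theorem gg_meas (M : ℕ) (f : EuclideanSpace ℝ (Fin n) → ℂ) (hf : Measurable f) :
    Measurable (gg M f) := (hf.div_const _).indicator (un_meas M)

theorem gg_norm (M : ℕ) (f : EuclideanSpace ℝ (Fin n) → ℂ) (hf1 : ∀ ξ, ‖f ξ‖ ≤ 1)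
    (ξ : EuclideanSpace ℝ (Fin n)) : ‖gg M f ξ‖ ≤ 1 / V0 n := by
  have h0 := V0_pos n
  unfold gg
  by_cases h : ξ ∈ un (cell (n := n) M) Finset.univ
  · rw [indicator_of_mem h, norm_div, Complex.norm_real, Real.norm_of_nonneg (by linarith)]
    exact div_le_div_of_nonneg_right (hf1 ξ) (by linarith)
  · rw [indicator_of_notMem h, norm_zero]
    positivity

theorem gg_int (M : ℕ) (f : EuclideanSpace ℝ (Fin n) → ℂ) (hf : Measurable f)
    (hf1 : ∀ ξ, ‖f ξ‖ ≤ 1) : Integrable (gg M f) (mc n) :=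
  Integrable.of_bound (gg_meas M f hf).aestronglyMeasurable _
    (Filter.Eventually.of_forall (gg_norm M f hf1))

theorem gg_one (M : ℕ) (f : EuclideanSpace ℝ (Fin n) → ℂ)
    (hf1 : ∀ ξ, ‖f ξ‖ ≤ 1) : ∫ ξ, ‖gg M f ξ‖ ∂(mc n) ≤ 1 := by
  have h0 := V0_pos n
  refine (integral_mono_of_nonneg (Filter.Eventually.of_forall fun ξ => norm_nonneg _)
    (integrable_const (1 / V0 n)) (Filter.Eventually.of_forall (gg_norm M f hf1))).trans ?_
  rw [integral_const, smul_eq_mul, mul_one_div, div_le_one (by linarith)]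
  unfold V0
  linarith

/-- the extension operator in the ball is the transform -/
theorem gg_eq (M : ℕ) (hM : 1 ≤ M) (R : ℝ) (f : EuclideanSpace ℝ (Fin n) → ℂ)
    (y : EuclideanSpace ℝ (Fin (n + 1)))
    (hy : y ∈ Metric.ball (0 : EuclideanSpace ℝ (Fin (n + 1))) R) :
    ‖Eo (mc n) (ker (Pa n)) f y‖ = V0 n * ‖tr (mc n) (kr n R) (gg M f) y‖ := by
  have h0 := V0_pos n
  have hV : (V0 n : ℂ) ≠ 0 := by
    have : (0 : ℝ) < V0 n := by linarith
    exact_mod_cast this.ne'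
  have e : Eo (mc n) (ker (Pa n)) f y = (V0 n : ℂ) * tr (mc n) (kr n R) (gg M f) y := by
    unfold Eo tr
    rw [← integral_const_mul]
    refine integral_congr_ae ?_
    filter_upwards [cell_cover M hM] with ξ hξ
    unfold gg kr
    rw [indicator_of_mem hξ, indicator_of_mem hy]
    field_simp
  rw [e, norm_mul, Complex.norm_real, Real.norm_of_nonneg (by linarith)]

theorem tr_meas' (M : ℕ) (R : ℝ) (f : EuclideanSpace ℝ (Fin n) → ℂ) (hf : Measurable f) :
    Measurable (tr (mc n) (kr n R) (gg M f)) :=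
  tr_meas (mc n) (kr n R) (kr_meas R) (gg M f) (gg_meas M f hf)

theorem tr_le_one (M : ℕ) (R : ℝ) (f : EuclideanSpace ℝ (Fin n) → ℂ) (hf : Measurable f)
    (hf1 : ∀ ξ, ‖f ξ‖ ≤ 1) (y : EuclideanSpace ℝ (Fin (n + 1))) :
    ‖tr (mc n) (kr n R) (gg M f) y‖ ≤ 1 :=
  tr_norm (mc n) (kr n R) (kr_norm R) (gg M f) (gg_int M f hf hf1) (gg_one M f hf1) y

/-- the alphabet -/
noncomputable def Ab (n : ℕ) (R : ℝ) (M : ℕ) : Option ((Fin n → Fin (2 * M)) × Fin 4) →
    EuclideanSpace ℝ (Fin (n + 1)) → ℂ := Xa fun b y => kr n R (cor M b) y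

theorem Ab_meas (R : ℝ) (M : ℕ) (i : Option ((Fin n → Fin (2 * M)) × Fin 4)) :
    Measurable (Ab n R M i) :=
  Xa_meas _ (fun b => (kr_meas R).comp (measurable_const.prodMk measurable_id)) i

theorem Ab_norm (R : ℝ) (M : ℕ) (i : Option ((Fin n → Fin (2 * M)) × Fin 4))
    (y : EuclideanSpace ℝ (Fin (n + 1))) : ‖Ab n R M i y‖ ≤ 1 :=
  Xa_norm _ (fun b y => kr_norm R _ y) i y

theorem short (M : ℕ) (hM : 1 ≤ M) (R : ℝ) (hR : 0 ≤ R) (f : EuclideanSpace ℝ (Fin n) → ℂ)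
    (hf : Measurable f) (hf1 : ∀ ξ, ‖f ξ‖ ≤ 1) :
    ∃ w : Option ((Fin n → Fin (2 * M)) × Fin 4) → ℝ, (∀ i, 0 ≤ w i) ∧ ∑ i, w i = 1 ∧
      ∀ y, |‖tr (mc n) (kr n R) (gg M f) y‖ - Real.sqrt 2 * ‖avg w (Ab n R M) y‖| ≤
        LL n / M * R := by
  have hM0 : (0 : ℝ) < M := by exact_mod_cast hM
  refine weights (mc n) (kr n R) (kr_meas R) (kr_norm R) (fun b y => kr n R (cor M b) y)
    (fun b y => kr_norm R _ y) (ix M hM) (fun b => ix_meas M hM (measurableSet_singleton b))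
    (un (cell (n := n) M) Finset.univ) (LL n / M * R)
    (mul_nonneg (div_nonneg (LL_pos n).le hM0.le) hR) ?_ (gg M f) (gg_int M f hf hf1)
    (gg_one M f hf1) (fun ξ hξ => indicator_of_notMem hξ _)
  intro ξ hξ y
  obtain ⟨j, -, hj⟩ := mem_iUnion₂.1 hξ
  rw [ix_cell M hM j ξ hj]
  refine (kr_close R hR ξ (cor M j) y).trans ?_
  exact mul_le_mul_of_nonneg_right (cell_diam M hM j ξ _ hj (cor_mem M hM j)) hR

end Pool.Agent.P8H75.RP
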