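import Pool.Agent.P8H75.RP.Low
import Pool.Agent.N248.RC.Eqv

set_option autoImplicit false
set_option linter.unusedSectionVars false

/-!
# Random sets of unit cubes and the equivalences
-/

namespace Pool.Agent.P8H75.RP

open MeasureTheory Set Pool.Agent.N248.RC
open scoped ENNReal

variable {n : ℕ}

/-- the density -/
noncomputable def dn (n R k : ℕ) : ℝ := (k : ℝ) / (2 * R) ^ (n + 1)

/-- the good event for unions of unit cubes -/
def Gc (n : ℕ) (C : ℝ) (R k : ℕ) (S : Set (EuclideanSpace ℝ (Fin (n + 1)))) : Prop :=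
  ∀ p : ℝ, 2 ≤ p →
    opP p S ≤ ENNReal.ofReal (C ^ p) * (ENNReal.ofReal (dn n R k) * opP p (wn (n + 1) R) +
      ENNReal.ofReal (Real.log R ^ 3)) ∧
    ENNReal.ofReal (dn n R k) * opP p (wn (n + 1) R) + 1 ≤
      ENNReal.ofReal (C ^ p * Real.log R ^ 3) * opP p S

theorem wn_top (R : ℕ) (hR : 1 ≤ R) : volume (wn (n + 1) R) ≠ ⊤ :=
  ((measure_mono (wn_sub R hR)).trans_lt measure_ball_lt_top).ne

theorem un_top (R : ℕ) (I : Finset (Fin (n + 1) → Fin (2 * R))) :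
    volume (un (bx R) I) ≠ ⊤ := by
  have h : volume (un (bx R) I) ≤ ∑ i ∈ I, volume (bx R i) := measure_biUnion_finset_le I _
  simp_rw [bx_vol] at h
  refine (h.trans_lt ?_).ne
  rw [Finset.sum_const, nsmul_eq_mul, mul_one]
  exact ENNReal.natCast_lt_top _

open Classical in
theorem cubes (n : ℕ) (A : ℝ) (hA : 0 ≤ A) : ∃ C : ℝ, 1 ≤ C ∧ ∀ R k : ℕ, 2 ≤ R → 1 ≤ k →
    k ≤ (2 * R) ^ (n + 1) →
    (((Finset.powersetCard k (Finset.univ : Finset (Fin (n + 1) → Fin (2 * R)))).filter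
      (fun I => ¬ Gc n C R k (un (bx R) I))).card : ℝ) ≤
      (R : ℝ) ^ (-A) * ((((2 * R) ^ (n + 1)).choose k : ℕ) : ℝ) := by
  obtain ⟨C₀, hC₀, hmain⟩ := main n A 0 hA le_rfl
  obtain ⟨c, hc0, hc1, hlow⟩ := opP_low n
  have hn0 : (0 : ℝ) ≤ n := Nat.cast_nonneg n
  have hlg : 0 ≤ Real.log ((n : ℝ) + 2) := Real.log_nonneg (by linarith)
  set c1 : ℝ := 2 * Real.log ((n : ℝ) + 2) + 1 with hc1d
  have hc11 : 1 ≤ c1 := by linarith
  have hc13 : 1 ≤ c1 ^ 3 := one_le_pow₀ hc11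
  refine ⟨C₀ * c1 ^ 3 + (16 + c1 ^ 3) * (C₀ / c), ?_, ?_⟩
  · have h1 : 1 ≤ C₀ * c1 ^ 3 := one_le_mul_of_one_le_of_one_le hC₀ hc13
    have h2 : 0 ≤ (16 + c1 ^ 3) * (C₀ / c) := by positivity
    linarith
  intro R k hR hk hkN
  have hR2 : (2 : ℝ) ≤ R := by exact_mod_cast hR
  have hR0 : (0 : ℝ) < R := by linarith
  have hℓ := log_half (R : ℝ) hR2
  set ℓ : ℝ := Real.log R with hℓd
  set R' : ℝ := ((n : ℝ) + 2) * R with hR'
  have hR'R : (R : ℝ) ≤ R' := by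
    rw [hR']
    exact le_mul_of_one_le_left hR0.le (by linarith)
  have hR'2 : 2 ≤ R' := by linarith
  have hcast : (((n + 1 : ℕ) : ℝ) + 1) * R = R' := by
    rw [hR']
    push_cast
    ring
  have hlog : Real.log R' ≤ c1 * ℓ := by
    rw [hR', Real.log_mul (by positivity) hR0.ne', ← hℓd, hc1d]
    have := dbl (Real.log ((n : ℝ) + 2)) ℓ hlg hℓ
    linarith
  have hlog0 : 0 ≤ Real.log R' := Real.log_nonneg (by linarith)
  have hlog3 : Real.log R' ^ 3 ≤ c1 ^ 3 * ℓ ^ 3 := by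
    rw [← mul_pow]
    exact pow_le_pow_left₀ hlog0 hlog 3
  have hwn : ∀ j : Fin (n + 1) → Fin (2 * R), bx R j ⊆ wn (n + 1) R := by
    intro j x hx
    rw [← bx_un]
    exact mem_iUnion₂.2 ⟨j, Finset.mem_univ _, hx⟩
  have h := hmain R' hR'2 1 (by rw [neg_zero, Real.rpow_zero]) (Fin (n + 1) → Fin (2 * R))
    Finset.univ (bx R) (fun i _ => bx_meas R i)
    (fun i _ => (hwn i).trans (by rw [← hcast]; exact wn_sub R (by omega)))
    (fun i _ => by rw [Measure.real, bx_vol]; simp)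
    (fun i _ j _ hij => bx_disj R i j hij) k hk (by rw [card_bx]; exact hkN)
  rw [card_bx] at h
  refine le_trans ?_ (h.trans (mul_le_mul_of_nonneg_right
    (Real.rpow_le_rpow_of_nonpos hR0 hR'R (by linarith)) (Nat.cast_nonneg _)))
  refine Nat.cast_le.2 (Finset.card_le_card ?_)
  intro I hI
  rw [Finset.mem_filter] at hI ⊢
  refine ⟨hI.1, fun hgood => hI.2 ?_⟩
  have hIk := (Finset.mem_powersetCard.1 hI.1).2
  have hIne : I.Nonempty := Finset.card_pos.1 (by omega)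
  intro p hp
  have hp0 : 0 ≤ p := by linarith
  set S := un (bx R) I with hS
  rw [bx_un] at hgood
  have hτ : ((k : ℝ) / (((2 * R) ^ (n + 1) : ℕ) : ℝ)) = dn n R k := by
    unfold dn
    push_cast
    rfl
  rw [hτ] at hgood
  have hτ0 : 0 ≤ dn n R k := by unfold dn; positivity
  have hSt : volume S ≠ ⊤ := un_top R I
  have hWt : volume (wn (n + 1) R) ≠ ⊤ := wn_top R (by omega)
  obtain ⟨u, v⟩ := opP_of_gd C₀ R' 1 (dn n R k) 0 (by linarith) hτ0 zero_le_one hR'2 S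
    (wn (n + 1) R) hSt hWt hgood p hp
  have hx : opP p S ≠ ⊤ := opP_ne_top p hp0 S hSt
  have hw : opP p (wn (n + 1) R) ≠ ⊤ := opP_ne_top p hp0 _ hWt
  set x : ℝ := (opP p S).toReal with hxd
  set w : ℝ := (opP p (wn (n + 1) R)).toReal with hwd
  have ex : opP p S = ENNReal.ofReal x := (ENNReal.ofReal_toReal hx).symm
  have ew : opP p (wn (n + 1) R) = ENNReal.ofReal w := (ENNReal.ofReal_toReal hw).symm
  have hx0 : 0 ≤ x := ENNReal.toReal_nonneg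
  have hw0 : 0 ≤ w := ENNReal.toReal_nonneg
  have hlowp := hlow R I hIne p hp
  rw [ex] at u v ⊢
  rw [← hS, ex] at hlowp
  rw [ew] at u v ⊢
  rw [one_mul] at u v
  have hC₀p : 0 ≤ C₀ ^ p := by positivity
  have hℓ3 : 0 ≤ ℓ ^ 3 := by positivity
  have hR'3 : 0 ≤ Real.log R' ^ 3 := by positivity
  have hτw : 0 ≤ dn n R k * w := by positivity
  rw [← ENNReal.ofReal_mul hτ0, ← ENNReal.ofReal_add hτw hR'3, ← ENNReal.ofReal_mul hC₀p,
    ENNReal.ofReal_le_ofReal_iff (by positivity)] at u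
  rw [← ENNReal.ofReal_mul hτ0, ← ENNReal.ofReal_add hx0 hR'3, ← ENNReal.ofReal_mul hC₀p,
    ENNReal.ofReal_le_ofReal_iff (by positivity)] at v
  rw [ENNReal.ofReal_le_ofReal_iff hx0] at hlowp
  set C := C₀ * c1 ^ 3 + (16 + c1 ^ 3) * (C₀ / c) with hC
  have hb0 : 0 ≤ (16 + c1 ^ 3) * (C₀ / c) := by positivity
  have ha0 : 0 ≤ C₀ * c1 ^ 3 := by positivity
  have hC0 : 0 ≤ C := by linarith
  constructor
  · rw [← ENNReal.ofReal_mul hτ0, ← ENNReal.ofReal_add hτw hℓ3, ← ENNReal.ofReal_mul (by positivity)]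
    refine ENNReal.ofReal_le_ofReal ?_
    have h1 : C₀ ^ p * c1 ^ 3 ≤ C ^ p := by
      have h2 : c1 ^ 3 ≤ (c1 ^ 3) ^ p := by
        have := Real.rpow_le_rpow_of_exponent_le hc13 (show 1 ≤ p by linarith)
        rwa [Real.rpow_one] at this
      calc C₀ ^ p * c1 ^ 3 ≤ C₀ ^ p * (c1 ^ 3) ^ p := mul_le_mul_of_nonneg_left h2 hC₀p
        _ = (C₀ * c1 ^ 3) ^ p := (Real.mul_rpow (by linarith) (by linarith)).symm
        _ ≤ C ^ p := Real.rpow_le_rpow ha0 (by linarith) hp0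
    have h3 : dn n R k * w + Real.log R' ^ 3 ≤ c1 ^ 3 * (dn n R k * w + ℓ ^ 3) := by
      have := le_mul_of_one_le_left hτw hc13
      linarith
    calc x ≤ C₀ ^ p * (dn n R k * w + Real.log R' ^ 3) := u
      _ ≤ C₀ ^ p * (c1 ^ 3 * (dn n R k * w + ℓ ^ 3)) := mul_le_mul_of_nonneg_left h3 hC₀p
      _ = (C₀ ^ p * c1 ^ 3) * (dn n R k * w + ℓ ^ 3) := by ring
      _ ≤ C ^ p * (dn n R k * w + ℓ ^ 3) := mul_le_mul_of_nonneg_right h1 (by positivity)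
  · rw [← ENNReal.ofReal_mul hτ0, ← ENNReal.ofReal_one, ← ENNReal.ofReal_add hτw zero_le_one,
      ← ENNReal.ofReal_mul (by positivity)]
    refine ENNReal.ofReal_le_ofReal ?_
    have hcp : 0 < c ^ p := Real.rpow_pos_of_pos hc0 _
    have hsq := (sq1 ℓ hℓ).2.2
    have hCc : 1 ≤ C₀ ^ p := Real.one_le_rpow hC₀ hp0
    have hci : 1 ≤ (c ^ p)⁻¹ := (one_le_inv₀ hcp).2 (Real.rpow_le_one hc0.le hc1 hp0)
    set q : ℝ := C₀ ^ p * (c ^ p)⁻¹ with hq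
    have hq0 : 0 ≤ q := by positivity
    have hq1 : (c ^ p)⁻¹ ≤ q := le_mul_of_one_le_left (by positivity) hCc
    have hq2 : C₀ ^ p ≤ q := le_mul_of_one_le_right hC₀p hci
    -- the three terms
    have t0 : 1 ≤ (c ^ p)⁻¹ * x := by
      rw [inv_mul_eq_div, one_le_div hcp]
      exact hlowp
    have t1 : C₀ ^ p * x ≤ 8 * (q * (ℓ ^ 3 * x)) := by
      have h1 : x ≤ 8 * ℓ ^ 3 * x := le_mul_of_one_le_left hx0 hsq
      calc C₀ ^ p * x ≤ q * (8 * ℓ ^ 3 * x) := mul_le_mul hq2 h1 hx0 hq0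
        _ = _ := by ring
    have t2 : C₀ ^ p * (c1 ^ 3 * ℓ ^ 3) ≤ c1 ^ 3 * (q * (ℓ ^ 3 * x)) := by
      have h1 : C₀ ^ p * (c1 ^ 3 * ℓ ^ 3) * 1 ≤ C₀ ^ p * (c1 ^ 3 * ℓ ^ 3) * ((c ^ p)⁻¹ * x) :=
        mul_le_mul_of_nonneg_left t0 (by positivity)
      calc C₀ ^ p * (c1 ^ 3 * ℓ ^ 3) = C₀ ^ p * (c1 ^ 3 * ℓ ^ 3) * 1 := by ring
        _ ≤ _ := h1
        _ = _ := by rw [hq]; ring
    have t3 : 1 ≤ 8 * (q * (ℓ ^ 3 * x)) := by
      have h1 : (c ^ p)⁻¹ * x ≤ q * x := mul_le_mul_of_nonneg_right hq1 hx0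
      have h2 : q * x ≤ q * (8 * ℓ ^ 3 * x) :=
        mul_le_mul_of_nonneg_left (le_mul_of_one_le_left hx0 hsq) hq0
      linarith
    have h4 : C₀ ^ p * Real.log R' ^ 3 ≤ C₀ ^ p * (c1 ^ 3 * ℓ ^ 3) :=
      mul_le_mul_of_nonneg_left hlog3 hC₀p
    have h5 : dn n R k * w + 1 ≤ (16 + c1 ^ 3) * (q * (ℓ ^ 3 * x)) := by linarith
    have h6 : (16 + c1 ^ 3) * q ≤ C ^ p := by
      have e1 : (16 + c1 ^ 3) ≤ (16 + c1 ^ 3) ^ p := by
        have := Real.rpow_le_rpow_of_exponent_le (show 1 ≤ 16 + c1 ^ 3 by linarith)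
          (show 1 ≤ p by linarith)
        rwa [Real.rpow_one] at this
      have e2 : q = (C₀ / c) ^ p := by
        rw [Real.div_rpow (by linarith) hc0.le, hq, div_eq_mul_inv]
      calc (16 + c1 ^ 3) * q ≤ (16 + c1 ^ 3) ^ p * q := mul_le_mul_of_nonneg_right e1 hq0
        _ = ((16 + c1 ^ 3) * (C₀ / c)) ^ p := by
            rw [e2, Real.mul_rpow (by positivity) (by positivity)]
        _ ≤ C ^ p := Real.rpow_le_rpow hb0 (by linarith) hp0
    calc dn n R k * w + 1 ≤ (16 + c1 ^ 3) * (q * (ℓ ^ 3 * x)) := h5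
      _ = ((16 + c1 ^ 3) * q) * (ℓ ^ 3 * x) := by ring
      _ ≤ C ^ p * (ℓ ^ 3 * x) := mul_le_mul_of_nonneg_right h6 (by positivity)
      _ = _ := by ring

end Pool.Agent.P8H75.RP
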