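import Pool.Agent.P8H75.RP.Eqv

set_option autoImplicit false
set_option linter.unusedSectionVars false

/-!
# The critical exponent and the equivalences
-/

namespace Pool.Agent.P8H75.RP

open MeasureTheory Set Pool.Agent.N248.RC
open scoped ENNReal

variable {n : ℕ}

theorem crit_wn (hn : 1 ≤ n) : ∃ C : ℝ, 0 ≤ C ∧ ∀ R : ℕ, 2 ≤ R →
    opP (2 * ((n : ℝ) + 1) / n) (wn (n + 1) R) ≤
      ENNReal.ofReal (C * ((R : ℝ) ^ (1 / 2 : ℝ) * Real.log R)) := by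
  obtain ⟨C, hC0, hC⟩ := crit_ball hn
  have hn0 : (0 : ℝ) ≤ n := Nat.cast_nonneg n
  have hlg : 0 ≤ Real.log ((n : ℝ) + 2) := Real.log_nonneg (by linarith)
  set c1 : ℝ := 2 * Real.log ((n : ℝ) + 2) + 1 with hc1d
  refine ⟨C * (((n : ℝ) + 2) ^ (1 / 2 : ℝ) * c1), by positivity, fun R hR => ?_⟩
  have hR2 : (2 : ℝ) ≤ R := by exact_mod_cast hR
  have hR0 : (0 : ℝ) < R := by linarith
  have hℓ := log_half (R : ℝ) hR2
  set R' : ℝ := ((n : ℝ) + 2) * R with hR'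
  have hR'R : (R : ℝ) ≤ R' := by
    rw [hR']
    exact le_mul_of_one_le_left hR0.le (by linarith)
  have hR'2 : 2 ≤ R' := by linarith
  have hcast : (((n + 1 : ℕ) : ℝ) + 1) * R = R' := by
    rw [hR']
    push_cast
    ring
  have hp := pc_two hn
  refine iSup₂_le fun f hf => ?_
  rw [li_eq f hf.1 hf.2 _ (by linarith) _ (wn_top R (by omega))]
  refine ENNReal.ofReal_le_ofReal ?_
  have h1 : ∫ x in wn (n + 1) R, ‖Eo (mc n) (ker (Pa n)) f x‖ ^ (2 * ((n : ℝ) + 1) / n) ≤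
      ∫ x in Metric.ball 0 R', ‖Eo (mc n) (ker (Pa n)) f x‖ ^ (2 * ((n : ℝ) + 1) / n) := by
    refine setIntegral_mono_set
      (F_int f hf.1 hf.2 _ (by linarith) _ measure_ball_lt_top.ne) ?_ ?_
    · exact Filter.Eventually.of_forall fun x => by positivity
    · refine HasSubset.Subset.eventuallyLE ?_
      rw [← hcast]
      exact wn_sub R (by omega)
  refine h1.trans ((hC R' hR'2 f hf.1 hf.2).trans ?_)
  have h2 : Real.log R' ≤ c1 * Real.log R := by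
    rw [hR', Real.log_mul (by positivity) hR0.ne', hc1d]
    have := dbl (Real.log ((n : ℝ) + 2)) (Real.log R) hlg hℓ
    linarith
  have h3 : R' ^ (1 / 2 : ℝ) = ((n : ℝ) + 2) ^ (1 / 2 : ℝ) * (R : ℝ) ^ (1 / 2 : ℝ) := by
    rw [hR', Real.mul_rpow (by positivity) hR0.le]
  rw [h3]
  calc C * ((((n : ℝ) + 2) ^ (1 / 2 : ℝ) * (R : ℝ) ^ (1 / 2 : ℝ)) * Real.log R') ≤
        C * ((((n : ℝ) + 2) ^ (1 / 2 : ℝ) * (R : ℝ) ^ (1 / 2 : ℝ)) * (c1 * Real.log R)) := by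
        gcongr
    _ = _ := by ring

open Classical in
/-- the bound at the critical exponent for random sets of unit cubes -/
theorem crit (hn : 1 ≤ n) (A : ℝ) (hA : 0 ≤ A) : ∃ C : ℝ, ∀ R k : ℕ, 2 ≤ R → 1 ≤ k →
    k ≤ (2 * R) ^ (n + 1) →
    (((Finset.powersetCard k (Finset.univ : Finset (Fin (n + 1) → Fin (2 * R)))).filter
      (fun I => ¬ opP (2 * ((n : ℝ) + 1) / n) (un (bx R) I) ≤ ENNReal.ofReal
        (C * Real.log R ^ 3 * (dn n R k * (R : ℝ) ^ (1 / 2 : ℝ) + 1)))).card : ℝ) ≤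
      (R : ℝ) ^ (-A) * ((((2 * R) ^ (n + 1)).choose k : ℕ) : ℝ) := by
  obtain ⟨C, hC1, hC⟩ := cubes n A hA
  obtain ⟨K, hK0, hK⟩ := crit_wn hn
  set p : ℝ := 2 * ((n : ℝ) + 1) / n with hp
  have hp2 : 2 ≤ p := pc_two hn
  refine ⟨C ^ p * (4 * K + 1), fun R k hR hk hkN => le_trans (Nat.cast_le.2
    (Finset.card_le_card fun I hI => ?_)) (hC R k hR hk hkN)⟩
  rw [Finset.mem_filter] at hI ⊢
  refine ⟨hI.1, fun hgood => hI.2 ?_⟩
  have hR2 : (2 : ℝ) ≤ R := by exact_mod_cast hR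
  have hℓ := log_half (R : ℝ) hR2
  set ℓ : ℝ := Real.log R with hℓd
  have hτ0 : 0 ≤ dn n R k := by unfold dn; positivity
  refine (hgood p hp2).1.trans ?_
  have h1 := hK R hR
  have hCp : 0 ≤ C ^ p := by positivity
  have hRh : 0 ≤ (R : ℝ) ^ (1 / 2 : ℝ) := by positivity
  calc ENNReal.ofReal (C ^ p) * (ENNReal.ofReal (dn n R k) * opP p (wn (n + 1) R) +
        ENNReal.ofReal (ℓ ^ 3)) ≤ ENNReal.ofReal (C ^ p) * (ENNReal.ofReal (dn n R k) *
          ENNReal.ofReal (K * ((R : ℝ) ^ (1 / 2 : ℝ) * ℓ)) + ENNReal.ofReal (ℓ ^ 3)) := by gcongr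
    _ = ENNReal.ofReal (C ^ p * (dn n R k * (K * ((R : ℝ) ^ (1 / 2 : ℝ) * ℓ)) + ℓ ^ 3)) := by
        rw [← ENNReal.ofReal_mul hτ0, ← ENNReal.ofReal_add (by positivity) (by positivity),
          ← ENNReal.ofReal_mul hCp]
    _ ≤ _ := by
        refine ENNReal.ofReal_le_ofReal ?_
        have h2 : ℓ ≤ 4 * ℓ ^ 3 := by
          have := (sq1 ℓ hℓ).1
          nlinarith
        have h3 : dn n R k * (K * ((R : ℝ) ^ (1 / 2 : ℝ) * ℓ)) ≤
            4 * K * (ℓ ^ 3 * (dn n R k * (R : ℝ) ^ (1 / 2 : ℝ))) := by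
          calc dn n R k * (K * ((R : ℝ) ^ (1 / 2 : ℝ) * ℓ)) =
                (K * (dn n R k * (R : ℝ) ^ (1 / 2 : ℝ))) * ℓ := by ring
            _ ≤ (K * (dn n R k * (R : ℝ) ^ (1 / 2 : ℝ))) * (4 * ℓ ^ 3) :=
                mul_le_mul_of_nonneg_left h2 (by positivity)
            _ = _ := by ring
        have h4 : 0 ≤ ℓ ^ 3 * (dn n R k * (R : ℝ) ^ (1 / 2 : ℝ)) := by positivity
        have h5 : 0 ≤ 4 * K * ℓ ^ 3 := by positivity
        calc C ^ p * (dn n R k * (K * ((R : ℝ) ^ (1 / 2 : ℝ) * ℓ)) + ℓ ^ 3) ≤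
              C ^ p * ((4 * K + 1) * (ℓ ^ 3 * (dn n R k * (R : ℝ) ^ (1 / 2 : ℝ) + 1))) := by
              refine mul_le_mul_of_nonneg_left ?_ hCp
              linarith
          _ = _ := by ring

/-- the number of cubes at density `R^(-σ)` -/
noncomputable def kc (n : ℕ) (σ : ℝ) (R : ℕ) : ℕ := ⌈(R : ℝ) ^ ((n : ℝ) + 1 - σ)⌉₊

theorem kc_facts (σ : ℝ) (hσ : 0 ≤ σ) (hσn : σ ≤ n + 1) (R : ℕ) (hR : 1 ≤ R) :
    1 ≤ kc n σ R ∧ kc n σ R ≤ (2 * R) ^ (n + 1) ∧ dn n R (kc n σ R) ≤ (R : ℝ) ^ (-σ) ∧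
      (R : ℝ) ^ (-σ) ≤ 2 ^ (n + 1) * dn n R (kc n σ R) := by
  have e : kc n σ R = nc (n + 1) σ R := by
    unfold kc nc
    push_cast
    rfl
  obtain ⟨h1, h2, h3, h4⟩ := nc_facts (n := n + 1) σ hσ (by push_cast; exact hσn) R hR
  rw [← e] at h1 h2 h3 h4
  have hR1 : (1 : ℝ) ≤ R := by exact_mod_cast hR
  have hR0 : (0 : ℝ) < R := by linarith
  have e2 : (R : ℝ) ^ (((n + 1 : ℕ) : ℝ) - σ) = (R : ℝ) ^ (n + 1) * (R : ℝ) ^ (-σ) := by
    rw [← Real.rpow_natCast (R : ℝ) (n + 1), ← Real.rpow_add hR0]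
    congr 1
  rw [e2] at h3 h4
  have hpos : (0 : ℝ) < (2 * R) ^ (n + 1) := by positivity
  have hσ0 : 0 < (R : ℝ) ^ (-σ) := Real.rpow_pos_of_pos hR0 _
  have e3 : (2 * (R : ℝ)) ^ (n + 1) = 2 ^ (n + 1) * (R : ℝ) ^ (n + 1) := mul_pow _ _ _
  refine ⟨h1, h2, ?_, ?_⟩
  · unfold dn
    rw [div_le_iff₀ hpos, e3]
    refine h4.trans ?_
    have h5 : (2 : ℝ) ≤ 2 ^ (n + 1) := by
      have : (1 : ℝ) ≤ 2 ^ n := one_le_pow₀ (by norm_num)
      rw [pow_succ]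
      linarith
    calc 2 * ((R : ℝ) ^ (n + 1) * (R : ℝ) ^ (-σ)) ≤
          2 ^ (n + 1) * ((R : ℝ) ^ (n + 1) * (R : ℝ) ^ (-σ)) :=
          mul_le_mul_of_nonneg_right h5 (by positivity)
      _ = _ := by ring
  · unfold dn
    rw [← mul_div_assoc, le_div_iff₀ hpos, e3]
    calc (R : ℝ) ^ (-σ) * (2 ^ (n + 1) * (R : ℝ) ^ (n + 1)) =
          2 ^ (n + 1) * ((R : ℝ) ^ (n + 1) * (R : ℝ) ^ (-σ)) := by ring
      _ ≤ 2 ^ (n + 1) * (kc n σ R : ℝ) := mul_le_mul_of_nonneg_left h3 (by positivity)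

theorem log3 (ε : ℝ) (hε : 0 < ε) : ∃ L : ℝ, 0 ≤ L ∧ ∀ R : ℝ, 2 ≤ R →
    Real.log R ^ 3 ≤ L * R ^ ε := by
  refine ⟨((ε / 3)⁻¹) ^ 3, by positivity, fun R hR => ?_⟩
  have h1 := Real.log_le_rpow_div (show (0 : ℝ) ≤ R by linarith) (show 0 < ε / 3 by positivity)
  have h0 : 0 ≤ Real.log R := Real.log_nonneg (by linarith)
  refine (pow_le_pow_left₀ h0 h1 3).trans (le_of_eq ?_)
  rw [div_pow, ← Real.rpow_natCast (R ^ (ε / 3)) 3, ← Real.rpow_mul (by linarith)]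
  rw [show ε / 3 * ((3 : ℕ) : ℝ) = ε by push_cast; ring]
  field_simp

/-- the full bound with loss `R^σ` -/
def Fa (n : ℕ) (p σ : ℝ) : Prop := ∀ ε : ℝ, 0 < ε → ∃ C : ℝ, ∀ R : ℕ, 2 ≤ R →
  opP (n := n) p (wn (n + 1) R) ≤ ENNReal.ofReal (C * (R : ℝ) ^ (σ + ε))

open Classical in
/-- almost all sets of density `R^(-σ)` have no loss -/
def Fb (n : ℕ) (p σ : ℝ) : Prop := ∀ A ε : ℝ, 0 < ε → ∃ C : ℝ, ∀ R : ℕ, 2 ≤ R →
  (((Finset.powersetCard (kc n σ R) (Finset.univ : Finset (Fin (n + 1) → Fin (2 * R)))).filter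
      (fun I => ¬ opP p (un (bx R) I) ≤ ENNReal.ofReal (C * (R : ℝ) ^ ε))).card : ℝ) ≤
      (R : ℝ) ^ (-A) * ((((2 * R) ^ (n + 1)).choose (kc n σ R) : ℕ) : ℝ)

open Classical in
/-- a proportion `R^(-A)` of the sets of density `R^(-σ)` have no loss -/
def Fc (n : ℕ) (p σ : ℝ) : Prop := ∀ ε : ℝ, 0 < ε → ∃ A C : ℝ, ∀ R : ℕ, 2 ≤ R →
  (R : ℝ) ^ (-A) * ((((2 * R) ^ (n + 1)).choose (kc n σ R) : ℕ) : ℝ) ≤
    (((Finset.powersetCard (kc n σ R) (Finset.univ : Finset (Fin (n + 1) → Fin (2 * R)))).filter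
      (fun I => opP p (un (bx R) I) ≤ ENNReal.ofReal (C * (R : ℝ) ^ ε))).card : ℝ)

theorem fb_of_fa (p σ : ℝ) (hp : 2 ≤ p) (hσ : 0 ≤ σ) (hσn : σ ≤ n + 1) (h : Fa n p σ) :
    Fb n p σ := by
  classical
  intro A ε hε
  obtain ⟨C₀, hC₀⟩ := h ε hε
  obtain ⟨L, hL0, hL⟩ := log3 ε hε
  obtain ⟨C, hC1, hC⟩ := cubes n (max A 0) (le_max_right _ _)
  set C₁ : ℝ := max C₀ 0 with hC₁
  have hC₁0 : 0 ≤ C₁ := le_max_right _ _
  refine ⟨C ^ p * (C₁ + L), fun R hR => ?_⟩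
  obtain ⟨h1, h2, h3, h4⟩ := kc_facts (n := n) σ hσ hσn R (by omega)
  have hR2 : (2 : ℝ) ≤ R := by exact_mod_cast hR
  have hR0 : (0 : ℝ) < R := by linarith
  have hcount := hC R (kc n σ R) hR h1 h2
  have hA : (R : ℝ) ^ (-(max A 0)) ≤ (R : ℝ) ^ (-A) :=
    Real.rpow_le_rpow_of_exponent_le (by linarith) (neg_le_neg (le_max_left _ _))
  refine le_trans ?_ (hcount.trans (mul_le_mul_of_nonneg_right hA (Nat.cast_nonneg _)))
  refine Nat.cast_le.2 (Finset.card_le_card fun I hI => ?_)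
  rw [Finset.mem_filter] at hI ⊢
  refine ⟨hI.1, fun hgood => hI.2 ((hgood p hp).1.trans ?_)⟩
  have hτ0 : 0 ≤ dn n R (kc n σ R) := by unfold dn; positivity
  have hCp : 0 ≤ C ^ p := by positivity
  have hℓ := log_half (R : ℝ) hR2
  have h5 : opP (n := n) p (wn (n + 1) R) ≤ ENNReal.ofReal (C₁ * (R : ℝ) ^ (σ + ε)) :=
    (hC₀ R hR).trans (ENNReal.ofReal_le_ofReal
      (mul_le_mul_of_nonneg_right (le_max_left _ _) (by positivity)))
  calc ENNReal.ofReal (C ^ p) * (ENNReal.ofReal (dn n R (kc n σ R)) * opP p (wn (n + 1) R) +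
        ENNReal.ofReal (Real.log R ^ 3)) ≤ ENNReal.ofReal (C ^ p) *
          (ENNReal.ofReal (dn n R (kc n σ R)) * ENNReal.ofReal (C₁ * (R : ℝ) ^ (σ + ε)) +
          ENNReal.ofReal (Real.log R ^ 3)) := by gcongr
    _ = ENNReal.ofReal (C ^ p * (dn n R (kc n σ R) * (C₁ * (R : ℝ) ^ (σ + ε)) +
          Real.log R ^ 3)) := by
        rw [← ENNReal.ofReal_mul hτ0, ← ENNReal.ofReal_add (by positivity) (by positivity),
          ← ENNReal.ofReal_mul hCp]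
    _ ≤ _ := by
        refine ENNReal.ofReal_le_ofReal ?_
        have h6 : dn n R (kc n σ R) * (C₁ * (R : ℝ) ^ (σ + ε)) ≤ C₁ * (R : ℝ) ^ ε := by
          calc dn n R (kc n σ R) * (C₁ * (R : ℝ) ^ (σ + ε)) ≤
                (R : ℝ) ^ (-σ) * (C₁ * (R : ℝ) ^ (σ + ε)) :=
                mul_le_mul_of_nonneg_right h3 (by positivity)
            _ = C₁ * ((R : ℝ) ^ (-σ) * (R : ℝ) ^ (σ + ε)) := by ring
            _ = C₁ * (R : ℝ) ^ ε := by
                rw [← Real.rpow_add hR0]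
                congr 2
                ring
        have h7 := hL R hR2
        calc C ^ p * (dn n R (kc n σ R) * (C₁ * (R : ℝ) ^ (σ + ε)) + Real.log R ^ 3) ≤
              C ^ p * ((C₁ + L) * (R : ℝ) ^ ε) := by
              refine mul_le_mul_of_nonneg_left ?_ hCp
              linarith
          _ = _ := by ring

theorem fc_of_fb (p σ : ℝ) (h : Fb n p σ) : Fc n p σ := by
  classical
  intro ε hε
  obtain ⟨C, hC⟩ := h 1 ε hε
  refine ⟨1, C, fun R hR => ?_⟩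
  have hR2 : (2 : ℝ) ≤ R := by exact_mod_cast hR
  have h1 := hC R hR
  have h2 := Finset.card_filter_add_card_filter_not
    (s := Finset.powersetCard (kc n σ R) (Finset.univ : Finset (Fin (n + 1) → Fin (2 * R))))
    (fun I => opP p (un (bx R) I) ≤ ENNReal.ofReal (C * (R : ℝ) ^ ε))
  rw [Finset.card_powersetCard, card_bx] at h2
  have h3 : (((Finset.powersetCard (kc n σ R)
      (Finset.univ : Finset (Fin (n + 1) → Fin (2 * R)))).filter
      (fun I => opP p (un (bx R) I) ≤ ENNReal.ofReal (C * (R : ℝ) ^ ε))).card : ℝ) +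
      (((Finset.powersetCard (kc n σ R)
      (Finset.univ : Finset (Fin (n + 1) → Fin (2 * R)))).filter
      (fun I => ¬ opP p (un (bx R) I) ≤ ENNReal.ofReal (C * (R : ℝ) ^ ε))).card : ℝ) =
      ((((2 * R) ^ (n + 1)).choose (kc n σ R) : ℕ) : ℝ) := by exact_mod_cast h2
  have h4 : (R : ℝ) ^ (-1 : ℝ) ≤ 1 / 2 := by
    rw [Real.rpow_neg_one, inv_le_comm₀ (by linarith) (by norm_num)]
    norm_num
    exact hR
  have h5 := mul_le_mul_of_nonneg_right h4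
    (Nat.cast_nonneg (α := ℝ) (((2 * R) ^ (n + 1)).choose (kc n σ R)))
  linarith

theorem fa_of_fc (p σ : ℝ) (hp : 2 ≤ p) (hσ : 0 ≤ σ) (hσn : σ ≤ n + 1) (h : Fc n p σ) :
    Fa n p σ := by
  classical
  intro ε hε
  obtain ⟨L2, hL20, hL2⟩ := log3 (ε / 2) (by linarith)
  obtain ⟨A2, C2, hC2⟩ := h (ε / 2) (by linarith)
  obtain ⟨D, hD1, hD⟩ := cubes n (max A2 0 + 1) (by have := le_max_right A2 0; linarith)
  set C₃ : ℝ := max C2 0 with hC₃
  have hC₃0 : 0 ≤ C₃ := le_max_right _ _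
  refine ⟨2 ^ (n + 1) * (D ^ p * (L2 * C₃)), fun R hR => ?_⟩
  obtain ⟨h1, h2, h3, h4⟩ := kc_facts (n := n) σ hσ hσn R (by omega)
  have hR2 : (2 : ℝ) ≤ R := by exact_mod_cast hR
  have hR0 : (0 : ℝ) < R := by linarith
  have hcount := hD R (kc n σ R) hR h1 h2
  have hgoodc := hC2 R hR
  have hM0 : (0 : ℝ) < ((((2 * R) ^ (n + 1)).choose (kc n σ R) : ℕ) : ℝ) := by
    exact_mod_cast Nat.choose_pos h2
  have hlt : (R : ℝ) ^ (-(max A2 0 + 1)) * ((((2 * R) ^ (n + 1)).choose (kc n σ R) : ℕ) : ℝ) <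
      (R : ℝ) ^ (-A2) * ((((2 * R) ^ (n + 1)).choose (kc n σ R) : ℕ) : ℝ) := by
    refine mul_lt_mul_of_pos_right ?_ hM0
    refine Real.rpow_lt_rpow_of_exponent_lt (by linarith) ?_
    have := le_max_left A2 0
    linarith
  obtain ⟨I, hI1, hI2⟩ : ∃ I ∈ (Finset.powersetCard (kc n σ R)
      (Finset.univ : Finset (Fin (n + 1) → Fin (2 * R)))).filter
      (fun I => opP p (un (bx R) I) ≤ ENNReal.ofReal (C2 * (R : ℝ) ^ (ε / 2))),
      I ∉ (Finset.powersetCard (kc n σ R)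
        (Finset.univ : Finset (Fin (n + 1) → Fin (2 * R)))).filter
        (fun I => ¬ Gc n D R (kc n σ R) (un (bx R) I)) := by
    by_contra hcon
    push Not at hcon
    have h5 := Finset.card_le_card (fun x hx => hcon x hx)
    have h6 : (((Finset.powersetCard (kc n σ R)
      (Finset.univ : Finset (Fin (n + 1) → Fin (2 * R)))).filter
      (fun I => opP p (un (bx R) I) ≤ ENNReal.ofReal (C2 * (R : ℝ) ^ (ε / 2)))).card : ℝ) ≤
      (((Finset.powersetCard (kc n σ R)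
        (Finset.univ : Finset (Fin (n + 1) → Fin (2 * R)))).filter
        (fun I => ¬ Gc n D R (kc n σ R) (un (bx R) I))).card : ℝ) := Nat.cast_le.2 h5
    linarith
  rw [Finset.mem_filter] at hI1
  have hgood : Gc n D R (kc n σ R) (un (bx R) I) := by
    by_contra hcon
    exact hI2 (Finset.mem_filter.2 ⟨hI1.1, hcon⟩)
  have hτ0 : 0 ≤ dn n R (kc n σ R) := by unfold dn; positivity
  have hDp : 0 ≤ D ^ p := by positivity
  have hℓ := log_half (R : ℝ) hR2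
  have h5 := (hgood p hp).2
  have h6 : opP p (un (bx R) I) ≤ ENNReal.ofReal (C₃ * (R : ℝ) ^ (ε / 2)) :=
    hI1.2.trans (ENNReal.ofReal_le_ofReal
      (mul_le_mul_of_nonneg_right (le_max_left _ _) (by positivity)))
  have h7 : ENNReal.ofReal (dn n R (kc n σ R)) * opP (n := n) p (wn (n + 1) R) ≤
      ENNReal.ofReal (D ^ p * (L2 * C₃) * (R : ℝ) ^ ε) := by
    calc ENNReal.ofReal (dn n R (kc n σ R)) * opP (n := n) p (wn (n + 1) R) ≤
          ENNReal.ofReal (dn n R (kc n σ R)) * opP p (wn (n + 1) R) + 1 := le_self_add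
      _ ≤ ENNReal.ofReal (D ^ p * Real.log R ^ 3) * opP p (un (bx R) I) := h5
      _ ≤ ENNReal.ofReal (D ^ p * Real.log R ^ 3) * ENNReal.ofReal (C₃ * (R : ℝ) ^ (ε / 2)) := by
          gcongr
      _ = ENNReal.ofReal (D ^ p * Real.log R ^ 3 * (C₃ * (R : ℝ) ^ (ε / 2))) := by
          rw [← ENNReal.ofReal_mul (by positivity)]
      _ ≤ _ := by
          refine ENNReal.ofReal_le_ofReal ?_
          have h8 := hL2 R hR2
          calc D ^ p * Real.log R ^ 3 * (C₃ * (R : ℝ) ^ (ε / 2)) ≤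
                D ^ p * (L2 * (R : ℝ) ^ (ε / 2)) * (C₃ * (R : ℝ) ^ (ε / 2)) := by gcongr
            _ = D ^ p * (L2 * C₃) * ((R : ℝ) ^ (ε / 2) * (R : ℝ) ^ (ε / 2)) := by ring
            _ = _ := by
                rw [← Real.rpow_add hR0]
                congr 2
                ring
  have h8 : ENNReal.ofReal ((R : ℝ) ^ (-σ)) * opP (n := n) p (wn (n + 1) R) ≤
      ENNReal.ofReal (2 ^ (n + 1) * (D ^ p * (L2 * C₃) * (R : ℝ) ^ ε)) := by
    calc ENNReal.ofReal ((R : ℝ) ^ (-σ)) * opP (n := n) p (wn (n + 1) R) ≤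
          ENNReal.ofReal (2 ^ (n + 1) * dn n R (kc n σ R)) * opP (n := n) p (wn (n + 1) R) := by
          gcongr
      _ = ENNReal.ofReal (2 ^ (n + 1)) *
          (ENNReal.ofReal (dn n R (kc n σ R)) * opP (n := n) p (wn (n + 1) R)) := by
          rw [ENNReal.ofReal_mul (by positivity), mul_assoc]
      _ ≤ ENNReal.ofReal (2 ^ (n + 1)) *
          ENNReal.ofReal (D ^ p * (L2 * C₃) * (R : ℝ) ^ ε) := by gcongr
      _ = _ := by rw [← ENNReal.ofReal_mul (by positivity)]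
  have h9 : opP (n := n) p (wn (n + 1) R) = ENNReal.ofReal ((R : ℝ) ^ σ) *
      (ENNReal.ofReal ((R : ℝ) ^ (-σ)) * opP (n := n) p (wn (n + 1) R)) := by
    rw [← mul_assoc, ← ENNReal.ofReal_mul (by positivity), ← Real.rpow_add hR0]
    simp
  rw [h9]
  calc ENNReal.ofReal ((R : ℝ) ^ σ) *
      (ENNReal.ofReal ((R : ℝ) ^ (-σ)) * opP (n := n) p (wn (n + 1) R)) ≤
        ENNReal.ofReal ((R : ℝ) ^ σ) *
        ENNReal.ofReal (2 ^ (n + 1) * (D ^ p * (L2 * C₃) * (R : ℝ) ^ ε)) := by gcongr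
    _ = ENNReal.ofReal ((R : ℝ) ^ σ * (2 ^ (n + 1) * (D ^ p * (L2 * C₃) * (R : ℝ) ^ ε))) := by
        rw [← ENNReal.ofReal_mul (by positivity)]
    _ = _ := by
        congr 1
        rw [Real.rpow_add hR0]
        ring

/-- the local restriction conjecture in terms of sparse random sets -/
theorem fa_zero (p : ℝ) (hp : 2 ≤ p) : Fa n p 0 ↔ ∀ σ : ℝ, 0 < σ → σ ≤ n + 1 → Fc n p σ := by
  constructor
  · intro h σ hσ hσn
    refine fc_of_fb p σ (fb_of_fa p σ hp hσ.le hσn ?_)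
    intro ε hε
    obtain ⟨C, hC⟩ := h ε hε
    refine ⟨max C 0, fun R hR => (hC R hR).trans (ENNReal.ofReal_le_ofReal ?_)⟩
    have hR2 : (2 : ℝ) ≤ R := by exact_mod_cast hR
    have h1 : (R : ℝ) ^ (0 + ε) ≤ (R : ℝ) ^ (σ + ε) :=
      Real.rpow_le_rpow_of_exponent_le (by linarith) (by linarith)
    calc C * (R : ℝ) ^ (0 + ε) ≤ max C 0 * (R : ℝ) ^ (0 + ε) :=
          mul_le_mul_of_nonneg_right (le_max_left _ _) (by positivity)
      _ ≤ _ := mul_le_mul_of_nonneg_left h1 (le_max_right _ _)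
  · intro h ε hε
    have hn0 : (0 : ℝ) ≤ n := Nat.cast_nonneg n
    set σ : ℝ := min (ε / 2) 1 with hσ
    have hσ0 : 0 < σ := lt_min (by linarith) one_pos
    have hσ1 : σ ≤ n + 1 := (min_le_right _ _).trans (by linarith)
    obtain ⟨C, hC⟩ := fa_of_fc p σ hp hσ0.le hσ1 (h σ hσ0 hσ1) (ε / 2) (by linarith)
    refine ⟨max C 0, fun R hR => (hC R hR).trans (ENNReal.ofReal_le_ofReal ?_)⟩
    have hR2 : (2 : ℝ) ≤ R := by exact_mod_cast hR
    have h1 : (R : ℝ) ^ (σ + ε / 2) ≤ (R : ℝ) ^ (0 + ε) :=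
      Real.rpow_le_rpow_of_exponent_le (by linarith) (by
        have := min_le_left (ε / 2) 1
        linarith)
    calc C * (R : ℝ) ^ (σ + ε / 2) ≤ max C 0 * (R : ℝ) ^ (σ + ε / 2) :=
          mul_le_mul_of_nonneg_right (le_max_left _ _) (by positivity)
      _ ≤ _ := mul_le_mul_of_nonneg_left h1 (le_max_right _ _)

end Pool.Agent.P8H75.RP
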