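import Pool.Agent.P8H73.RP.Stm

/-!
# Package FA of the project RP, part 1: combinatorics of the classes
-/

set_option autoImplicit false

namespace Pool.Agent.P8H75.RP

open Finset Pool.Agent.P8H73.RP

/-- the number of the integers of a class up to `z` -/
def ext (k z l : ℕ) : ℕ := ((Icc 1 z).filter (fun p : ℕ => p % k = l % k)).card

theorem cnt_le {x y : ℝ} {k l J H' z j : ℕ} {n : ℤ} (hk : 1 ≤ k) (hj : j ≤ J)
    (hn : n ≡ (l : ℤ) [ZMOD (k : ℤ)]) (hn1 : ⌊x - y⌋ + 1 ≤ n) (hn2 : n ≤ ⌊x - y⌋ + k)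
    (hH : y / k ≤ (H' : ℝ) - J - 1) :
    cnt x y k l ≤ pc (n - j * k) k H' z + ext k z l := by
  classical
  unfold cnt pc ext
  set F0 := (range H').filter (fun i : ℕ => (z : ℤ) < (n - j * k) + k * i ∧
    ((n - j * k) + k * i).toNat.Prime) with hF0
  set F2 := (Icc 1 z).filter (fun p : ℕ => p % k = l % k) with hF2
  set F1 := F0.image (fun i : ℕ => ((n - j * k) + k * i).toNat) with hF1
  have hsub : {p : ℕ | p.Prime ∧ x - y < (p : ℝ) ∧ (p : ℝ) ≤ x ∧ (p : ℤ) ≡ l [ZMOD (k : ℤ)]} ⊆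
      ((F1 ∪ F2 : Finset ℕ) : Set ℕ) := by
    rintro p ⟨hp, hp1, hp2, hp3⟩
    rw [mem_coe, mem_union]
    by_cases hz : p ≤ z
    · right
      rw [hF2, mem_filter, mem_Icc]
      refine ⟨⟨hp.one_lt.le, hz⟩, ?_⟩
      exact (Int.natCast_modEq_iff.mp hp3)
    · left
      push Not at hz
      have hk0 : (0 : ℤ) < k := by exact_mod_cast hk
      have hkr : (0 : ℝ) < k := by exact_mod_cast hk
      have h1 : ((p : ℤ) - n) % k = 0 := by
        have := (hn.trans hp3.symm).dvd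
        exact Int.emod_eq_zero_of_dvd this
      obtain ⟨t, ht⟩ := Int.dvd_of_emod_eq_zero h1
      have hpA : ⌊x - y⌋ < (p : ℤ) := by
        rw [Int.floor_lt]
        exact_mod_cast hp1
      have ht0 : 0 ≤ t := by
        by_contra hneg
        push Not at hneg
        have h2 : (k : ℤ) * t ≤ -k := by nlinarith
        omega
      have hy : (k : ℝ) * t < y := by
        have e1 : ((p : ℝ) - n) = k * t := by exact_mod_cast ht
        have e2 : x - y < (⌊x - y⌋ : ℝ) + 1 := Int.lt_floor_add_one _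
        have e3 : (⌊x - y⌋ : ℝ) + 1 ≤ n := by exact_mod_cast hn1
        linarith
      have htH : (t : ℝ) < (H' : ℝ) - J - 1 := by
        refine lt_of_lt_of_le ?_ hH
        rw [lt_div_iff₀ hkr]
        linarith
      have htH' : t + J + 1 < H' := by
        have : (t : ℝ) + J + 1 < H' := by linarith
        exact_mod_cast this
      rw [hF1, mem_image]
      obtain ⟨t', rfl⟩ := Int.eq_ofNat_of_zero_le ht0
      have e4 : (n - j * k) + k * ((t' + j : ℕ) : ℤ) = p := by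
        push_cast
        linarith
      refine ⟨t' + j, ?_, ?_⟩
      · rw [hF0, mem_filter, mem_range, e4]
        refine ⟨by omega, by exact_mod_cast hz, ?_⟩
        simpa using hp
      · rw [e4]
        simp
  refine (Set.ncard_le_ncard hsub (finite_toSet _)).trans ?_
  rw [Set.ncard_coe_finset]
  exact (card_union_le _ _).trans (Nat.add_le_add_right card_image_le _)

theorem classes_card (k₁ k₂ : ℕ) (l₁ : ℤ) (B : Finset ℕ)
    (hB : ∀ l ∈ B, l < k₁ * k₂ ∧ (l : ℤ) ≡ l₁ [ZMOD (k₁ : ℤ)]) : B.card ≤ k₂ := by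
  rw [← card_range k₂]
  apply card_le_card_of_injOn (fun l => l / k₁)
  · intro l hl
    rw [coe_range, Set.mem_Iio]
    exact Nat.div_lt_of_lt_mul (hB l hl).1
  · intro l hl l' hl' h
    have h1 := (hB l hl).2.trans (hB l' hl').2.symm
    rw [Int.natCast_modEq_iff] at h1
    have e1 := Nat.div_add_mod l k₁
    have e2 := Nat.div_add_mod l' k₁
    have e3 : l % k₁ = l' % k₁ := h1
    simp only at h
    rw [← e1, ← e2, h, e3]

theorem ext_sum (k z : ℕ) (hk : 1 ≤ k) : ∑ l ∈ range k, ext k z l = z := by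
  unfold ext
  have h := card_eq_sum_card_fiberwise (f := fun p : ℕ => p % k) (s := Icc 1 z) (t := range k)
    (fun p _ => by
      rw [coe_range, Set.mem_Iio]
      exact Nat.mod_lt _ hk)
  rw [Nat.card_Icc, Nat.add_sub_cancel] at h
  conv_rhs => rw [h]
  apply sum_congr rfl
  intro l hl
  rw [Nat.mod_eq_of_lt (mem_range.mp hl)]

open Classical in
/-- each bad class gives `J + 1` bad positions -/
theorem positions {x y : ℝ} {k₁ k₂ J H' z : ℕ} {l₁ : ℤ} (hk₁ : 1 ≤ k₁) (hk₂ : 1 ≤ k₂)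
    (hH : y / (k₁ * k₂ : ℕ) ≤ (H' : ℝ) - J - 1) (θ : ℝ) (B : Finset ℕ)
    (hB : ∀ l ∈ B, l < k₁ * k₂ ∧ (l : ℤ) ≡ l₁ [ZMOD (k₁ : ℤ)] ∧
      θ + ext (k₁ * k₂) z l ≤ cnt x y (k₁ * k₂) l) :
    ∃ X : ℤ, B.card * (J + 1) ≤ ((range (k₂ * (J + 1))).filter (fun M : ℕ =>
      θ ≤ (pc (l₁ + k₁ * (X + M)) (k₁ * k₂) H' z : ℝ))).card := by
  set k : ℕ := k₁ * k₂ with hk
  have hk1 : 1 ≤ k := Nat.mul_pos hk₁ hk₂
  have hk0 : (0 : ℤ) < k := by exact_mod_cast hk1
  have hk10 : (0 : ℤ) < k₁ := by exact_mod_cast hk₁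
  set A : ℤ := ⌊x - y⌋ with hA
  set a₀ : ℤ := A + 1 - J * k with ha₀
  set X : ℤ := -((l₁ - a₀) / k₁) with hX
  have hX1 : a₀ ≤ l₁ + k₁ * X := by
    have h1 := Int.emod_nonneg (l₁ - a₀) hk10.ne'
    have h2 := Int.emod_add_mul_ediv (l₁ - a₀) k₁
    have h3 : (k₁ : ℤ) * X = -(k₁ * ((l₁ - a₀) / k₁)) := by rw [hX]; ring
    linarith
  have hX2 : l₁ + k₁ * (X - 1) < a₀ := by
    have h1 := Int.emod_lt_of_pos (l₁ - a₀) hk10
    have h2 := Int.emod_add_mul_ediv (l₁ - a₀) k₁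
    have h3 : (k₁ : ℤ) * (X - 1) = -(k₁ * ((l₁ - a₀) / k₁)) - k₁ := by rw [hX]; ring
    linarith
  set nn : ℕ → ℤ := fun l => A + 1 + ((l : ℤ) - A - 1) % k with hnn
  have hn1 : ∀ l, A + 1 ≤ nn l := by
    intro l
    have := Int.emod_nonneg ((l : ℤ) - A - 1) hk0.ne'
    simp only [hnn]
    linarith
  have hn2 : ∀ l, nn l ≤ A + k := by
    intro l
    have := Int.emod_lt_of_pos ((l : ℤ) - A - 1) hk0
    simp only [hnn]
    linarith
  have hn3 : ∀ l, nn l ≡ (l : ℤ) [ZMOD (k : ℤ)] := by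
    intro l
    have h1 : ((l : ℤ) - A - 1) % k ≡ (l : ℤ) - A - 1 [ZMOD (k : ℤ)] := Int.mod_modEq _ _
    have h2 := h1.add_left (A + 1)
    have h3 : A + 1 + ((l : ℤ) - A - 1) = l := by ring
    rw [h3] at h2
    exact h2
  -- the positions
  have hpos : ∀ l ∈ B, ∀ j ∈ range (J + 1), ∃ M : ℕ, M < k₂ * (J + 1) ∧
      l₁ + k₁ * (X + M) = nn l - j * k := by
    intro l hl j hj
    have hjJ : j ≤ J := Nat.lt_succ_iff.mp (mem_range.mp hj)
    have hd : (k₁ : ℤ) ∣ nn l - j * k - l₁ := by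
      have h1 : nn l ≡ (l : ℤ) [ZMOD (k₁ : ℤ)] := by
        apply (hn3 l).of_dvd
        rw [hk]
        push_cast
        exact Dvd.intro _ rfl
      have h2 := h1.trans (hB l hl).2.1
      have h3 : (k₁ : ℤ) ∣ nn l - l₁ := h2.symm.dvd
      have h4 : (k₁ : ℤ) ∣ (j : ℤ) * k := by
        rw [hk]
        push_cast
        exact ⟨j * k₂, by ring⟩
      have h5 := dvd_sub h3 h4
      rw [show nn l - l₁ - (j : ℤ) * k = nn l - j * k - l₁ by ring] at h5
      exact h5
    obtain ⟨q, hq⟩ := hd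
    have hjk : (j : ℤ) * k ≤ J * k := by
      apply mul_le_mul_of_nonneg_right _ hk0.le
      exact_mod_cast hjJ
    have hj0 : (0 : ℤ) ≤ (j : ℤ) * k := by positivity
    have hlow : X ≤ q := by
      have h1 := hn1 l
      have h2 : a₀ ≤ l₁ + k₁ * q := by
        rw [← hq]
        linarith
      have h3 : (k₁ : ℤ) * (X - 1) < k₁ * q := by linarith
      have h4 := lt_of_mul_lt_mul_left h3 hk10.le
      omega
    have hup : q < X + k₂ * (J + 1) := by
      have h1 := hn2 l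
      have h2 : l₁ + k₁ * q < a₀ + (J + 1) * k := by
        rw [← hq]
        have : a₀ + (J + 1) * k = A + 1 + k := by rw [ha₀]; ring
        rw [this]
        linarith
      have h3 : (k₁ : ℤ) * q < k₁ * (X + k₂ * (J + 1)) := by
        have e : (k₁ : ℤ) * (X + k₂ * (J + 1)) = k₁ * X + (J + 1) * k := by
          rw [hk]
          push_cast
          ring
        rw [e]
        linarith
      exact lt_of_mul_lt_mul_left h3 hk10.le
    refine ⟨(q - X).toNat, ?_, ?_⟩
    · zify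
      rw [Int.toNat_of_nonneg (by omega)]
      linarith
    · rw [Int.toNat_of_nonneg (by omega)]
      rw [show X + (q - X) = q by ring, ← hq]
      ring
  choose! F hF using hpos
  refine ⟨X, ?_⟩
  rw [← card_range (J + 1), ← card_product]
  rw [card_range]
  apply card_le_card_of_injOn (fun p => F p.1 p.2)
  · rintro ⟨l, j⟩ hp
    rw [mem_coe, mem_product] at hp
    obtain ⟨hl, hj⟩ := hp
    simp only at hl hj
    obtain ⟨h1, h2⟩ := hF l hl j hj
    rw [mem_coe, mem_filter, mem_range]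
    refine ⟨h1, ?_⟩
    simp only
    rw [h2]
    have h3 := cnt_le (z := z) hk1 (Nat.lt_succ_iff.mp (mem_range.mp hj)) (hn3 l) (hn1 l) (hn2 l) hH
    have h4 := (hB l hl).2.2
    have h5 : (cnt x y k l : ℝ) ≤ (pc (nn l - j * k) k H' z : ℝ) + ext k z l := by
      exact_mod_cast h3
    linarith
  · rintro ⟨l, j⟩ hp ⟨l', j'⟩ hp' h
    rw [mem_coe, mem_product] at hp hp'
    obtain ⟨hl, hj⟩ := hp
    obtain ⟨hl', hj'⟩ := hp'
    simp only at hl hj hl' hj' h
    have h1 := (hF l hl j hj).2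
    have h2 := (hF l' hl' j' hj').2
    rw [h] at h1
    have h3 : nn l - j * k = nn l' - j' * k := by rw [← h1, ← h2]
    have h4 : nn l ≡ nn l' [ZMOD (k : ℤ)] := by
      have : nn l' = nn l + k * (j' - j) := by linarith
      rw [this]
      exact (Int.modEq_add_fac_self).symm
    have h5 : (l : ℤ) ≡ (l' : ℤ) [ZMOD (k : ℤ)] := (hn3 l).symm.trans (h4.trans (hn3 l'))
    have h6 : l = l' := by
      rw [Int.natCast_modEq_iff] at h5
      have h7 : l % k = l' % k := h5
      rwa [Nat.mod_eq_of_lt (hB l hl).1, Nat.mod_eq_of_lt (hB l' hl').1] at h7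
    subst h6
    have h8 : (j : ℤ) * k = j' * k := by linarith
    have h9 := mul_right_cancel₀ hk0.ne' h8
    have h10 : j = j' := by exact_mod_cast h9
    rw [h10]

end Pool.Agent.P8H75.RP
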