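import Pool.Agent.P8H75.RP.FA1

/-!
# Package FA of the project RP, part 2: sizes
-/

set_option autoImplicit false

namespace Pool.Agent.P8H75.RP

open Finset Pool.Agent.P8H73.RP

theorem sizes (ε : ℝ) (hε : 0 < ε) : ∃ η H₀ : ℝ, 0 < η ∧ η ≤ 1 ∧ 4 ≤ H₀ ∧
    ∀ H s : ℝ, H₀ ≤ H → 1 ≤ s →
      2 ≤ ⌊H ^ (s / 2)⌋₊ ∧ ((⌈H⌉₊ + ⌊η * H⌋₊ + 1 : ℕ) : ℝ) ≤ 2 * H ∧
      ((⌈H⌉₊ + ⌊η * H⌋₊ + 1 : ℕ) : ℝ) / Real.log (⌊H ^ (s / 2)⌋₊ : ℝ) ≤
        (2 / s + ε / 4) * (H / Real.log H) := by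
  set e : ℝ := min ε 1 with he
  have he0 : 0 < e := lt_min hε one_pos
  have he1 : e ≤ 1 := min_le_right _ _
  have heε : e ≤ ε := min_le_left _ _
  set η : ℝ := e / 40 with hη
  have hη0 : 0 < η := by positivity
  have hη1 : η ≤ 1 / 40 := by rw [hη]; linarith
  have h160 : (160 : ℝ) ≤ 4 / η := by
    rw [le_div_iff₀ hη0]
    linarith
  refine ⟨η, Real.exp (4 / η), hη0, by linarith, ?_, ?_⟩
  · have := Real.add_one_le_exp (4 / η)
    linarith
  intro H s hH hs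
  have hHexp := Real.add_one_le_exp (4 / η)
  have hH4 : 4 / η ≤ H := by linarith
  have hH0 : 0 < H := by linarith
  set L := Real.log H with hL
  have hLη : 4 / η ≤ L := by
    rw [hL, Real.le_log_iff_exp_le hH0]
    exact hH
  have hηH : 4 ≤ η * H := by
    rw [div_le_iff₀ hη0] at hH4
    linarith
  have hηL : 4 ≤ η * L := by
    rw [div_le_iff₀ hη0] at hLη
    linarith
  have hL0 : 0 < L := by linarith
  set P := H ^ (s / 2) with hP
  have hPexp : P = Real.exp (L * (s / 2)) := by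
    rw [hP, Real.rpow_def_of_pos hH0]
  have hP2 : 2 ≤ P := by
    rw [hPexp]
    have h1 := Real.add_one_le_exp (L * (s / 2))
    nlinarith
  have hz2 : 2 ≤ ⌊P⌋₊ := Nat.le_floor (by exact_mod_cast hP2)
  have hzP : P / 2 ≤ (⌊P⌋₊ : ℝ) := by
    have := Nat.lt_floor_add_one P
    have h2 : (2 : ℝ) ≤ (⌊P⌋₊ : ℝ) := by exact_mod_cast hz2
    linarith
  have hlogz : s / 2 * L - 1 ≤ Real.log (⌊P⌋₊ : ℝ) := by
    have h1 : Real.log (P / 2) ≤ Real.log (⌊P⌋₊ : ℝ) :=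
      Real.log_le_log (by positivity) hzP
    rw [Real.log_div (by positivity) (by norm_num)] at h1
    have h3 : Real.log P = L * (s / 2) := by rw [hPexp, Real.log_exp]
    have h2 : Real.log 2 < 0.6931471808 := Real.log_two_lt_d9
    linarith
  have hclaim : s * L ≤ 2 * (1 + η) * Real.log (⌊P⌋₊ : ℝ) := by
    have h1 : 2 * (1 + η) * (s / 2 * L - 1) ≤ 2 * (1 + η) * Real.log (⌊P⌋₊ : ℝ) :=
      mul_le_mul_of_nonneg_left hlogz (by positivity)
    have h2 : 4 ≤ s * (η * L) := by nlinarith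
    nlinarith
  have hH' : ((⌈H⌉₊ + ⌊η * H⌋₊ + 1 : ℕ) : ℝ) ≤ (1 + 2 * η) * H := by
    have h1 := Nat.ceil_lt_add_one hH0.le
    have h2 := Nat.floor_le (show 0 ≤ η * H by positivity)
    push_cast
    nlinarith
  refine ⟨hz2, ?_, ?_⟩
  · refine hH'.trans ?_
    nlinarith
  · have hsL : 0 < s * L := by positivity
    have hlz0 : 0 < Real.log (⌊P⌋₊ : ℝ) := Real.log_pos (by
      have h2 : (2 : ℝ) ≤ (⌊P⌋₊ : ℝ) := by exact_mod_cast hz2
      linarith)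
    have h1 : ((⌈H⌉₊ + ⌊η * H⌋₊ + 1 : ℕ) : ℝ) / Real.log (⌊P⌋₊ : ℝ) ≤
        ((1 + 2 * η) * H) * (2 * (1 + η)) / (s * L) := by
      rw [div_le_div_iff₀ hlz0 hsL]
      calc ((⌈H⌉₊ + ⌊η * H⌋₊ + 1 : ℕ) : ℝ) * (s * L)
          ≤ ((1 + 2 * η) * H) * (2 * (1 + η) * Real.log (⌊P⌋₊ : ℝ)) :=
            mul_le_mul hH' hclaim hsL.le (by positivity)
        _ = _ := by ring
    refine h1.trans ?_
    have h2 : ((1 + 2 * η) * H) * (2 * (1 + η)) / (s * L) =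
        ((1 + 2 * η) * (1 + η) * (2 / s)) * (H / L) := by
      field_simp
    rw [h2]
    apply mul_le_mul_of_nonneg_right _ (by positivity)
    have h3 : (2 : ℝ) / s ≤ 2 := by
      rw [div_le_iff₀ (by linarith)]
      linarith
    have h4 : 0 < 2 / s := by positivity
    have h5 : (1 + 2 * η) * (1 + η) ≤ 1 + 5 * η := by nlinarith
    have h6 : (1 + 2 * η) * (1 + η) * (2 / s) ≤ (1 + 5 * η) * (2 / s) :=
      mul_le_mul_of_nonneg_right h5 h4.le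
    have h7 : 5 * η * (2 / s) ≤ 5 * η * 2 := mul_le_mul_of_nonneg_left h3 (by positivity)
    have h8 : 5 * η * 2 ≤ ε / 4 := by
      rw [hη]
      linarith
    linarith

end Pool.Agent.P8H75.RP
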