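import Pool.Agent.N248.RC.Eng
import Pool.Agent.P8H75.RP.Cnt

set_option autoImplicit false
set_option linter.unusedSectionVars false

/-!
# Unions of cells which sample all superlevel sets, from above and from below
-/

namespace Pool.Agent.P8H75.RP

open Finset MeasureTheory Pool.Agent.N248.RC

variable {Y : Type*} [MeasurableSpace Y] (μ : Measure Y) [IsFiniteMeasure μ]
  {ι : Type*} [Fintype ι] {α : Type*} [DecidableEq α]

/-- the union of the cells meets the superlevel sets of samples at least as much as expected -/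
def GoodM (J : Finset α) (k : ℕ) (θ : α → Set Y) (κ : ℝ) (X : ι → Y → ℂ) (m : ℕ) (u t : ℝ)
    (I : Finset α) : Prop :=
  ∀ f : Fin m → ι, 1 / 2 * ((k : ℝ) / J.card) *
      μ.real {y | u < ‖((m : ℝ) : ℂ)⁻¹ * ∑ l, X (f l) y‖} ≤
    μ.real (un θ I ∩ {y | u < ‖((m : ℝ) : ℂ)⁻¹ * ∑ l, X (f l) y‖}) + κ * t

theorem real_biUnion_eq (B : Set Y) (hB : MeasurableSet B) (θ : α → Set Y) (I : Finset α)
    (hθ : ∀ i ∈ I, MeasurableSet (θ i)) (hd : (I : Set α).PairwiseDisjoint θ) :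
    μ.real (un θ I ∩ B) = ∑ i ∈ I, μ.real (θ i ∩ B) := by
  have e : un θ I ∩ B = ⋃ i ∈ I, (θ i ∩ B) := by
    unfold un
    rw [Set.iUnion₂_inter]
  rw [e]
  refine measureReal_biUnion_finset ?_ (fun i hi => (hθ i hi).inter hB)
  intro i hi j hj hij
  exact (hd hi hj hij).mono Set.inter_subset_left Set.inter_subset_left

open Classical in
theorem goodM_count (J : Finset α) (hJ : J.Nonempty) (k : ℕ) (hkJ : k ≤ J.card) (θ : α → Set Y)
    (hθ : ∀ i ∈ J, MeasurableSet (θ i)) (hd : (J : Set α).PairwiseDisjoint θ)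
    (hcov : μ (un θ J)ᶜ = 0) (κ : ℝ) (hκ : 0 < κ)
    (hθκ : ∀ i ∈ J, μ.real (θ i) ≤ κ) (X : ι → Y → ℂ) (hX : ∀ i, Measurable (X i)) (m : ℕ)
    (u t : ℝ) :
    (((powersetCard k J).filter (fun I => ¬ GoodM μ J k θ κ X m u t I)).card : ℝ) ≤
      (Fintype.card ι : ℝ) ^ m * Real.exp (-t) * ((J.card.choose k : ℕ) : ℝ) := by
  set B : (Fin m → ι) → Set Y := fun f => {y | u < ‖((m : ℝ) : ℂ)⁻¹ * ∑ l, X (f l) y‖} with hB
  have hBm : ∀ f, MeasurableSet (B f) := fun f =>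
    measurableSet_lt measurable_const
      ((Finset.measurable_sum _ fun l _ => hX (f l)).const_mul _).norm
  set w : (Fin m → ι) → α → ℝ := fun f i => μ.real (θ i ∩ B f) / κ with hw
  have hcov' : ∀ f, μ.real (B f) = ∑ i ∈ J, μ.real (θ i ∩ B f) := by
    intro f
    rw [← real_biUnion_eq μ (B f) (hBm f) θ J hθ hd]
    unfold Measure.real
    congr 1
    refine (measure_congr ?_)
    have h1 : ∀ᵐ y ∂μ, y ∈ un θ J := by
      rw [ae_iff]
      exact hcov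
    filter_upwards [h1] with y hy
    have e : (y ∈ un θ J ∩ B f) = (y ∈ B f) := by
      rw [Set.mem_inter_iff]
      exact propext ⟨fun h => h.2, fun h => ⟨hy, h⟩⟩
    exact e.symm
  have hsub : (powersetCard k J).filter (fun I => ¬ GoodM μ J k θ κ X m u t I) ⊆
      (univ : Finset (Fin m → ι)).biUnion fun f => (powersetCard k J).filter (fun I =>
        ∑ i ∈ I, w f i + t < 1 / 2 * ((k : ℝ) / J.card) * ∑ i ∈ J, w f i) := by
    intro I hI
    rw [mem_filter] at hI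
    obtain ⟨hI1, hI2⟩ := hI
    unfold GoodM at hI2
    push Not at hI2
    obtain ⟨f, hf⟩ := hI2
    rw [mem_biUnion]
    refine ⟨f, mem_univ _, ?_⟩
    rw [mem_filter]
    refine ⟨hI1, ?_⟩
    have hIJ := (mem_powersetCard.1 hI1).1
    have h1 := real_biUnion_eq μ (B f) (hBm f) θ I (fun i hi => hθ i (hIJ hi))
      (hd.subset (by exact_mod_cast hIJ))
    simp only [hw]
    rw [← sum_div, ← sum_div, ← h1, ← hcov' f, ← mul_div_assoc, lt_div_iff₀ hκ, add_mul,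
      div_mul_cancel₀ _ hκ.ne']
    have h4 : μ.real (un θ I ∩ B f) + κ * t < 1 / 2 * ((k : ℝ) / J.card) * μ.real (B f) := hf
    linarith
  have h1 : (((powersetCard k J).filter (fun I => ¬ GoodM μ J k θ κ X m u t I)).card : ℝ) ≤
      ∑ f : Fin m → ι, (((powersetCard k J).filter (fun I =>
        ∑ i ∈ I, w f i + t < 1 / 2 * ((k : ℝ) / J.card) * ∑ i ∈ J, w f i)).card : ℝ) := by
    exact_mod_cast (card_le_card hsub).trans card_biUnion_le
  refine h1.trans ((sum_le_sum fun f _ => tail_low J hJ k hkJ (w f)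
    (fun i _ => div_nonneg measureReal_nonneg hκ.le) (fun i hi => ?_) t).trans (le_of_eq ?_))
  · rw [div_le_one hκ]
    exact (measureReal_mono Set.inter_subset_left).trans (hθκ i hi)
  · rw [sum_const, card_univ, nsmul_eq_mul, Fintype.card_fun, Fintype.card_fin]
    push_cast
    ring

/-- one level, from below -/
theorem level_low (J : Finset α) (k : ℕ) (hkJ : k ≤ J.card) (θ : α → Set Y) (κ : ℝ)
    (X : ι → Y → ℂ) (hXm : ∀ i, Measurable (X i)) (hX : ∀ i y, ‖X i y‖ ≤ 1) (m : ℕ) (hm : 1 ≤ m)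
    (s t : ℝ) (hs : 0 < s) (hexc : 4 * μ.real Set.univ * Real.exp (-(m * (s / 16) ^ 2 / 17)) ≤ κ)
    (I : Finset α) (hI : GoodM μ J k θ κ X m (11 / 20 * s) t I)
    (w : ι → ℝ) (hw : ∀ i, 0 ≤ w i) (hw1 : ∑ i, w i = 1) (G : Y → ℝ)
    (hG : ∀ y, |G y - Real.sqrt 2 * ‖avg w X y‖| ≤ s / 8) :
    1 / 2 * ((k : ℝ) / J.card) * μ.real {y | s < G y} ≤
      μ.real (un θ I ∩ {y | s / 2 < G y}) + κ * (t + 3) := by
  obtain ⟨f, hf⟩ := sample μ w hw hw1 X hXm hX m hm (s / 16) (by positivity)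
  set Z : Y → ℂ := fun y => ((m : ℝ) : ℂ)⁻¹ * ∑ l, X (f l) y with hZ
  set Ex : Set Y := {y | s / 16 < ‖Z y - avg w X y‖} with hEx
  have hExc : μ.real Ex ≤ κ := hf.trans hexc
  have hs2 : 1.414 ≤ Real.sqrt 2 := Real.le_sqrt_of_sq_le (by norm_num)
  have hs2' : Real.sqrt 2 ≤ 1.4143 := Real.sqrt_le_iff.2 ⟨by norm_num, by norm_num⟩
  have h1 : {y | s < G y} ⊆ {y | 11 / 20 * s < ‖Z y‖} ∪ Ex := by
    intro y hy
    by_cases hye : y ∈ Ex
    · exact Or.inr hye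
    · refine Or.inl ?_
      have hy2 : s < G y := hy
      have hye' : ‖Z y - avg w X y‖ ≤ s / 16 := not_lt.1 hye
      have hGy := abs_le.1 (hG y)
      have h2 : 7 / 8 * s < Real.sqrt 2 * ‖avg w X y‖ := by linarith [hGy.2]
      have h3 : ‖avg w X y‖ ≤ ‖Z y‖ + s / 16 := by
        have := norm_sub_norm_le (avg w X y) (Z y)
        rw [norm_sub_rev] at this
        linarith
      have h4 := norm_nonneg (avg w X y)
      show 11 / 20 * s < ‖Z y‖
      have h5 : Real.sqrt 2 * ‖avg w X y‖ ≤ 1.4143 * ‖avg w X y‖ :=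
        mul_le_mul_of_nonneg_right hs2' h4
      linarith
  have h2 : un θ I ∩ {y | 11 / 20 * s < ‖Z y‖} ⊆ (un θ I ∩ {y | s / 2 < G y}) ∪ Ex := by
    intro y hy
    by_cases hye : y ∈ Ex
    · exact Or.inr hye
    · refine Or.inl ⟨hy.1, ?_⟩
      have hy2 : 11 / 20 * s < ‖Z y‖ := hy.2
      have hye' : ‖Z y - avg w X y‖ ≤ s / 16 := not_lt.1 hye
      have hGy := abs_le.1 (hG y)
      have h3 : ‖Z y‖ ≤ ‖avg w X y‖ + s / 16 := by
        have := norm_sub_norm_le (Z y) (avg w X y)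
        linarith
      have h4 := norm_nonneg (avg w X y)
      have h5 : 1.414 * ‖avg w X y‖ ≤ Real.sqrt 2 * ‖avg w X y‖ :=
        mul_le_mul_of_nonneg_right hs2 h4
      show s / 2 < G y
      linarith [hGy.1]
  have h3 : μ.real {y | s < G y} ≤ μ.real {y | 11 / 20 * s < ‖Z y‖} + μ.real Ex :=
    (measureReal_mono h1).trans (measureReal_union_le _ _)
  have h4 : μ.real (un θ I ∩ {y | 11 / 20 * s < ‖Z y‖}) ≤
      μ.real (un θ I ∩ {y | s / 2 < G y}) + μ.real Ex :=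
    (measureReal_mono h2).trans (measureReal_union_le _ _)
  have h5 : 1 / 2 * ((k : ℝ) / J.card) * μ.real {y | 11 / 20 * s < ‖Z y‖} ≤
      μ.real (un θ I ∩ {y | 11 / 20 * s < ‖Z y‖}) + κ * t := hI f
  have hk1 : (k : ℝ) / J.card ≤ 1 := by
    have : (k : ℝ) ≤ J.card := by exact_mod_cast hkJ
    exact div_le_one_of_le₀ this (Nat.cast_nonneg _)
  have hk0 : 0 ≤ (k : ℝ) / J.card := by positivity
  have hE0 : 0 ≤ μ.real Ex := measureReal_nonneg
  have h6 : 1 / 2 * ((k : ℝ) / J.card) * μ.real {y | s < G y} ≤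
      1 / 2 * ((k : ℝ) / J.card) * (μ.real {y | 11 / 20 * s < ‖Z y‖} + μ.real Ex) :=
    mul_le_mul_of_nonneg_left h3 (by positivity)
  have h7 : 1 / 2 * ((k : ℝ) / J.card) * μ.real Ex ≤ μ.real Ex := by nlinarith
  nlinarith

/-- the union of the cells samples all superlevel sets -/
def GoodT (J : Finset α) (k : ℕ) (θ : α → Set Y) (κ : ℝ) (X : ι → Y → ℂ) (Lg Li a : ℝ) (K : ℕ)
    (I : Finset α) : Prop :=
  ∀ j < K, GoodL μ J k θ κ X (mm Lg j) (11 / 20 * (1 / 2 : ℝ) ^ (j + 1)) (tt Lg Li a j) I ∧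
    GoodM μ J k θ κ X (mm Lg j) (11 / 20 * (1 / 2 : ℝ) ^ (j + 1)) (tt Lg Li a j) I

open Classical in
theorem goodT_count (J : Finset α) (hJ : J.Nonempty) (k : ℕ) (hkJ : k ≤ J.card) (θ : α → Set Y)
    (hθ : ∀ i ∈ J, MeasurableSet (θ i)) (hd : (J : Set α).PairwiseDisjoint θ)
    (hcov : μ (un θ J)ᶜ = 0) (κ : ℝ) (hκ : 0 < κ)
    (hθκ : ∀ i ∈ J, μ.real (θ i) ≤ κ) (X : ι → Y → ℂ) (hX : ∀ i, Measurable (X i)) (Lg Li a : ℝ)
    (hLi : (Fintype.card ι : ℝ) ≤ Real.exp Li) (K : ℕ) :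
    (((powersetCard k J).filter (fun I => ¬ GoodT μ J k θ κ X Lg Li a K I)).card : ℝ) ≤
      2 * K * Real.exp (-a) * ((J.card.choose k : ℕ) : ℝ) := by
  have hsub : (powersetCard k J).filter (fun I => ¬ GoodT μ J k θ κ X Lg Li a K I) ⊆
      (range K).biUnion fun j =>
        (powersetCard k J).filter (fun I => ¬ GoodL μ J k θ κ X (mm Lg j)
          (11 / 20 * (1 / 2 : ℝ) ^ (j + 1)) (tt Lg Li a j) I) ∪
        (powersetCard k J).filter (fun I => ¬ GoodM μ J k θ κ X (mm Lg j)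
          (11 / 20 * (1 / 2 : ℝ) ^ (j + 1)) (tt Lg Li a j) I) := by
    intro I hI
    rw [mem_filter] at hI
    obtain ⟨hI1, hI2⟩ := hI
    unfold GoodT at hI2
    push Not at hI2
    obtain ⟨j, hj, hj2⟩ := hI2
    rw [mem_biUnion]
    refine ⟨j, mem_range.2 hj, ?_⟩
    rw [mem_union, mem_filter, mem_filter]
    by_cases h : GoodL μ J k θ κ X (mm Lg j) (11 / 20 * (1 / 2 : ℝ) ^ (j + 1)) (tt Lg Li a j) I
    · exact Or.inr ⟨hI1, hj2 h⟩
    · exact Or.inl ⟨hI1, h⟩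
  have h1 : (((powersetCard k J).filter (fun I => ¬ GoodT μ J k θ κ X Lg Li a K I)).card : ℝ) ≤
      ∑ j ∈ range K, ((((powersetCard k J).filter (fun I => ¬ GoodL μ J k θ κ X (mm Lg j)
          (11 / 20 * (1 / 2 : ℝ) ^ (j + 1)) (tt Lg Li a j) I)).card : ℝ) +
        (((powersetCard k J).filter (fun I => ¬ GoodM μ J k θ κ X (mm Lg j)
          (11 / 20 * (1 / 2 : ℝ) ^ (j + 1)) (tt Lg Li a j) I)).card : ℝ)) := by
    have h2 := (card_le_card hsub).trans card_biUnion_le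
    have h3 := h2.trans (sum_le_sum fun j _ => card_union_le _ _)
    exact_mod_cast h3
  have hC : (0 : ℝ) ≤ ((J.card.choose k : ℕ) : ℝ) := Nat.cast_nonneg _
  have h3 : ∀ j, (Fintype.card ι : ℝ) ^ mm Lg j * Real.exp (-tt Lg Li a j) ≤
      Real.exp (-a) := by
    intro j
    have h3 : (Fintype.card ι : ℝ) ^ mm Lg j ≤ Real.exp (mm Lg j * Li) := by
      rw [Real.exp_nat_mul]
      exact pow_le_pow_left₀ (Nat.cast_nonneg _) hLi _
    calc (Fintype.card ι : ℝ) ^ mm Lg j * Real.exp (-tt Lg Li a j)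
        ≤ Real.exp (mm Lg j * Li) * Real.exp (-tt Lg Li a j) :=
          mul_le_mul_of_nonneg_right h3 (Real.exp_pos _).le
      _ = Real.exp (-a) := by
          rw [← Real.exp_add]
          congr 1
          unfold tt
          ring
  refine h1.trans ((sum_le_sum (g := fun _ => 2 * Real.exp (-a) * ((J.card.choose k : ℕ) : ℝ))
    fun j _ => ?_).trans (le_of_eq ?_))
  · have h4 := (goodL_count μ J hJ k θ hθ hd κ hκ hθκ X hX (mm Lg j)
      (11 / 20 * (1 / 2 : ℝ) ^ (j + 1)) (tt Lg Li a j)).trans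
      (mul_le_mul_of_nonneg_right (h3 j) hC)
    have h5 := (goodM_count μ J hJ k hkJ θ hθ hd hcov κ hκ hθκ X hX (mm Lg j)
      (11 / 20 * (1 / 2 : ℝ) ^ (j + 1)) (tt Lg Li a j)).trans
      (mul_le_mul_of_nonneg_right (h3 j) hC)
    linarith
  · rw [sum_const, card_range, nsmul_eq_mul]
    ring

/-- all levels, from above and from below -/
theorem levels (J : Finset α) (k : ℕ) (hkJ : k ≤ J.card) (θ : α → Set Y) (κ : ℝ)
    (X : ι → Y → ℂ) (hXm : ∀ i, Measurable (X i)) (hX : ∀ i y, ‖X i y‖ ≤ 1)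
    (Lg Li a : ℝ) (hLg : 1 ≤ Lg) (K : ℕ)
    (hexc : 4 * μ.real Set.univ * Real.exp (-Lg) ≤ κ)
    (I : Finset α) (hI : GoodT μ J k θ κ X Lg Li a K I)
    (w : ι → ℝ) (hw : ∀ i, 0 ≤ w i) (hw1 : ∑ i, w i = 1) (G : Y → ℝ)
    (hG : ∀ y, |G y - Real.sqrt 2 * ‖avg w X y‖| ≤ (1 / 2 : ℝ) ^ K / 8) (j : ℕ) (hj : j < K) :
    μ.real (un θ I ∩ {y | (1 / 2 : ℝ) ^ (j + 1) < G y}) ≤
      2 * ((k : ℝ) / J.card) * μ.real {y | (1 / 2 : ℝ) ^ (j + 1) / 2 < G y} +
        κ * (tt Lg Li a j + 3) ∧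
    1 / 2 * ((k : ℝ) / J.card) * μ.real {y | (1 / 2 : ℝ) ^ (j + 1) < G y} ≤
      μ.real (un θ I ∩ {y | (1 / 2 : ℝ) ^ (j + 1) / 2 < G y}) + κ * (tt Lg Li a j + 3) := by
  have hm1 : (4352 * 4 ^ (j + 1) * Lg : ℝ) ≤ mm Lg j := Nat.le_ceil _
  have h41 : (1 : ℝ) ≤ 4 ^ (j + 1) := one_le_pow₀ (by norm_num)
  have hm0 : 1 ≤ mm Lg j := by
    have : (1 : ℝ) ≤ (mm Lg j : ℝ) := by nlinarith
    exact_mod_cast this
  have hex2 : 4 * μ.real Set.univ *
      Real.exp (-(mm Lg j * ((1 / 2 : ℝ) ^ (j + 1) / 16) ^ 2 / 17)) ≤ κ := by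
    refine le_trans ?_ hexc
    refine mul_le_mul_of_nonneg_left (Real.exp_le_exp.2 (neg_le_neg ?_)) (by positivity)
    have e : ((1 / 2 : ℝ) ^ (j + 1) / 16) ^ 2 = ((4 : ℝ) ^ (j + 1))⁻¹ / 256 := by
      rw [div_pow, ← pow_mul, mul_comm (j + 1) 2, pow_mul, ← inv_pow]
      norm_num
    rw [e]
    have h4p : (0 : ℝ) < 4 ^ (j + 1) := by positivity
    rw [show (mm Lg j : ℝ) * (((4 : ℝ) ^ (j + 1))⁻¹ / 256) / 17 =
      (mm Lg j : ℝ) / (4352 * 4 ^ (j + 1)) by field_simp; norm_num]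
    rw [le_div_iff₀ (by positivity)]
    linarith
  have hGj : ∀ y, |G y - Real.sqrt 2 * ‖avg w X y‖| ≤ (1 / 2 : ℝ) ^ (j + 1) / 8 := by
    intro y
    refine (hG y).trans ?_
    have h1 : (1 / 2 : ℝ) ^ K ≤ (1 / 2 : ℝ) ^ (j + 1) :=
      pow_le_pow_of_le_one (by norm_num) (by norm_num) hj
    linarith
  exact ⟨level μ J k hkJ θ κ X hXm hX (mm Lg j) hm0 _ _ (by positivity) hex2 I (hI j hj).1 w hw
    hw1 G hGj, level_low μ J k hkJ θ κ X hXm hX (mm Lg j) hm0 _ _ (by positivity) hex2 I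
    (hI j hj).2 w hw hw1 G hGj⟩

end Pool.Agent.P8H75.RP
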