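import Pool.Agent.P8H75.RP.Box
import Pool.Agent.N248.RC.Fin

set_option autoImplicit false
set_option linter.unusedSectionVars false

/-!
# The lower bound for a unit cube and the bound at the critical exponent
-/

namespace Pool.Agent.P8H75.RP

open MeasureTheory Set Pool.Agent.N248.RC
open Pool.Agent.N248.RR (phase_low)
open scoped ENNReal RealInnerProductSpace

variable {n : ℕ}

theorem mc_one (n : ℕ) : 1 ≤ (mc n).real Set.univ := by
  have h := cell_mc (n := n) 1 le_rfl (fun _ => 0)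
  rw [Nat.cast_one, Real.one_rpow] at h
  rw [← h]
  exact measureReal_mono (subset_univ _)

theorem opP_ne_top (p : ℝ) (hp : 0 ≤ p) (S : Set (EuclideanSpace ℝ (Fin (n + 1))))
    (hS : volume S ≠ ⊤) : opP p S ≠ ⊤ := by
  have h1 : opP p S ≤ ENNReal.ofReal ((mc n).real Set.univ) ^ p * volume S := by
    refine iSup₂_le fun f hf => ?_
    have h2 : ∫⁻ x in S, ‖Eo (mc n) (ker (Pa n)) f x‖ₑ ^ p ≤
        ∫⁻ _ in S, ENNReal.ofReal ((mc n).real Set.univ) ^ p := by
      refine lintegral_mono fun x => ?_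
      refine ENNReal.rpow_le_rpow ?_ hp
      rw [← ofReal_norm_eq_enorm]
      exact ENNReal.ofReal_le_ofReal (F_bound f hf.2 x)
    rw [setLIntegral_const] at h2
    exact h2
  refine (h1.trans_lt ?_).ne
  exact ENNReal.mul_lt_top (ENNReal.rpow_lt_top_of_nonneg hp ENNReal.ofReal_ne_top) hS.lt_top

theorem near_low (y : EuclideanSpace ℝ (Fin (n + 1))) :
    ∃ f : EuclideanSpace ℝ (Fin n) → ℂ, Measurable f ∧ (∀ ξ, ‖f ξ‖ ≤ 1) ∧
      ∀ x ∈ Metric.ball y (1 / LL n), (1 : ℝ) / 2 ≤ ‖Eo (mc n) (ker (Pa n)) f x‖ := by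
  refine ⟨fun ξ => (starRingEnd ℂ) (ker (Pa n) y ξ), ?_, ?_, ?_⟩
  · have h1 : Measurable fun ξ => ker (Pa n) y ξ := by
      unfold ker
      exact Pool.Agent.N248.RR.ex_cont.measurable.comp (Pa_meas.inner measurable_const)
    exact Complex.continuous_conj.measurable.comp h1
  · intro ξ
    rw [RCLike.norm_conj]
    exact ker_norm _ _ _
  · intro x hx
    rw [phase_diff]
    have h1 := mc_one n
    refine le_trans (by linarith) (phase_low (mc n) (fun ξ => ⟪Pa n ξ, x - y⟫)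
      (Pa_meas.inner measurable_const) 0 (Filter.Eventually.of_forall fun ξ => ?_))
    rw [sub_zero]
    refine (abs_real_inner_le_norm _ _).trans ?_
    have h2 : ‖Pa n ξ‖ ≤ LL n := Pa_bound ξ
    have h3 : ‖x - y‖ ≤ 1 / LL n := by
      rw [mem_ball_iff_norm] at hx
      exact hx.le
    have h4 := LL_pos n
    calc ‖Pa n ξ‖ * ‖x - y‖ ≤ LL n * (1 / LL n) :=
          mul_le_mul h2 h3 (norm_nonneg _) h4.le
      _ = 1 := by field_simp

theorem opP_low (n : ℕ) : ∃ c : ℝ, 0 < c ∧ c ≤ 1 ∧ ∀ (R : ℕ)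
    (I : Finset (Fin (n + 1) → Fin (2 * R))), I.Nonempty → ∀ p : ℝ, 2 ≤ p →
      ENNReal.ofReal (c ^ p) ≤ opP p (un (bx R) I) := by
  have hL := LL_pos n
  set β : ℝ := volume.real (Metric.ball (0 : EuclideanSpace ℝ (Fin (n + 1))) (1 / LL n)) with hβ
  have hβ0 : 0 < β := ENNReal.toReal_pos
    (Metric.measure_ball_pos volume 0 (by positivity)).ne' measure_ball_lt_top.ne
  have hm0 : 0 < min β 1 := lt_min hβ0 one_pos
  refine ⟨min β 1 / 2, by positivity, ?_, ?_⟩
  · have := min_le_right β 1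
    linarith
  intro R I hI p hp
  obtain ⟨j, hj⟩ := hI
  set y : EuclideanSpace ℝ (Fin (n + 1)) :=
    WithLp.toLp 2 fun i => ((j i : ℕ) : ℝ) + 1 / 2 - R with hy
  have hLL : 2 ≤ LL n := by
    have h3 := Real.pi_gt_three
    have hn0 : (0 : ℝ) ≤ n := Nat.cast_nonneg n
    have : (1 : ℝ) ≤ (n + 1) ^ 2 := by nlinarith
    unfold LL
    nlinarith
  have hsub : Metric.ball y (1 / LL n) ⊆ un (bx R) I := by
    intro x hx
    unfold un
    refine mem_iUnion₂.2 ⟨j, hj, fun i => ?_⟩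
    have h1 : |x i - y i| < 1 / 2 := by
      have h2 : ‖(x - y) i‖ ≤ ‖x - y‖ := PiLp.norm_apply_le (x - y) i
      rw [mem_ball_iff_norm] at hx
      have h3 : 1 / LL n ≤ 1 / 2 := one_div_le_one_div_of_le (by norm_num) hLL
      rw [Real.norm_eq_abs] at h2
      have h4 : (x - y) i = x i - y i := rfl
      rw [h4] at h2
      linarith
    have h5 : y i = ((j i : ℕ) : ℝ) + 1 / 2 - R := rfl
    rw [h5] at h1
    have h6 := abs_lt.1 h1
    constructor <;> linarith [h6.1, h6.2]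
  obtain ⟨f, hfm, hf1, hlow⟩ := near_low y
  refine le_trans ?_ (le_opP p (un (bx R) I) f hfm hf1)
  have h1 : ∫⁻ _ in Metric.ball y (1 / LL n), ENNReal.ofReal ((1 / 2 : ℝ) ^ p) ≤
      ∫⁻ x in un (bx R) I, ‖Eo (mc n) (ker (Pa n)) f x‖ₑ ^ p := by
    refine le_trans ?_ (lintegral_mono_set hsub)
    refine setLIntegral_mono_ae ((F_meas f hfm).enorm.pow_const p).aemeasurable
      (Filter.Eventually.of_forall fun x hx => ?_)
    rw [← ofReal_norm_eq_enorm, ENNReal.ofReal_rpow_of_nonneg (norm_nonneg _) (by linarith)]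
    exact ENNReal.ofReal_le_ofReal (Real.rpow_le_rpow (by norm_num) (hlow x hx) (by linarith))
  refine le_trans ?_ h1
  rw [setLIntegral_const]
  have h2 : volume (Metric.ball y (1 / LL n)) = ENNReal.ofReal β := by
    rw [hβ, Measure.real, ENNReal.ofReal_toReal measure_ball_lt_top.ne,
      Measure.addHaar_ball_center]
  rw [h2, ← ENNReal.ofReal_mul (by positivity)]
  refine ENNReal.ofReal_le_ofReal ?_
  have h3 : (min β 1 / 2) ^ p = (1 / 2 : ℝ) ^ p * (min β 1) ^ p := by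
    rw [← Real.mul_rpow (by norm_num) hm0.le]
    congr 1
    ring
  rw [h3]
  refine mul_le_mul_of_nonneg_left ?_ (by positivity)
  have h4 : (min β 1) ^ p ≤ (min β 1) ^ (1 : ℝ) :=
    Real.rpow_le_rpow_of_exponent_ge hm0 (min_le_right _ _) (by linarith)
  rw [Real.rpow_one] at h4
  exact h4.trans (min_le_left _ _)

/-- the bound at the critical exponent from the Stein-Tomas argument -/
theorem crit_ball (hn : 1 ≤ n) : ∃ C : ℝ, 0 ≤ C ∧ ∀ R : ℝ, 2 ≤ R →
    ∀ f : EuclideanSpace ℝ (Fin n) → ℂ, Measurable f → (∀ ξ, ‖f ξ‖ ≤ 1) →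
      ∫ x in Metric.ball 0 R, ‖Eo (mc n) (ker (Pa n)) f x‖ ^ (2 * ((n : ℝ) + 1) / n) ≤
        C * (R ^ (1 / 2 : ℝ) * Real.log R) := by
  obtain ⟨K₀, hK₀, hWk⟩ := Pa_Wk hn
  obtain ⟨B0, hB0, hLt⟩ := Pa_Lt (n := n)
  have hv := V0_pos n
  set p : ℝ := 2 * ((n : ℝ) + 1) / n with hp
  have hp2 : 2 ≤ p := pc_two hn
  have hp0 : 0 < p := by linarith
  have hn0 : (0 : ℝ) < n := by exact_mod_cast hn
  set c0 : ℝ := Real.log (V0 n) with hc0
  have hc00 : 0 ≤ c0 := Real.log_nonneg hv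
  set CJ : ℝ := 4 * c0 + 2 * n + 2 with hCJ
  have hCJ0 : 0 ≤ CJ := by positivity
  set v : ℝ := (mc n).real Set.univ with hvd
  have hv0 : 0 ≤ v := measureReal_nonneg
  refine ⟨2 * (B0 * v) + CJ * (2 * K₀) ^ p, by positivity, fun R hR f hf hf1 => ?_⟩
  have hℓ := log_half R hR
  set ℓ := Real.log R with hℓd
  have hR0 : (0 : ℝ) < R := by linarith
  have hR1 : (1 : ℝ) ≤ R := by linarith
  set ν := (volume : Measure (EuclideanSpace ℝ (Fin (n + 1)))).restrict (Metric.ball 0 R) with hν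
  haveI : IsFiniteMeasure ν :=
    ⟨by rw [hν, Measure.restrict_apply_univ]; exact measure_ball_lt_top⟩
  set F := Eo (mc n) (ker (Pa n)) f with hF
  have hFm : Measurable F := F_meas f hf
  have hl2 := Real.log_two_gt_d9
  have hl2' := Real.log_two_lt_d9
  set b : ℝ := R ^ (-(n : ℝ)) with hb
  have hb0 : 0 < b := Real.rpow_pos_of_pos hR0 _
  set J : ℕ := ⌈(c0 + n * ℓ) / Real.log 2⌉₊ with hJ
  have hnℓ : 0 ≤ n * ℓ := by positivity
  have hJ1 : (c0 + n * ℓ) / Real.log 2 ≤ J := Nat.le_ceil _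
  have hJ2 : (J : ℝ) ≤ CJ * ℓ := by
    have h1 : (J : ℝ) ≤ (c0 + n * ℓ) / Real.log 2 + 1 :=
      (Nat.ceil_lt_add_one (by positivity)).le
    have h0 : 0 ≤ c0 + n * ℓ := by linarith
    have h2 : (c0 + n * ℓ) / Real.log 2 ≤ 2 * (c0 + n * ℓ) := by
      rw [div_le_iff₀ (by linarith)]
      have h4 := mul_le_mul_of_nonneg_left (show (1 : ℝ) / 2 ≤ Real.log 2 by linarith) h0
      linarith
    have h3 := dbl c0 ℓ hc00 hℓ
    have e1 : CJ * ℓ = 2 * (2 * c0 * ℓ) + 2 * (n * ℓ) + 2 * ℓ := by rw [hCJ]; ring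
    rw [e1]
    linarith
  have h2J : V0 n ≤ 2 ^ J * b := by
    have h1 : c0 + n * ℓ ≤ J * Real.log 2 := by
      rwa [div_le_iff₀ (by linarith)] at hJ1
    have h2 := Real.exp_le_exp.2 h1
    rw [Real.exp_add, hc0, Real.exp_log (by linarith), ← Real.log_pow (2 : ℝ) J,
      Real.exp_log (show (0 : ℝ) < 2 ^ J by positivity),
      mul_comm (n : ℝ) ℓ, hℓd, ← Real.rpow_def_of_pos hR0] at h2
    have h3 : V0 n = (V0 n * R ^ (n : ℝ)) * b := by
      rw [hb, mul_assoc, ← Real.rpow_add hR0]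
      simp
    rw [h3]
    exact mul_le_mul_of_nonneg_right h2 hb0.le
  have hFb : ∀ x, ‖F x‖ ≤ 2 ^ J * b := by
    intro x
    refine (F_bound f hf1 x).trans (le_trans ?_ h2J)
    unfold V0
    linarith
  have hQ : ∫ x, ‖F x‖ ^ 2 ∂ν ≤ B0 * R * v := by
    refine (hLt R hR1 f hf hf1).trans ?_
    refine mul_le_mul_of_nonneg_left ?_ (by positivity)
    refine (integral_mono_of_nonneg (Filter.Eventually.of_forall fun y => by positivity)
      (integrable_const (1 : ℝ)) (Filter.Eventually.of_forall fun y =>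
        pow_le_one₀ (norm_nonneg _) (hf1 y))).trans (le_of_eq ?_)
    rw [integral_const, smul_eq_mul, mul_one]
  set Kc : ℝ := K₀ * R ^ ((n : ℝ) / (4 * (n + 1))) with hKc
  have hKc0 : 0 ≤ Kc := by positivity
  have hlev : ∀ l, b ≤ l → ν.real {x | l < ‖F x‖} ≤ (Kc / l) ^ p := by
    intro l hl
    have hl0 : 0 < l := hb0.trans_le hl
    set G : Set (EuclideanSpace ℝ (Fin (n + 1))) := {x | l < ‖F x‖} with hG
    have hGm : MeasurableSet G := measurableSet_lt measurable_const hFm.norm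
    have h1 := hWk R hR1 f hf hf1 G hGm
    rw [← hKc] at h1
    have hint : Integrable (fun x => ‖F x‖) ν := by
      have := F_int f hf hf1 1 zero_le_one (Metric.ball 0 R) measure_ball_lt_top.ne
      simpa using this
    have h2 : l * ν.real G ≤ ∫ x in G, ‖F x‖ ∂ν := by
      have h3 : ∫ _ in G, l ∂ν ≤ ∫ x in G, ‖F x‖ ∂ν := by
        refine setIntegral_mono_on (integrable_const l) hint.integrableOn hGm fun x hx => ?_
        exact le_of_lt hx
      rw [setIntegral_const, smul_eq_mul, mul_comm] at h3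
      exact h3
    have h3 := h2.trans h1
    rcases (measureReal_nonneg (μ := ν) (s := G)).eq_or_lt with h0 | h0
    · rw [← h0]
      positivity
    · have h4 : (ν.real G) ^ (1 / p) ≤ Kc / l := by
        rw [le_div_iff₀ hl0]
        have h5 : ν.real G = (ν.real G) ^ (1 / p) * (ν.real G) ^ (1 - 1 / p) := by
          rw [← Real.rpow_add h0]
          simp
        have h6 : 0 < (ν.real G) ^ (1 - 1 / p) := Real.rpow_pos_of_pos h0 _
        refine le_of_mul_le_mul_right ?_ h6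
        calc (ν.real G) ^ (1 / p) * l * (ν.real G) ^ (1 - 1 / p) = l * ν.real G := by
              conv_rhs => rw [h5]
              ring
          _ ≤ Kc * (ν.real G) ^ (1 - 1 / p) := h3
      have h7 := Real.rpow_le_rpow (by positivity) h4 hp0.le
      rw [← Real.rpow_mul h0.le, one_div_mul_cancel hp0.ne', Real.rpow_one] at h7
      exact h7
  have h1 := strong ν F hFm p Kc b (B0 * R * v) J hp2 hKc0 hb0 hFb hQ hlev
  refine h1.trans ?_
  have hRh : 1 ≤ R ^ (1 / 2 : ℝ) := Real.one_le_rpow hR1 (by norm_num)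
  have hpn : p - 2 = 2 / n := by
    rw [hp]
    field_simp
    ring
  have h2 : b ^ (p - 2) * (B0 * R * v) ≤ 2 * (B0 * v) * (R ^ (1 / 2 : ℝ) * ℓ) := by
    have h3 : b ^ (p - 2) * R ≤ 1 := by
      rw [hb, ← Real.rpow_mul hR0.le, hpn]
      have e1 : -(n : ℝ) * (2 / n) = -2 := by field_simp
      rw [e1, Real.rpow_neg hR0.le, Real.rpow_two, inv_mul_le_iff₀ (by positivity)]
      nlinarith
    have h4 : (1 : ℝ) ≤ 2 * (R ^ (1 / 2 : ℝ) * ℓ) := by nlinarith
    have h5 : 0 ≤ B0 * v := by positivity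
    calc b ^ (p - 2) * (B0 * R * v) = (b ^ (p - 2) * R) * (B0 * v) := by ring
      _ ≤ 1 * (B0 * v) := mul_le_mul_of_nonneg_right h3 h5
      _ ≤ (2 * (R ^ (1 / 2 : ℝ) * ℓ)) * (B0 * v) := mul_le_mul_of_nonneg_right h4 h5
      _ = _ := by ring
  have h3 : (J : ℝ) * (2 * Kc) ^ p ≤ CJ * (2 * K₀) ^ p * (R ^ (1 / 2 : ℝ) * ℓ) := by
    have e1 : (2 * Kc) ^ p = (2 * K₀) ^ p * R ^ (1 / 2 : ℝ) := by
      rw [hKc, ← mul_assoc, Real.mul_rpow (by positivity) (by positivity),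
        ← Real.rpow_mul hR0.le]
      congr 2
      rw [hp]
      field_simp
      norm_num
    rw [e1]
    have h4 : 0 ≤ (2 * K₀) ^ p * R ^ (1 / 2 : ℝ) := by positivity
    calc (J : ℝ) * ((2 * K₀) ^ p * R ^ (1 / 2 : ℝ)) ≤
          (CJ * ℓ) * ((2 * K₀) ^ p * R ^ (1 / 2 : ℝ)) := mul_le_mul_of_nonneg_right hJ2 h4
      _ = _ := by ring
  calc _ ≤ 2 * (B0 * v) * (R ^ (1 / 2 : ℝ) * ℓ) + CJ * (2 * K₀) ^ p * (R ^ (1 / 2 : ℝ) * ℓ) :=
        add_le_add h2 h3
    _ = _ := by ring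

end Pool.Agent.P8H75.RP
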