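import Pool.Agent.P8H75.RP.Disc

set_option autoImplicit false
set_option linter.unusedSectionVars false

/-!
# The comparison for one set of cells
-/

namespace Pool.Agent.P8H75.RP

open MeasureTheory Set Pool.Agent.N248.RC

variable {n : ℕ}

/-- the comparison of superlevel sets and powers on `S` and on `Ω` -/
def Cmp (n : ℕ) (C D E τ κ l₀ : ℝ) (S Ω : Set (EuclideanSpace ℝ (Fin (n + 1)))) : Prop :=
  ∀ f : EuclideanSpace ℝ (Fin n) → ℂ, Measurable f → (∀ ξ, ‖f ξ‖ ≤ 1) →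
    (∀ l : ℝ, l₀ < l →
      volume.real (S ∩ {x | l < ‖Eo (mc n) (ker (Pa n)) f x‖}) ≤
          2 * (τ * volume.real (Ω ∩ {x | l / 4 < ‖Eo (mc n) (ker (Pa n)) f x‖})) +
            κ * D / l ^ 2 ∧
        τ * volume.real (Ω ∩ {x | l < ‖Eo (mc n) (ker (Pa n)) f x‖}) ≤
          2 * volume.real (S ∩ {x | l / 4 < ‖Eo (mc n) (ker (Pa n)) f x‖}) +
            κ * (2 * D) / l ^ 2) ∧
    (∀ p : ℝ, 2 ≤ p →
      ∫ x in S, ‖Eo (mc n) (ker (Pa n)) f x‖ ^ p ≤
          4 * 4 ^ p * (τ * ∫ x in Ω, ‖Eo (mc n) (ker (Pa n)) f x‖ ^ p) + C ^ p * (κ * E) ∧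
        τ * ∫ x in Ω, ‖Eo (mc n) (ker (Pa n)) f x‖ ^ p ≤
          4 * 4 ^ p * (∫ x in S, ‖Eo (mc n) (ker (Pa n)) f x‖ ^ p) + C ^ p * (κ * E))

theorem T_le (Lg Li a : ℝ) (hLg : 1 ≤ Lg) (hLi : 0 ≤ Li) (ha : 0 ≤ a) (j : ℕ) :
    tt Lg Li a j + 3 ≤ (17412 * Lg * Li + a + 3) * 4 ^ j := by
  have hm2 : (mm Lg j : ℝ) ≤ 4352 * 4 ^ (j + 1) * Lg + 1 := by
    have := Nat.ceil_lt_add_one (show (0 : ℝ) ≤ 4352 * 4 ^ (j + 1) * Lg by positivity)
    exact this.le
  have h41 : (1 : ℝ) ≤ 4 ^ j := one_le_pow₀ (by norm_num)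
  have hm3 : (mm Lg j : ℝ) ≤ 17412 * Lg * 4 ^ j := by
    have : (1 : ℝ) ≤ 4 ^ j * Lg := by nlinarith
    rw [pow_succ] at hm2
    nlinarith
  have h5 : (mm Lg j : ℝ) * Li ≤ 17412 * Lg * 4 ^ j * Li := mul_le_mul_of_nonneg_right hm3 hLi
  have h6 : a + 3 ≤ (a + 3) * 4 ^ j := le_mul_of_one_le_right (by linarith) h41
  unfold tt
  nlinarith

theorem cmp_of_good {α : Type*} [DecidableEq α] (R : ℝ) (hR : 0 < R) (J : Finset α) (k : ℕ)
    (hkJ : k ≤ J.card) (θ : α → Set (EuclideanSpace ℝ (Fin (n + 1))))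
    (hθ : ∀ i ∈ J, MeasurableSet (θ i)) (hsub : un θ J ⊆ Metric.ball 0 R) (κ : ℝ) (hκ : 0 < κ)
    (M : ℕ) (hM : 1 ≤ M) (K : ℕ) (hMK : LL n / M * R ≤ (1 / 2 : ℝ) ^ K / 8)
    (Lg Li a : ℝ) (hLg : 1 ≤ Lg) (hLi : 0 ≤ Li) (ha : 0 ≤ a)
    (hexc : 4 * (volume.restrict (un θ J)).real Set.univ * Real.exp (-Lg) ≤ κ)
    (hK : (1 / 4 : ℝ) ^ K * (volume.restrict (un θ J)).real Set.univ ≤ κ)
    (I : Finset α) (hIJ : I ⊆ J)
    (hI : GoodT (volume.restrict (un θ J)) J k θ κ (Ab n R M) Lg Li a K I) :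
    Cmp n (V0 n) ((17412 * Lg * Li + a + 3) * V0 n ^ 2)
      (2 * (K * (17412 * Lg * Li + a + 3)) + 1) ((k : ℝ) / J.card) κ ((1 / 2 : ℝ) ^ K * V0 n)
      (un θ I) (un θ J) := by
  set Ω := un θ J with hΩ
  set S := un θ I with hS
  set Q : ℝ := 17412 * Lg * Li + a + 3 with hQ
  have hQ0 : 0 ≤ Q := by positivity
  have hΩm : MeasurableSet Ω := Finset.measurableSet_biUnion _ fun i hi => hθ i hi
  have hSm : MeasurableSet S := Finset.measurableSet_biUnion _ fun i hi => hθ i (hIJ hi)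
  have hSΩ : S ⊆ Ω := by
    refine iUnion₂_subset fun i hi => ?_
    exact subset_biUnion_of_mem (u := θ) (show i ∈ (J : Set α) from hIJ hi)
  have hfin : volume Ω < ⊤ := (measure_mono hsub).trans_lt measure_ball_lt_top
  haveI : IsFiniteMeasure (volume.restrict Ω) :=
    ⟨by rw [Measure.restrict_apply_univ]; exact hfin⟩
  have hv := V0_pos n
  have hv0 : 0 < V0 n := by linarith
  have hτ : 0 ≤ (k : ℝ) / J.card := by positivity
  have hτ1 : (k : ℝ) / J.card ≤ 1 := by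
    have : (k : ℝ) ≤ J.card := by exact_mod_cast hkJ
    exact div_le_one_of_le₀ this (Nat.cast_nonneg _)
  intro f hf hf1
  set F : EuclideanSpace ℝ (Fin (n + 1)) → ℂ := Eo (mc n) (ker (Pa n)) f with hF
  set G : EuclideanSpace ℝ (Fin (n + 1)) → ℝ := fun y => ‖tr (mc n) (kr n R) (gg M f) y‖ with hG
  have hGm : Measurable G := (tr_meas' M R f hf).norm
  have hG0 : ∀ y, 0 ≤ G y := fun y => norm_nonneg _
  have hG1 : ∀ y, G y ≤ 1 := tr_le_one M R f hf hf1
  have hFG : ∀ y ∈ Ω, ‖F y‖ = V0 n * G y := fun y hy => gg_eq M hM R f y (hsub hy)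
  obtain ⟨w, hw0, hw1, hw⟩ := short M hM R hR.le f hf hf1
  have hlev := levels (volume.restrict Ω) J k hkJ θ κ (Ab n R M) (Ab_meas R M) (Ab_norm R M)
    Lg Li a hLg K hexc I hI w hw0 hw1 G (fun y => (hw y).trans hMK)
  have hset : ∀ c : ℝ, MeasurableSet {y | c < G y} := fun c => measurableSet_lt measurable_const hGm
  have rΩ : ∀ c : ℝ, (volume.restrict Ω).real {y | c < G y} = volume.real (Ω ∩ {y | c < G y}) := by
    intro c
    rw [measureReal_restrict_apply (hset c), inter_comm]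
  have rS : ∀ c : ℝ, (volume.restrict Ω).real (S ∩ {y | c < G y}) =
      volume.real (S ∩ {y | c < G y}) := by
    intro c
    rw [measureReal_restrict_apply (hSm.inter (hset c))]
    congr 1
    ext y
    exact ⟨fun h => h.1, fun h => ⟨h, hSΩ h.1⟩⟩
  have hfin2 : ∀ A : Set (EuclideanSpace ℝ (Fin (n + 1))), volume (Ω ∩ A) ≠ ⊤ := fun A =>
    ((measure_mono inter_subset_left).trans_lt hfin).ne
  have hfin3 : ∀ A : Set (EuclideanSpace ℝ (Fin (n + 1))), volume (S ∩ A) ≠ ⊤ := fun A =>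
    ((measure_mono (inter_subset_left.trans hSΩ)).trans_lt hfin).ne
  refine ⟨?_, ?_⟩
  · intro l hl
    have hl0 : 0 < l := lt_of_le_of_lt (by positivity) hl
    rcases lt_or_ge (V0 n) l with hbig | hsmall
    · have hempty : ∀ y ∈ Ω, ¬ l < ‖F y‖ := by
        intro y hy h
        rw [hFG y hy] at h
        have := mul_le_mul_of_nonneg_left (hG1 y) hv0.le
        linarith
      have e1 : Ω ∩ {x | l < ‖F x‖} = ∅ := by
        ext y
        simp only [mem_inter_iff, mem_ofPred_eq, mem_empty_iff_false, iff_false, not_and]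
        exact hempty y
      have e2 : S ∩ {x | l < ‖F x‖} = ∅ := by
        ext y
        simp only [mem_inter_iff, mem_ofPred_eq, mem_empty_iff_false, iff_false, not_and]
        exact fun h => hempty y (hSΩ h)
      rw [e1, e2]
      simp only [measureReal_empty, mul_zero]
      constructor <;> positivity
    · set x : ℝ := l / V0 n with hx
      have hx0 : 0 < x := by positivity
      have hx1 : x ≤ 1 := (div_le_one hv0).2 hsmall
      obtain ⟨j, hj1, hj2⟩ := exists_nat_pow_near_of_lt_one hx0 hx1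
        (show (0 : ℝ) < 1 / 2 by norm_num) (by norm_num)
      have hxK : (1 / 2 : ℝ) ^ K < x := by
        rw [hx, lt_div_iff₀ hv0]
        exact hl
      have hjK : j < K := by
        by_contra h
        rw [not_lt] at h
        have : (1 / 2 : ℝ) ^ j ≤ (1 / 2 : ℝ) ^ K :=
          pow_le_pow_of_le_one (by norm_num) (by norm_num) h
        linarith
      obtain ⟨h1, h2⟩ := hlev j hjK
      rw [rS, rΩ] at h1 h2
      have hT := mul_le_mul_of_nonneg_left (T_le Lg Li a hLg hLi ha j) hκ.le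
      have h4 : (4 : ℝ) ^ j * x ^ 2 ≤ 1 := by
        have h5 : x ^ 2 ≤ ((1 / 2 : ℝ) ^ j) ^ 2 := pow_le_pow_left₀ hx0.le hj2 2
        have h6 : (4 : ℝ) ^ j * ((1 / 2 : ℝ) ^ j) ^ 2 = 1 := by
          rw [← pow_mul, mul_comm j 2, pow_mul, ← mul_pow]
          norm_num
        calc (4 : ℝ) ^ j * x ^ 2 ≤ (4 : ℝ) ^ j * ((1 / 2 : ℝ) ^ j) ^ 2 :=
              mul_le_mul_of_nonneg_left h5 (by positivity)
          _ = 1 := h6
      have hT2 : κ * (tt Lg Li a j + 3) ≤ κ * (Q * V0 n ^ 2) / l ^ 2 := by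
        refine hT.trans ?_
        rw [le_div_iff₀ (by positivity)]
        have e : x ^ 2 * V0 n ^ 2 = l ^ 2 := by
          rw [← mul_pow, hx, div_mul_cancel₀ _ hv0.ne']
        rw [← e]
        calc κ * (Q * 4 ^ j) * (x ^ 2 * V0 n ^ 2) = (4 ^ j * x ^ 2) * (κ * (Q * V0 n ^ 2)) := by
              ring
          _ ≤ 1 * (κ * (Q * V0 n ^ 2)) := mul_le_mul_of_nonneg_right h4 (by positivity)
          _ = _ := one_mul _
      have hup : ∀ A : Set (EuclideanSpace ℝ (Fin (n + 1))), A ⊆ Ω →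
          A ∩ {y | l < ‖F y‖} ⊆ A ∩ {y | (1 / 2 : ℝ) ^ (j + 1) < G y} := by
        intro A hA y hy
        refine ⟨hy.1, ?_⟩
        have h7 : l < ‖F y‖ := hy.2
        rw [hFG y (hA hy.1)] at h7
        have h8 : x < G y := by
          rw [hx, div_lt_iff₀ hv0]
          linarith
        exact hj1.trans h8
      have hdn : ∀ A : Set (EuclideanSpace ℝ (Fin (n + 1))), A ⊆ Ω →
          A ∩ {y | (1 / 2 : ℝ) ^ (j + 1) / 2 < G y} ⊆ A ∩ {y | l / 4 < ‖F y‖} := by
        intro A hA y hy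
        refine ⟨hy.1, ?_⟩
        have h7 : (1 / 2 : ℝ) ^ (j + 1) / 2 < G y := hy.2
        show l / 4 < ‖F y‖
        rw [hFG y (hA hy.1)]
        have h8 : x / 4 < G y := by
          rw [pow_succ] at h7
          linarith
        have h9 : l = V0 n * x := by
          rw [hx, mul_div_cancel₀ _ hv0.ne']
        rw [h9]
        nlinarith
      have u1 := measureReal_mono (hup S hSΩ) (hfin3 _)
      have u2 := measureReal_mono (hup Ω subset_rfl) (hfin2 _)
      have d1 := measureReal_mono (hdn S hSΩ) (hfin3 _)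
      have d2 := measureReal_mono (hdn Ω subset_rfl) (hfin2 _)
      have e5 : κ * (2 * (Q * V0 n ^ 2)) / l ^ 2 = 2 * (κ * (Q * V0 n ^ 2) / l ^ 2) := by ring
      constructor
      · have := mul_le_mul_of_nonneg_left d2 hτ
        linarith
      · have := mul_le_mul_of_nonneg_left u2 hτ
        rw [e5]
        linarith
  · intro p hp
    have hp0 : 0 ≤ p := by linarith
    have h := two_sided (volume.restrict Ω) G hGm hG0 hG1 S K ((k : ℝ) / J.card) κ Q hτ hτ1 hκ.le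
      hQ0 (fun j => tt Lg Li a j + 3) (fun j _ => T_le Lg Li a hLg hLi ha j)
      (fun j hj => hlev j hj) p hp
    have eS : (volume.restrict Ω).restrict S = volume.restrict S := by
      rw [Measure.restrict_restrict hSm, inter_eq_left.2 hSΩ]
    rw [eS] at h
    have cS : ∫ x in S, ‖F x‖ ^ p = V0 n ^ p * ∫ x in S, G x ^ p := by
      rw [← integral_const_mul]
      refine setIntegral_congr_fun hSm fun y hy => ?_
      rw [hFG y (hSΩ hy), Real.mul_rpow hv0.le (hG0 y)]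
    have cΩ : ∫ x in Ω, ‖F x‖ ^ p = V0 n ^ p * ∫ x in Ω, G x ^ p := by
      rw [← integral_const_mul]
      refine setIntegral_congr_fun hΩm fun y hy => ?_
      rw [hFG y hy, Real.mul_rpow hv0.le (hG0 y)]
    have hvp : 0 ≤ V0 n ^ p := by positivity
    have herr : 2 * (κ * (K * Q)) + (1 / 4 : ℝ) ^ K * (volume.restrict Ω).real Set.univ ≤
        κ * (2 * (K * Q) + 1) := by
      linarith
    have herr2 := mul_le_mul_of_nonneg_left herr hvp
    rw [cS, cΩ]
    constructor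
    · have := mul_le_mul_of_nonneg_left h.1 hvp
      linarith
    · have := mul_le_mul_of_nonneg_left h.2 hvp
      linarith

end Pool.Agent.P8H75.RP
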