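import Pool.Agent.P8H75.RP.Good

set_option autoImplicit false
set_option linter.unusedSectionVars false

/-!
# From superlevel sets to powers
-/

namespace Pool.Agent.P8H75.RP

open Finset MeasureTheory Pool.Agent.N248.RC

theorem dp1 (p : ℝ) (hp : 0 ≤ p) (K : ℕ) (G : ℝ) (hG0 : 0 ≤ G) (hG : G ≤ 1) :
    G ^ p ≤ ∑ j ∈ range K, ((1 / 2 : ℝ) ^ j) ^ p * (if (1 / 2 : ℝ) ^ (j + 1) < G then 1 else 0) +
      ((1 / 2 : ℝ) ^ K) ^ p := by
  induction K with
  | zero =>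
    simp only [range_zero, sum_empty, pow_zero, zero_add, Real.one_rpow]
    exact Real.rpow_le_one hG0 hG hp
  | succ K ih =>
    rw [sum_range_succ]
    have hS : 0 ≤ ∑ j ∈ range K, ((1 / 2 : ℝ) ^ j) ^ p *
        (if (1 / 2 : ℝ) ^ (j + 1) < G then (1 : ℝ) else 0) :=
      sum_nonneg fun j _ => by split_ifs <;> positivity
    have hq : (0 : ℝ) ≤ ((1 / 2 : ℝ) ^ (K + 1)) ^ p := by positivity
    by_cases h : (1 / 2 : ℝ) ^ (K + 1) < G
    · rw [if_pos h, mul_one]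
      linarith
    · rw [if_neg h]
      have h1 := Real.rpow_le_rpow hG0 (not_lt.1 h) hp
      linarith

theorem dp2 (p : ℝ) (hp : 1 ≤ p) (K : ℕ) (G : ℝ) (hG : 0 ≤ G) :
    ∑ j ∈ range K, ((1 / 2 : ℝ) ^ j) ^ p * (if (1 / 2 : ℝ) ^ (j + 1) / 2 < G then 1 else 0) ≤
      2 * 4 ^ p * G ^ p := by
  have h1 : ∀ j ∈ range K, ((1 / 2 : ℝ) ^ j) ^ p *
      (if (1 / 2 : ℝ) ^ (j + 1) / 2 < G then (1 : ℝ) else 0) ≤
      (4 * G) ^ (p - 1) * ((1 / 2 : ℝ) ^ j * (if (1 / 2 : ℝ) ^ (j + 1) / 2 < G then 1 else 0)) := by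
    intro j _
    by_cases h : (1 / 2 : ℝ) ^ (j + 1) / 2 < G
    · rw [if_pos h, mul_one, mul_one]
      have h2 : (1 / 2 : ℝ) ^ j ≤ 4 * G := by
        rw [pow_succ] at h
        linarith
      have h3 : (0 : ℝ) < (1 / 2 : ℝ) ^ j := by positivity
      have e : ((1 / 2 : ℝ) ^ j) ^ p = ((1 / 2 : ℝ) ^ j) ^ (p - 1) * (1 / 2 : ℝ) ^ j := by
        rw [← Real.rpow_add_one h3.ne']
        congr 1
        ring
      rw [e]
      exact mul_le_mul_of_nonneg_right (Real.rpow_le_rpow h3.le h2 (by linarith)) h3.le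
    · rw [if_neg h, mul_zero, mul_zero, mul_zero]
  refine (sum_le_sum h1).trans ?_
  rw [← mul_sum]
  have h2 := mul_le_mul_of_nonneg_left (dy2 K G hG) (show (0 : ℝ) ≤ (4 * G) ^ (p - 1) by positivity)
  refine h2.trans (le_of_eq ?_)
  rcases hG.eq_or_lt with h0 | h0
  · rw [← h0, Real.zero_rpow (show p ≠ 0 by linarith)]
    ring
  · have h4 : (0 : ℝ) < 4 * G := by linarith
    have e : (4 * G) ^ p = (4 * G) ^ (p - 1) * (4 * G) := by
      rw [← Real.rpow_add_one h4.ne']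
      congr 1
      ring
    rw [mul_assoc, ← Real.mul_rpow (by norm_num) hG, e]
    ring

variable {Y : Type*} [MeasurableSpace Y]

theorem int_up (ν : Measure Y) [IsFiniteMeasure ν] (G : Y → ℝ) (hGm : Measurable G)
    (hG0 : ∀ y, 0 ≤ G y) (hG1 : ∀ y, G y ≤ 1) (p : ℝ) (hp : 0 ≤ p) (K : ℕ) :
    ∫ y, G y ^ p ∂ν ≤ ∑ j ∈ range K, ((1 / 2 : ℝ) ^ j) ^ p *
      ν.real {y | (1 / 2 : ℝ) ^ (j + 1) < G y} + ((1 / 2 : ℝ) ^ K) ^ p * ν.real Set.univ := by
  have hset : ∀ c : ℝ, MeasurableSet {y | c < G y} := fun c => measurableSet_lt measurable_const hGm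
  have hind : ∀ (c : ℝ), ∫ y, (if c < G y then (1 : ℝ) else 0) ∂ν = ν.real {y | c < G y} := by
    intro c
    have : (fun y => if c < G y then (1 : ℝ) else 0) = {y | c < G y}.indicator 1 := by
      ext y
      simp [Set.indicator_apply]
    rw [this, integral_indicator_one (hset c)]
  have hiint : ∀ (c : ℝ), Integrable (fun y => if c < G y then (1 : ℝ) else 0) ν := by
    intro c
    refine Integrable.mono' (integrable_const (1 : ℝ))
      (Measurable.ite (hset c) measurable_const measurable_const).aestronglyMeasurable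
      (Filter.Eventually.of_forall fun y => ?_)
    split_ifs <;> simp
  have h2 : ∫ y, G y ^ p ∂ν ≤ ∫ y, (∑ j ∈ range K, ((1 / 2 : ℝ) ^ j) ^ p *
      (if (1 / 2 : ℝ) ^ (j + 1) < G y then 1 else 0) + ((1 / 2 : ℝ) ^ K) ^ p) ∂ν := by
    refine integral_mono_of_nonneg (Filter.Eventually.of_forall fun y =>
      Real.rpow_nonneg (hG0 y) p) ?_
      (Filter.Eventually.of_forall fun y => dp1 p hp K (G y) (hG0 y) (hG1 y))
    exact (integrable_finsetSum _ fun j _ => (hiint _).const_mul _).add (integrable_const _)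
  refine h2.trans (le_of_eq ?_)
  rw [integral_add (integrable_finsetSum _ fun j _ => (hiint _).const_mul _)
    (integrable_const _), integral_finsetSum _ fun j _ => (hiint _).const_mul _,
    integral_const, smul_eq_mul, mul_comm (ν.real Set.univ)]
  congr 1
  refine sum_congr rfl fun j _ => ?_
  rw [integral_const_mul, hind]

theorem pow_int (ν : Measure Y) [IsFiniteMeasure ν] (G : Y → ℝ) (hGm : Measurable G)
    (hG0 : ∀ y, 0 ≤ G y) (hG1 : ∀ y, G y ≤ 1) (p : ℝ) (hp : 0 ≤ p) :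
    Integrable (fun y => G y ^ p) ν := by
  refine Integrable.mono' (integrable_const (1 : ℝ)) (hGm.pow_const p).aestronglyMeasurable
    (Filter.Eventually.of_forall fun y => ?_)
  rw [Real.norm_of_nonneg (Real.rpow_nonneg (hG0 y) p)]
  exact Real.rpow_le_one (hG0 y) (hG1 y) hp

theorem int_low (ν : Measure Y) [IsFiniteMeasure ν] (G : Y → ℝ) (hGm : Measurable G)
    (hG0 : ∀ y, 0 ≤ G y) (hG1 : ∀ y, G y ≤ 1) (p : ℝ) (hp : 1 ≤ p) (K : ℕ) :
    ∑ j ∈ range K, ((1 / 2 : ℝ) ^ j) ^ p * ν.real {y | (1 / 2 : ℝ) ^ (j + 1) / 2 < G y} ≤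
      2 * 4 ^ p * ∫ y, G y ^ p ∂ν := by
  have hset : ∀ c : ℝ, MeasurableSet {y | c < G y} := fun c => measurableSet_lt measurable_const hGm
  have hind : ∀ (c : ℝ), ∫ y, (if c < G y then (1 : ℝ) else 0) ∂ν = ν.real {y | c < G y} := by
    intro c
    have : (fun y => if c < G y then (1 : ℝ) else 0) = {y | c < G y}.indicator 1 := by
      ext y
      simp [Set.indicator_apply]
    rw [this, integral_indicator_one (hset c)]
  have hiint : ∀ (c : ℝ), Integrable (fun y => if c < G y then (1 : ℝ) else 0) ν := by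
    intro c
    refine Integrable.mono' (integrable_const (1 : ℝ))
      (Measurable.ite (hset c) measurable_const measurable_const).aestronglyMeasurable
      (Filter.Eventually.of_forall fun y => ?_)
    split_ifs <;> simp
  have h4 : ∑ j ∈ range K, ((1 / 2 : ℝ) ^ j) ^ p * ν.real {y | (1 / 2 : ℝ) ^ (j + 1) / 2 < G y} =
      ∫ y, ∑ j ∈ range K, ((1 / 2 : ℝ) ^ j) ^ p *
        (if (1 / 2 : ℝ) ^ (j + 1) / 2 < G y then 1 else 0) ∂ν := by
    rw [integral_finsetSum _ fun j _ => (hiint _).const_mul _]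
    refine sum_congr rfl fun j _ => ?_
    rw [integral_const_mul, hind]
  rw [h4, ← integral_const_mul]
  exact integral_mono (integrable_finsetSum _ fun j _ => (hiint _).const_mul _)
    ((pow_int ν G hGm hG0 hG1 p (by linarith)).const_mul _) fun y => dp2 p hp K (G y) (hG0 y)

theorem half_pow (p : ℝ) (hp : 2 ≤ p) (j : ℕ) : ((1 / 2 : ℝ) ^ j) ^ p * 4 ^ j ≤ 1 := by
  have h1 : ((1 / 2 : ℝ) ^ j) ^ p ≤ ((1 / 2 : ℝ) ^ j) ^ (2 : ℝ) :=
    Real.rpow_le_rpow_of_exponent_ge (by positivity) (pow_le_one₀ (by norm_num) (by norm_num)) hp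
  have h2 : ((1 / 2 : ℝ) ^ j) ^ (2 : ℝ) * 4 ^ j = 1 := by
    rw [Real.rpow_two, ← pow_mul, mul_comm j 2, pow_mul, ← mul_pow]
    norm_num
  calc _ ≤ ((1 / 2 : ℝ) ^ j) ^ (2 : ℝ) * 4 ^ j := mul_le_mul_of_nonneg_right h1 (by positivity)
    _ = 1 := h2

/-- **Two-sided sampling of powers.** -/
theorem two_sided (μ : Measure Y) [IsFiniteMeasure μ] (G : Y → ℝ) (hGm : Measurable G)
    (hG0 : ∀ y, 0 ≤ G y) (hG1 : ∀ y, G y ≤ 1)
    (S : Set Y) (K : ℕ) (τ κ Q : ℝ) (hτ : 0 ≤ τ) (hτ1 : τ ≤ 1) (hκ : 0 ≤ κ) (hQ : 0 ≤ Q)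
    (T : ℕ → ℝ) (hT : ∀ j < K, T j ≤ Q * 4 ^ j)
    (hlev : ∀ j < K, μ.real (S ∩ {y | (1 / 2 : ℝ) ^ (j + 1) < G y}) ≤
        2 * τ * μ.real {y | (1 / 2 : ℝ) ^ (j + 1) / 2 < G y} + κ * T j ∧
      1 / 2 * τ * μ.real {y | (1 / 2 : ℝ) ^ (j + 1) < G y} ≤
        μ.real (S ∩ {y | (1 / 2 : ℝ) ^ (j + 1) / 2 < G y}) + κ * T j)
    (p : ℝ) (hp : 2 ≤ p) :
    ∫ y in S, G y ^ p ∂μ ≤ 4 * 4 ^ p * (τ * ∫ y, G y ^ p ∂μ) +
        (2 * (κ * (K * Q)) + (1 / 4 : ℝ) ^ K * μ.real Set.univ) ∧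
      τ * ∫ y, G y ^ p ∂μ ≤ 4 * 4 ^ p * ∫ y in S, G y ^ p ∂μ +
        (2 * (κ * (K * Q)) + (1 / 4 : ℝ) ^ K * μ.real Set.univ) := by
  have hset : ∀ c : ℝ, MeasurableSet {y | c < G y} := fun c => measurableSet_lt measurable_const hGm
  have hU := int_up μ G hGm hG0 hG1 p (by linarith) K
  have hUS := int_up (μ.restrict S) G hGm hG0 hG1 p (by linarith) K
  have hL := int_low μ G hGm hG0 hG1 p (by linarith) K
  have hLS := int_low (μ.restrict S) G hGm hG0 hG1 p (by linarith) K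
  have hS : ∀ c : ℝ, (μ.restrict S).real {y | c < G y} = μ.real (S ∩ {y | c < G y}) := by
    intro c
    rw [measureReal_restrict_apply (hset _), Set.inter_comm]
  simp only [hS] at hUS hLS
  have e1 : (μ.restrict S).real Set.univ ≤ μ.real Set.univ := by
    rw [measureReal_restrict_apply MeasurableSet.univ, Set.univ_inter]
    exact measureReal_mono (Set.subset_univ _)
  have hμ0 : 0 ≤ μ.real Set.univ := measureReal_nonneg
  have hK : ((1 / 2 : ℝ) ^ K) ^ p ≤ (1 / 4 : ℝ) ^ K := by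
    have h1 := half_pow p hp K
    have h2 : (0 : ℝ) < 4 ^ K := by positivity
    rw [← le_div_iff₀ h2] at h1
    refine h1.trans (le_of_eq ?_)
    rw [one_div_pow]
  have hK0 : 0 ≤ ((1 / 2 : ℝ) ^ K) ^ p := by positivity
  have hKμ : ((1 / 2 : ℝ) ^ K) ^ p * μ.real Set.univ ≤ (1 / 4 : ℝ) ^ K * μ.real Set.univ :=
    mul_le_mul_of_nonneg_right hK hμ0
  have hKS : ((1 / 2 : ℝ) ^ K) ^ p * (μ.restrict S).real Set.univ ≤
      (1 / 4 : ℝ) ^ K * μ.real Set.univ :=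
    (mul_le_mul_of_nonneg_left e1 hK0).trans hKμ
  have hsum : ∑ j ∈ range K, ((1 / 2 : ℝ) ^ j) ^ p * (κ * T j) ≤ κ * (K * Q) := by
    have h1 : ∀ j ∈ range K, ((1 / 2 : ℝ) ^ j) ^ p * (κ * T j) ≤ κ * Q := by
      intro j hj
      have h2 := hT j (mem_range.1 hj)
      have h3 := half_pow p hp j
      have h4 : (0 : ℝ) ≤ ((1 / 2 : ℝ) ^ j) ^ p := by positivity
      calc ((1 / 2 : ℝ) ^ j) ^ p * (κ * T j) ≤ ((1 / 2 : ℝ) ^ j) ^ p * (κ * (Q * 4 ^ j)) := by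
            gcongr
        _ = (((1 / 2 : ℝ) ^ j) ^ p * 4 ^ j) * (κ * Q) := by ring
        _ ≤ 1 * (κ * Q) := mul_le_mul_of_nonneg_right h3 (by positivity)
        _ = κ * Q := one_mul _
    refine (sum_le_sum h1).trans (le_of_eq ?_)
    rw [sum_const, card_range, nsmul_eq_mul]
    ring
  have hKQ : 0 ≤ κ * (K * Q) := by positivity
  constructor
  · have h5 : ∑ j ∈ range K, ((1 / 2 : ℝ) ^ j) ^ p *
        μ.real (S ∩ {y | (1 / 2 : ℝ) ^ (j + 1) < G y}) ≤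
        ∑ j ∈ range K, (2 * τ * (((1 / 2 : ℝ) ^ j) ^ p *
          μ.real {y | (1 / 2 : ℝ) ^ (j + 1) / 2 < G y}) + ((1 / 2 : ℝ) ^ j) ^ p * (κ * T j)) := by
      refine sum_le_sum fun j hj => ?_
      have := mul_le_mul_of_nonneg_left (hlev j (mem_range.1 hj)).1
        (show (0 : ℝ) ≤ ((1 / 2 : ℝ) ^ j) ^ p by positivity)
      linarith
    rw [sum_add_distrib, ← mul_sum] at h5
    have h6 := mul_le_mul_of_nonneg_left hL (show 0 ≤ 2 * τ by positivity)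
    linarith
  · have h5 : τ * ∑ j ∈ range K, ((1 / 2 : ℝ) ^ j) ^ p *
        μ.real {y | (1 / 2 : ℝ) ^ (j + 1) < G y} ≤
        ∑ j ∈ range K, (2 * (((1 / 2 : ℝ) ^ j) ^ p *
          μ.real (S ∩ {y | (1 / 2 : ℝ) ^ (j + 1) / 2 < G y})) +
            2 * (((1 / 2 : ℝ) ^ j) ^ p * (κ * T j))) := by
      rw [mul_sum]
      refine sum_le_sum fun j hj => ?_
      have := mul_le_mul_of_nonneg_left (hlev j (mem_range.1 hj)).2
        (show (0 : ℝ) ≤ 2 * ((1 / 2 : ℝ) ^ j) ^ p by positivity)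
      linarith
    rw [sum_add_distrib, ← mul_sum, ← mul_sum] at h5
    have h7 := mul_le_mul_of_nonneg_left hU hτ
    have h8 : τ * (((1 / 2 : ℝ) ^ K) ^ p * μ.real Set.univ) ≤ (1 / 4 : ℝ) ^ K * μ.real Set.univ :=
      (mul_le_of_le_one_left (by positivity) hτ1).trans hKμ
    linarith

end Pool.Agent.P8H75.RP
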